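import Pool.Agent.Hhelper32.Bcf.Part2b

set_option autoImplicit false
set_option linter.unusedSectionVars false
set_option linter.unusedVariables false

open Polynomial

namespace Pool.Agent.Hhelper32.Bcf

/-! ### generic facts -/

section gen
variable {A Ω : Type*} [CommRing A] [Field Ω] [Algebra A Ω]

theorem gen_aeval (d : Derivation ℤ A A) (D : Derivation ℤ Ω Ω)
    (h : ∀ a, D (algebraMap A Ω a) = algebraMap A Ω (d a)) (x : Ω) (q : A[X]) :
    ∃ q1 : A[X], (∀ n, q1.coeff n = d (q.coeff n)) ∧
      D (aeval x q) = aeval x q1 + aeval x (derivative q) * D x := by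
  induction q using Polynomial.induction_on' with
  | add P Q hP hQ =>
    obtain ⟨P1, hP1, hP2⟩ := hP
    obtain ⟨Q1, hQ1, hQ2⟩ := hQ
    refine ⟨P1 + Q1, fun n => by rw [coeff_add, hP1, hQ1, coeff_add, map_add], ?_⟩
    rw [map_add, map_add, hP2, hQ2, map_add, derivative_add, map_add]
    ring
  | monomial n a =>
    refine ⟨monomial n (d a), fun k => ?_, ?_⟩
    · rw [coeff_monomial, coeff_monomial]
      split_ifs
      · rfl
      · rw [map_zero]
    · rw [aeval_monomial, aeval_monomial, derivative_monomial, aeval_monomial, D_mul, h,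
        Derivation.leibniz_pow]
      simp only [nsmul_eq_mul, smul_eq_mul, map_mul, map_natCast]
      ring

theorem isAlg_mono {B : Type*} [CommRing B] [Algebra B Ω] (f : A →+* B)
    (hf : Function.Injective f) (h : ∀ a, algebraMap B Ω (f a) = algebraMap A Ω a) {x : Ω}
    (hx : IsAlgebraic A x) : IsAlgebraic B x := by
  obtain ⟨p, hp, hpx⟩ := hx
  refine ⟨p.map f, (Polynomial.map_ne_zero_iff hf).mpr hp, ?_⟩
  rw [aeval_def, eval₂_map]
  have : (algebraMap B Ω).comp f = algebraMap A Ω := RingHom.ext h
  rw [this, ← aeval_def, hpx]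

/-- algebraic elements are stable under the derivation. -/
theorem alg_der [IsDomain A] [CharZero A] (hinj : Function.Injective (algebraMap A Ω))
    (d : Derivation ℤ A A) (D : Derivation ℤ Ω Ω)
    (h : ∀ a, D (algebraMap A Ω a) = algebraMap A Ω (d a)) {x : Ω} (hx : IsAlgebraic A x) :
    IsAlgebraic A (D x) := by
  classical
  have hex : ∃ n : ℕ, ∃ q : A[X], q ≠ 0 ∧ aeval x q = 0 ∧ q.natDegree = n := by
    obtain ⟨q, hq, hqx⟩ := hx
    exact ⟨_, q, hq, hqx, rfl⟩
  set n := Nat.find hex with hn
  obtain ⟨q, hq, hqx, hqn⟩ := Nat.find_spec hex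
  have hn0 : q.natDegree ≠ 0 := by
    intro h0
    obtain ⟨a, rfl⟩ := natDegree_eq_zero.mp h0
    rw [aeval_C] at hqx
    apply hq
    have : a = 0 := hinj (by rw [hqx, map_zero])
    rw [this, map_zero]
  obtain ⟨q1, hq1, hq2⟩ := gen_aeval d D h x q
  have hder : aeval x (derivative q) ≠ 0 := by
    intro h0
    have h1 : derivative q ≠ 0 := by
      intro h2
      exact hn0 (Polynomial.derivative_eq_zero.mp h2)
    have h2 := Nat.find_min hex (m := (derivative q).natDegree) (by
      rw [← hqn]
      exact natDegree_derivative_lt hn0)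
    exact h2 ⟨derivative q, h1, h0, rfl⟩
  rw [hqx, map_zero] at hq2
  have h3 : D x = - aeval x q1 * (aeval x (derivative q))⁻¹ := by
    field_simp
    linear_combination -hq2
  have hmem : ∀ r : A[X], IsAlgebraic A (aeval x r) := fun r => by
    have : aeval x r ∈ Subalgebra.algebraicClosure A Ω := by
      have h4 : Algebra.adjoin A {x} ≤ Subalgebra.algebraicClosure A Ω :=
        Algebra.adjoin_le (by rintro y rfl; exact hx)
      exact h4 (aeval_mem_adjoin_singleton A x)
    exact this
  rw [h3]
  exact (hmem q1).neg.mul (hmem _).inv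

end gen

/-! ### algebraic closure of a subring -/

section acl
variable {Ω : Type*} [Field Ω]

/-- the relative algebraic closure of a subring of a field. -/
noncomputable def acl (R : Subring Ω) : Subfield Ω :=
  { (Subalgebra.algebraicClosure R Ω).toSubring with
    inv_mem' := fun x hx => IsAlgebraic.inv (R := R) (x := x) hx }

theorem mem_acl {R : Subring Ω} {x : Ω} : x ∈ acl R ↔ IsAlgebraic R x := Iff.rfl

theorem le_acl (R : Subring Ω) {x : Ω} (hx : x ∈ R) : x ∈ acl R :=
  isAlgebraic_algebraMap (⟨x, hx⟩ : R)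

theorem alg_acl {R : Subring Ω} {x : Ω} (hx : IsAlgebraic (acl R) x) : x ∈ acl R := by
  rw [mem_acl]
  have h1 : IsAlgebraic (Subalgebra.algebraicClosure R Ω) x := by
    refine isAlg_mono (B := Subalgebra.algebraicClosure R Ω)
      ({ toFun := fun y => ⟨y.1, y.2⟩
         map_one' := rfl
         map_mul' := fun _ _ => rfl
         map_zero' := rfl
         map_add' := fun _ _ => rfl } : acl R →+* Subalgebra.algebraicClosure R Ω) ?_ ?_ hx
    · intro a b hab
      exact Subtype.ext (congrArg Subtype.val hab)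
    · intro a; rfl
  exact h1.restrictScalars R

theorem acl_mono {R R' : Subring Ω} (h : ∀ x ∈ R, x ∈ acl R') : acl R ≤ acl R' := by
  intro x hx
  apply alg_acl
  refine isAlg_mono (A := R) (B := acl R')
    ({ toFun := fun y => ⟨y.1, h y.1 y.2⟩
       map_one' := rfl
       map_mul' := fun _ _ => rfl
       map_zero' := rfl
       map_add' := fun _ _ => rfl } : R →+* acl R') ?_ ?_ hx
  · intro a b hab
    have h1 : a.1 = b.1 := congrArg (fun y : acl R' => y.1) hab
    exact Subtype.ext h1
  · intro a; rfl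

instance acl_isAlgClosed [IsAlgClosed Ω] (R : Subring Ω) : IsAlgClosed (acl R) := by
  apply IsAlgClosed.of_exists_root
  intro p hp hirr
  have hdeg : (p.map (algebraMap (acl R) Ω)).degree ≠ 0 := by
    rw [degree_map]
    exact (Polynomial.degree_pos_of_irreducible hirr).ne'
  obtain ⟨x, hx⟩ := IsAlgClosed.exists_root _ hdeg
  have hx' : aeval x p = 0 := by
    rw [IsRoot, eval_map] at hx
    rw [aeval_def]; exact hx
  have hxa : x ∈ acl R := alg_acl ⟨p, hirr.ne_zero, hx'⟩
  refine ⟨⟨x, hxa⟩, ?_⟩
  have h1 : algebraMap (acl R) Ω (p.eval ⟨x, hxa⟩) = 0 := by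
    rw [← hx', ← aeval_algebraMap_apply_eq_algebraMap_eval]
    rfl
  exact (algebraMap (acl R) Ω).injective (by rw [h1, map_zero])

/-- restriction of a derivation to a stable subring. -/
def restrictD {R : Type*} [SetLike R Ω] [SubringClass R Ω] (D : Derivation ℤ Ω Ω) (K : R)
    (h : ∀ x ∈ K, D x ∈ K) : Derivation ℤ K K :=
  Derivation.mk'
    { toFun := fun x => ⟨D x.1, h x.1 x.2⟩
      map_add' := fun x y => Subtype.ext (D.map_add x.1 y.1)
      map_smul' := fun n x => Subtype.ext (by simp) }
    (fun x y => Subtype.ext (by simp))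

theorem acl_D [CharZero Ω] (D : Derivation ℤ Ω Ω) {R : Subring Ω} (h : ∀ x ∈ R, D x ∈ R) :
    ∀ x ∈ acl R, D x ∈ acl R := by
  intro x hx
  exact alg_der (A := R) (fun a b hab => Subtype.ext hab) (restrictD D R h) D (fun a => rfl) hx

end acl
end Pool.Agent.Hhelper32.Bcf
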