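import Pool.Agent.Hhelper32.Bcf.Alg0

set_option autoImplicit false
set_option linter.unusedSectionVars false
set_option linter.unusedVariables false

open Polynomial

namespace Pool.Agent.Hhelper32.Bcf

section
variable {K Ω : Type*} [Field K] [Field Ω] [Algebra K Ω]


section ac
variable [IsAlgClosed K] [CharZero K] {S : DExt K Ω} {t : Ω} {β : K}

theorem mon (ht : IsT S t β) {y : Ω} (hy : y ∈ Kt K t) (hy0 : y ≠ 0) {r : K}
    (hr : ld S.D y = algebraMap K Ω r) : ∃ κ : K, κ ≠ 0 ∧ ∃ j : ℤ, y = algebraMap K Ω κ * t ^ j := by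
  apply eq_monomial ht hy hy0
  intro c hc o l h
  have h1 := h.ld ht
  rw [hr] at h1
  have h2 : RegS t c (algebraMap K Ω r) (-1) (0:K) := (RegS.const r).mono ht (by norm_num)
  have h3 := RegS.unique ht h1 h2
  have h4 := (mul_eq_zero.mp h3).resolve_right (ht.u_ne hc)
  exact_mod_cast h4

theorem kolchin (ht : IsT S t β) {E : Ω} (hE0 : E ≠ 0) {b : K} (hb : ld S.D E = algebraMap K Ω b)
    (halg : IsAlgebraic (Kt K t) E) :
    ∃ d : ℕ, 0 < d ∧ ∃ κ : K, κ ≠ 0 ∧ ∃ j : ℤ, E ^ d = algebraMap K Ω κ * t ^ j := by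
  have hint : IsIntegral (Kt K t) E := halg.isIntegral
  set p := minpoly (Kt K t) E with hp
  have hmonic : p.Monic := minpoly.monic hint
  set dF : Derivation ℤ (Kt K t) (Kt K t) := restrictD S.D (Kt K t) (fun x hx => D_mem_Kt ht hx)
    with hdF
  have hcompat : ∀ a : Kt K t, S.D (algebraMap (Kt K t) Ω a) = algebraMap (Kt K t) Ω (dF a) :=
    fun a => rfl
  obtain ⟨p1, hp1, hp2⟩ := gen_aeval dF S.D hcompat E p
  have hp0 : aeval E p = 0 := minpoly.aeval _ _
  rw [hp0, map_zero] at hp2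
  set n := p.natDegree with hn
  have hnpos : 0 < n := minpoly.natDegree_pos hint
  set b' : Kt K t := ⟨algebraMap K Ω b, alg_mem_Kt b⟩ with hb'
  have hb'm : algebraMap (Kt K t) Ω b' = algebraMap K Ω b := rfl
  have hDE : S.D E = algebraMap K Ω b * E := by rw [ld_eq S.D hE0, hb]
  set r : (Kt K t)[X] := p1 + C b' * (X * derivative p) - C (b' * n) * p with hr
  have hr0 : aeval E r = 0 := by
    rw [hr, map_sub, map_add, map_mul, map_mul, map_mul, aeval_C, aeval_C, aeval_X, hp0, hb'm]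
    rw [hDE] at hp2
    linear_combination -hp2
  have hcoeff : ∀ k, r.coeff k = dF (p.coeff k) + b' * (k * p.coeff k) - b' * n * p.coeff k := by
    intro k
    rw [hr, coeff_sub, coeff_add, hp1, coeff_C_mul, coeff_C_mul]
    rcases k with _ | k
    · simp
    · rw [coeff_X_mul, coeff_derivative]
      push_cast
      ring
  have hrzero : r = 0 := by
    by_contra hne
    have h1 := minpoly.degree_le_of_ne_zero (Kt K t) E hne hr0
    have h2 : r.natDegree < n := by
      have h3 : r.natDegree ≤ n := by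
        rw [natDegree_le_iff_coeff_eq_zero]
        intro k hk
        rw [hcoeff, coeff_eq_zero_of_natDegree_lt (by rw [← hn]; exact hk)]
        simp
      rcases h3.lt_or_eq with h4 | h4
      · exact h4
      · exfalso
        have h5 : r.coeff n = 0 := by
          rw [hcoeff]
          have h6 : p.coeff n = 1 := hmonic.coeff_natDegree
          rw [h6, Derivation.map_one_eq_zero]
          ring
        rw [← h4] at h5
        exact hne (leadingCoeff_eq_zero.mp h5)
    have h3 := degree_eq_natDegree hne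
    have h4 := degree_eq_natDegree hmonic.ne_zero
    rw [← hp, h3, h4, Nat.cast_le] at h1
    omega
  have hc0 : dF (p.coeff 0) = b' * n * p.coeff 0 := by
    have := hcoeff 0
    rw [hrzero, coeff_zero] at this
    push_cast at this
    linear_combination -this
  have hp00 : p.coeff 0 ≠ 0 := minpoly.coeff_zero_ne_zero hint hE0
  set y : Ω := (p.coeff 0).1 with hy
  have hyK : y ∈ Kt K t := (p.coeff 0).2
  have hy0 : y ≠ 0 := by
    intro h
    exact hp00 (Subtype.ext h)
  have hDy : S.D y = algebraMap K Ω (b * n) * y := by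
    have := congrArg (algebraMap (Kt K t) Ω) hc0
    rw [← hcompat] at this
    simp only [map_mul, map_natCast, hb'm] at this
    rw [map_mul, map_natCast]
    exact this
  have hldy : ld S.D y = algebraMap K Ω (b * n) := by
    unfold ld
    rw [hDy]; field_simp
  obtain ⟨κ, hκ, j, hyj⟩ := mon ht hyK hy0 hldy
  have hEn : E ^ n ≠ 0 := pow_ne_zero _ hE0
  have h1 : ld S.D (E ^ n / y) = 0 := by
    rw [ld_div S.D hEn hy0, ld_pow S.D hE0, hb, hldy, map_mul, map_natCast]; ring
  have h2 : S.D (E ^ n / y) = 0 := by rw [ld_eq S.D (div_ne_zero hEn hy0), h1, zero_mul]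
  obtain ⟨a, ha⟩ := S.const _ h2
  have ha0 : a ≠ 0 := by
    rintro rfl
    rw [map_zero] at ha
    exact div_ne_zero hEn hy0 ha.symm
  refine ⟨n, hnpos, a * κ, mul_ne_zero ha0 hκ, j, ?_⟩
  have h3 : E ^ n = algebraMap K Ω a * y := by rw [ha]; field_simp
  rw [h3, hyj, map_mul]; ring

theorem roots [IsAlgClosed Ω] (ht : IsT S t β) {N : ℕ} {E : ℕ → Ω}
    (h : ∀ n ≤ N, ∃ d : ℕ, 0 < d ∧ ∃ κ : K, κ ≠ 0 ∧ ∃ j : ℤ, E n ^ d = algebraMap K Ω κ * t ^ j)
    (hE0 : ∀ n ≤ N, E n ≠ 0) :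
    ∃ (s : Ω) (β' : K), IsT S s β' ∧ ∀ n ≤ N, ∃ c : K, c ≠ 0 ∧ ∃ m : ℤ, E n = algebraMap K Ω c * s ^ m := by
  choose! d hd κ hκ j hj using h
  set Q := ∏ n ∈ Finset.range (N + 1), d n with hQ
  have hQpos : 0 < Q := Finset.prod_pos (fun n hn => hd n (by
    have := Finset.mem_range.mp hn; omega))
  obtain ⟨s, hs⟩ := IsAlgClosed.exists_pow_nat_eq t hQpos
  have hs0 : s ≠ 0 := by
    rintro rfl
    apply ht.ne_zero
    rw [← hs, zero_pow hQpos.ne']
  have hQ0 : (Q : K) ≠ 0 := by exact_mod_cast hQpos.ne'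
  have hQ0' : (Q : Ω) ≠ 0 := by
    have : algebraMap K Ω (Q : K) ≠ 0 := (map_ne_zero (algebraMap K Ω)).mpr hQ0
    simpa using this
  have hDs : S.D s = algebraMap K Ω (β / Q) * s := by
    have h1 : ld S.D t = Q * ld S.D s := by rw [← hs, ld_pow S.D hs0]
    rw [ht.ld_t] at h1
    rw [ld_eq S.D hs0, map_div₀, map_natCast, h1]
    field_simp
  have hsT : IsT S s (β / Q) := ⟨hDs, fun c hc => by
    apply ht.notMem (c ^ Q)
    rw [map_pow, hc, hs]⟩
  refine ⟨s, β / Q, hsT, fun n hn => ?_⟩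
  obtain ⟨k, hk⟩ : d n ∣ Q := Finset.dvd_prod_of_mem d (Finset.mem_range.mpr (by omega))
  have hEQ : E n ^ Q = algebraMap K Ω (κ n ^ k) * (s ^ (j n * k)) ^ Q := by
    rw [hk, pow_mul, hj n hn, mul_pow, map_pow, ← zpow_natCast (t ^ j n), ← zpow_mul,
      ← zpow_natCast (s ^ (j n * k)), ← zpow_mul, ← hk, ← hs, ← zpow_natCast s Q, ← zpow_mul]
    congr 2
    ring
  have hsk : s ^ (j n * k) ≠ 0 := zpow_ne_zero _ hs0
  have hx : (E n / s ^ (j n * k)) ^ Q = algebraMap K Ω (κ n ^ k) := by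
    rw [div_pow, hEQ]; field_simp
  have halg : IsAlgebraic K (E n / s ^ (j n * k)) := by
    refine ⟨X ^ Q - C (κ n ^ k), X_pow_sub_C_ne_zero hQpos _, ?_⟩
    simp only [map_sub, map_pow, aeval_X, aeval_C, hx]
    simp
  obtain ⟨c, hc⟩ := mem_of_isAlgebraic halg
  refine ⟨c, ?_, j n * k, ?_⟩
  · rintro rfl
    rw [map_zero] at hc
    exact div_ne_zero (hE0 n hn) hsk hc.symm
  · rw [hc]; field_simp

end ac
end

/-! ### The chain -/
section chain
variable {Ω : Type*} [Field Ω] [CharZero Ω] [IsAlgClosed Ω] {D : Derivation ℤ Ω Ω}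

structure GoodR (D : Derivation ℤ Ω Ω) (R : Subring Ω) : Prop where
  stable : ∀ x ∈ R, D x ∈ R
  const : ∀ x, D x = 0 → x ∈ R

noncomputable def dext (D : Derivation ℤ Ω Ω) (R : Subring Ω) (h : GoodR D R) : DExt (acl R) Ω where
  d := restrictD D (acl R) (acl_D D h.stable)
  D := D
  compat := fun x => rfl
  const := fun x hx => ⟨⟨x, le_acl R (h.const x hx)⟩, rfl⟩

/-- adjoin elements one after the other. -/
def Rn (R : Subring Ω) (E : ℕ → Ω) : ℕ → Subring Ω
  | 0 => R
  | n + 1 => Subring.closure ((Rn R E n : Set Ω) ∪ {E n})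

theorem Rn_le_succ (R : Subring Ω) (E : ℕ → Ω) (n : ℕ) : Rn R E n ≤ Rn R E (n+1) := by
  intro x hx
  exact Subring.subset_closure (Or.inl hx)

theorem E_mem_Rn (R : Subring Ω) (E : ℕ → Ω) (n : ℕ) : E n ∈ Rn R E (n+1) :=
  Subring.subset_closure (Or.inr rfl)

theorem R_le_Rn (R : Subring Ω) (E : ℕ → Ω) (n : ℕ) : R ≤ Rn R E n := by
  induction n with
  | zero => exact le_rfl
  | succ n ih => exact ih.trans (Rn_le_succ R E n)

theorem Rn_mono (R : Subring Ω) (E : ℕ → Ω) {n m : ℕ} (h : n ≤ m) : Rn R E n ≤ Rn R E m := by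
  induction m with
  | zero =>
    obtain rfl : n = 0 := by omega
    exact le_rfl
  | succ m ih =>
    rcases Nat.lt_or_ge n (m+1) with h1 | h1
    · exact (ih (by omega)).trans (Rn_le_succ R E m)
    · obtain rfl : n = m + 1 := by omega
      exact le_rfl

theorem Rn_good {R : Subring Ω} (hR : GoodR D R) {E : ℕ → Ω} {N : ℕ}
    (hE : ∀ n ≤ N, ∃ b ∈ R, D (E n) = b * E n) : ∀ n ≤ N + 1, GoodR D (Rn R E n) := by
  intro n
  induction n with
  | zero => exact fun _ => hR
  | succ n ih =>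
    intro hn
    have h1 := ih (by omega)
    refine ⟨fun x hx => ?_, fun x hx => Rn_le_succ R E n (h1.const x hx)⟩
    induction hx using Subring.closure_induction with
    | mem y hy =>
      rcases hy with hy | hy
      · exact Rn_le_succ R E n (h1.stable y hy)
      · obtain ⟨b, hb, hDb⟩ := hE n (by omega)
        have hy' : y = E n := hy
        rw [hy', hDb]
        exact mul_mem (R_le_Rn R E (n+1) hb) (E_mem_Rn R E n)
    | zero => rw [map_zero]; exact zero_mem _
    | one => rw [Derivation.map_one_eq_zero]; exact zero_mem _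
    | add x y _ _ hx hy => rw [map_add]; exact add_mem hx hy
    | neg x _ hx => rw [map_neg]; exact neg_mem hx
    | mul x y hxm hym hx hy => rw [D_mul]; exact add_mem (mul_mem hx hym) (mul_mem hxm hy)

/-- **total algebraic theorem** -/
theorem alg_total {R : Subring Ω} (hR : GoodR D R) {z : Ω} (hz : z ∈ R) (hDz : D z = 1)
    {N : ℕ} (hN : 12 ≤ N) {L M : ℕ → Ω} (L0 : ∀ n ≤ N, L n ≠ 0) (M0 : ∀ n ≤ N, M n ≠ 0)
    (ne : ∀ n ≤ N, M n ≠ L n) (Ls : ∀ n < N, L (n+1) = L n + ld D (L n))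
    (Ms : ∀ n < N, M (n+1) = M n + ld D (M n)) (hb : ∀ n ≤ N, ld D (M n / L n) ∈ R)
    (hnot : ∃ n ≤ N, M n / L n ∉ acl R) : M 1 - L 1 = 2 * (M 0 - L 0) := by
  classical
  set E : ℕ → Ω := fun n => M n / L n with hE
  have hE0 : ∀ n ≤ N, E n ≠ 0 := fun n hn => div_ne_zero (M0 n hn) (L0 n hn)
  have hEb : ∀ n ≤ N, ∃ b ∈ R, D (E n) = b * E n := fun n hn =>
    ⟨ld D (M n / L n), hb n hn, ld_eq D (hE0 n hn)⟩
  have hex : ∃ j, ∀ n ≤ N, E n ∈ acl (Rn R E j) :=
    ⟨N + 1, fun n hn => le_acl _ (Rn_mono R E (by omega : n + 1 ≤ N + 1) (E_mem_Rn R E n))⟩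
  set j := Nat.find hex with hj
  have hjspec := Nat.find_spec hex
  have hjmin : ∀ i < j, ¬ ∀ n ≤ N, E n ∈ acl (Rn R E i) := fun i hi => Nat.find_min hex hi
  have hj0 : j ≠ 0 := by
    intro h0
    obtain ⟨n, hn, hnn⟩ := hnot
    apply hnn
    have := hjspec n hn
    rw [← hj, h0] at this
    exact this
  have hjN : j ≤ N + 1 := Nat.find_min' hex
    (fun n hn => le_acl _ (Rn_mono R E (by omega : n + 1 ≤ N + 1) (E_mem_Rn R E n)))
  obtain ⟨i, hi⟩ : ∃ i, j = i + 1 := ⟨j - 1, by omega⟩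
  rw [← hj, hi] at hjspec
  have hiN : i ≤ N := by omega
  have hgood := Rn_good hR hEb i (by omega)
  set R' := Rn R E i with hR'
  have hTnot : E i ∉ acl R' := by
    intro hT
    apply hjmin i (by omega)
    intro n hn
    have h1 := hjspec n hn
    refine acl_mono (R := Rn R E (i+1)) (R' := R') ?_ h1
    intro x hx
    have h2 : Rn R E (i+1) ≤ (acl R').toSubring := by
      apply Subring.closure_le.mpr
      rintro y (hy | hy)
      · exact le_acl _ hy
      · have hy' : y = E i := hy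
        rw [hy']; exact hT
    exact h2 hx
  set S := dext D R' hgood with hS
  have hRR' : ∀ x ∈ R, x ∈ acl R' := fun x hx => le_acl _ (R_le_Rn R E i hx)
  -- T = E i
  have hTT : IsT S (E i) (⟨ld D (E i), hRR' _ (hb i hiN)⟩ : acl R') := by
    refine ⟨ld_eq D (hE0 i hiN), ?_⟩
    intro c hc
    apply hTnot
    rw [← hc]
    exact c.2
  -- each E n algebraic over K(T)
  have halg : ∀ n ≤ N, IsAlgebraic (Kt (acl R') (E i)) (E n) := by
    intro n hn
    have h1 : IsAlgebraic (Rn R E (i+1)) (E n) := hjspec n hn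
    have h2 : ∀ x ∈ Rn R E (i+1), x ∈ Kt (acl R') (E i) := by
      have h3 : Rn R E (i+1) ≤ (Kt (acl R') (E i)).toSubfield.toSubring := by
        apply Subring.closure_le.mpr
        rintro y (hy | hy)
        · exact alg_mem_Kt (t := E i) (⟨y, le_acl _ hy⟩ : acl R')
        · have hy' : y = E i := hy
          rw [hy']; exact t_mem_Kt
      exact fun x hx => h3 hx
    refine isAlg_mono (A := Rn R E (i+1)) (B := Kt (acl R') (E i))
      ({ toFun := fun y => ⟨y.1, h2 y.1 y.2⟩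
         map_one' := rfl
         map_mul' := fun _ _ => rfl
         map_zero' := rfl
         map_add' := fun _ _ => rfl } : Rn R E (i+1) →+* Kt (acl R') (E i)) ?_ ?_ h1
    · intro a b hab
      have h1 : a.1 = b.1 := congrArg (fun y : Kt (acl R') (E i) => y.1) hab
      exact Subtype.ext h1
    · intro a; rfl
  obtain ⟨s, β', hsT, hsE⟩ := roots hTT (N := N) (E := E) (fun n hn =>
    kolchin hTT (hE0 n hn) (b := ⟨ld D (E n), hRR' _ (hb n hn)⟩) rfl (halg n hn)) hE0
  choose! c hc m hm using hsE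
  have hseq : Seq S N L M := ⟨L0, M0, ne, Ls, Ms⟩
  have hed : EData s N L M c m := ⟨hc, fun n hn => by
    rw [← hm n hn]
    have := L0 n hn
    simp only [hE]
    field_simp⟩
  have hmne : ∃ n ≤ N, m n ≠ 0 := by
    refine ⟨i, hiN, fun h => hTnot ?_⟩
    rw [hm i hiN, h, zpow_zero, mul_one]
    exact (c i).2
  refine alg hsT hseq hed hN hmne (z := ⟨z, hRR' z hz⟩) ?_
  exact Subtype.ext hDz

end chain
end Pool.Agent.Hhelper32.Bcf
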