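import Pool.Agent.Hhelper32.Bcf.Omega

set_option autoImplicit false
set_option linter.unusedSectionVars false
set_option linter.unusedVariables false

open Complex

namespace Pool.Agent.Hhelper32.Bcf

/-- the embedding of entire functions -/
noncomputable def jj : Ent →+* Om := algebraMap Ent Om

/-- complex constants -/
noncomputable def cst : ℂ →+* Ent := algebraMap ℂ Ent

theorem cst_apply (c z : ℂ) : (cst c).1 z = c := rfl

theorem jj_inj : Function.Injective jj := Ent_inj

theorem jj_ne {f : Ent} (h : f ≠ 0) : jj f ≠ 0 := fun h0 => h (jj_inj (by rw [h0, map_zero]))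

theorem D_jj (f : Ent) : DOm (jj f) = jj (dEnt f) := DOm_apply f

theorem Om_const' {x : Om} (hx : DOm x = 0) : ∃ c : ℂ, x = jj (cst c) := by
  obtain ⟨c, hc⟩ := Om_const hx
  exact ⟨c, by rw [hc, IsScalarTower.algebraMap_apply ℂ Ent Om]; rfl⟩

theorem dEnt_cst (c : ℂ) : dEnt (cst c) = 0 := dEnt.map_algebraMap c

theorem const_of_dEnt {u : Ent} (h : dEnt u = 0) : ∃ c : ℂ, u = cst c := by
  obtain ⟨c, hc⟩ := Om_const' (x := jj u) (by rw [D_jj, h, map_zero])
  exact ⟨c, jj_inj hc⟩

theorem expE_ne (f : Ent) (z : ℂ) : (expE f).1 z ≠ 0 := Complex.exp_ne_zero _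

theorem expE_ne_zero (f : Ent) : expE f ≠ 0 := by
  intro h
  have := congrFun (congrArg Subtype.val h) 0
  exact expE_ne f 0 this

theorem expE_cst (c : ℂ) : expE (cst c) = cst (Complex.exp c) := rfl

theorem expE_sub (f g : Ent) : expE (f - g) * expE g = expE f := Ent.ext (fun z => by
  change Complex.exp (f.1 z - g.1 z) * Complex.exp (g.1 z) = Complex.exp (f.1 z)
  rw [← Complex.exp_add, sub_add_cancel])

theorem exists_log (H : Ent) (h : ∀ z, H.1 z ≠ 0) : ∃ φ : Ent, H = expE φ := by
  have h1 : Differentiable ℂ (fun z => deriv H.1 z / H.1 z) := (dEnt H).2.div H.2 h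
  obtain ⟨φ, hφ0, hφ⟩ := h1.isExactOn_univ.with_val_at 0 (Complex.log (H.1 0))
  have hφd : Differentiable ℂ φ := fun z => (hφ z (Set.mem_univ z)).differentiableAt
  have h2 : Differentiable ℂ (fun z => H.1 z * Complex.exp (-φ z)) := H.2.mul (hφd.neg.cexp)
  have h3 : ∀ z, deriv (fun z => H.1 z * Complex.exp (-φ z)) z = 0 := by
    intro z
    have h4 : HasDerivAt (fun z => Complex.exp (-φ z)) (Complex.exp (-φ z) * (-(deriv H.1 z / H.1 z))) z :=
      (hφ z (Set.mem_univ z)).neg.cexp
    have h5 := ((H.2 z).hasDerivAt.mul h4).deriv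
    have h6 : deriv (fun z => H.1 z * Complex.exp (-φ z)) z =
        deriv H.1 z * Complex.exp (-φ z) + H.1 z * (Complex.exp (-φ z) * (-(deriv H.1 z / H.1 z))) := h5
    rw [h6]
    have := h z
    field_simp
    ring
  have h4 : ∀ z, H.1 z * Complex.exp (-φ z) = 1 := by
    intro z
    have h5 := is_const_of_deriv_eq_zero h2 h3 z 0
    rw [h5, hφ0, Complex.exp_neg, Complex.exp_log (h 0)]
    exact mul_inv_cancel₀ (h 0)
  refine ⟨⟨φ, hφd⟩, Ent.ext (fun z => ?_)⟩
  change H.1 z = Complex.exp (φ z)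
  have h5 := h4 z
  rw [Complex.exp_neg] at h5
  have h6 := Complex.exp_ne_zero (φ z)
  field_simp at h5
  exact h5

theorem ld_jj_exp (f : Ent) : ld DOm (jj (expE f)) = jj (dEnt f) := by
  unfold ld
  rw [D_jj, dEnt_exp, map_mul, mul_div_assoc, div_self (jj_ne (expE_ne_zero f)), mul_one]

theorem riccati_const {u : Ent} {s : ℂ} (hu : u ≠ 0) (h : dEnt u = cst s * u ^ 2) : dEnt u = 0 := by
  have hu' := jj_ne hu
  have h1 : DOm ((jj u)⁻¹ + jj (cst s * idE)) = 0 := by
    rw [map_add, D_inv DOm hu', D_jj, D_jj, h]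
    have h2 : dEnt (cst s * idE) = cst s := by
      rw [Derivation.leibniz, dEnt_cst, dEnt_id]; simp
    rw [h2, map_mul, map_pow]
    field_simp
    ring
  obtain ⟨k, hk⟩ := Om_const' h1
  have h2 : u * (cst k - cst s * idE) = 1 := by
    apply jj_inj
    rw [map_mul, map_sub, ← hk, map_one]
    field_simp
    ring
  by_cases hs : s = 0
  · rw [h, hs, map_zero, zero_mul]
  · exfalso
    have h3 : u.1 (k / s) * (k - s * (k / s)) = 1 := congrFun (congrArg Subtype.val h2) (k / s)
    have h4 : k - s * (k / s) = 0 := by field_simp; ring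
    rw [h4, mul_zero] at h3
    exact zero_ne_one h3

/-- the data -/
structure Dat (F G h : ℕ → Ent) : Prop where
  hF : ∀ n, dEnt (F n) = F (n+1)
  hG : ∀ n, dEnt (G n) = G (n+1)
  hFG : ∀ n ≤ 20, F n = expE (h n) * G n
  hG0 : ∀ n ≤ 20, G n ≠ 0

section
variable {F G h : ℕ → Ent}

theorem caseA (hd : Dat F G h) : ∀ n ≤ 20, dEnt (h n) = 0 → ∃ c : ℂ, F 0 = cst c * G 0 := by
  intro n
  induction n with
  | zero =>
    intro _ h0
    obtain ⟨c, hc⟩ := const_of_dEnt h0
    exact ⟨Complex.exp c, by rw [hd.hFG 0 (by omega), hc, expE_cst]⟩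
  | succ n ih =>
    intro hn h0
    apply ih (by omega)
    obtain ⟨c₀, hc₀⟩ := const_of_dEnt h0
    set c := Complex.exp c₀ with hc
    have hc0 : c ≠ 0 := Complex.exp_ne_zero _
    have h1 : F (n+1) = cst c * G (n+1) := by rw [hd.hFG (n+1) hn, hc₀, expE_cst]
    have h2 : dEnt (F n - cst c * G n) = 0 := by
      rw [map_sub, Derivation.leibniz, dEnt_cst, hd.hF, hd.hG, h1]; simp
    obtain ⟨p, hp⟩ := const_of_dEnt h2
    have h3 : (expE (h n) - cst c) * G n = cst p := by
      rw [← hp, hd.hFG n (by omega)]; ring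
    by_cases hp0 : p = 0
    · rw [hp0, map_zero] at h3
      have h4 := (mul_eq_zero.mp h3).resolve_right (hd.hG0 n (by omega))
      have h5 : dEnt (expE (h n)) = 0 := by rw [sub_eq_zero.mp h4, dEnt_cst]
      rw [dEnt_exp] at h5
      exact (mul_eq_zero.mp h5).resolve_right (expE_ne_zero _)
    · have h4 : ∀ z, (expE (h n) - cst c).1 z ≠ 0 := by
        intro z hz
        have h5 : (expE (h n) - cst c).1 z * (G n).1 z = p := congrFun (congrArg Subtype.val h3) z
        rw [hz, zero_mul] at h5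
        exact hp0 h5.symm
      obtain ⟨k, hk⟩ := exists_log _ h4
      set x := jj (expE (h n)) with hx
      set y := jj (expE k) with hy
      have hxy : x - y = jj (cst c) := by
        rw [hx, hy, ← hk, ← map_sub]; congr 1; ring
      set a := jj (dEnt (h n)) with ha
      set κ := jj (dEnt k) with hκ
      have hDx : DOm x = a * x := by rw [hx, D_jj, dEnt_exp, map_mul]
      have hDy : DOm y = κ * y := by rw [hy, D_jj, dEnt_exp, map_mul]
      have h5 : a * x = κ * y := by
        have : DOm (x - y) = 0 := by rw [hxy, D_jj, dEnt_cst, map_zero]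
        rw [map_sub, hDx, hDy] at this
        exact sub_eq_zero.mp this
      have h6 : (a - κ) * x = - κ * jj (cst c) := by rw [← hxy]; linear_combination h5
      have hjc : jj (cst c) ≠ 0 := jj_ne (by
        intro h; exact hc0 (congrFun (congrArg Subtype.val h) 0))
      by_cases hak : a - κ = 0
      · rw [hak, zero_mul] at h6
        have h7 : κ = 0 := by
          have := (mul_eq_zero.mp h6.symm).resolve_right hjc
          exact neg_eq_zero.mp this
        have h8 : a = 0 := by rw [sub_eq_zero.mp hak, h7]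
        exact jj_inj (by rw [map_zero]; exact h8)
      · set φ : Fin 2 → Ent := ![h n, k] with hφ
        have ha' : a ∈ acl (Rphi φ) := le_acl _ (dphi_mem φ 0)
        have hκ' : κ ∈ acl (Rphi φ) := le_acl _ (dphi_mem φ 1)
        have hc' : jj (cst c) ∈ acl (Rphi φ) := le_acl _ (mem_Rphi (GB.const Aphi_ge c))
        have hx' : x ∈ acl (Rphi φ) := by
          have : x = - κ * jj (cst c) / (a - κ) := by field_simp; linear_combination h6
          rw [this]
          exact div_mem (mul_mem (neg_mem hκ') hc') (sub_mem ha' hκ')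
        have hy' : y ∈ acl (Rphi φ) := by
          have : y = x - jj (cst c) := by rw [← hxy]; ring
          rw [this]
          exact sub_mem hx' hc'
        have := F1 φ (fun i => by
          fin_cases i
          · exact hx'
          · exact hy') 0
        exact this

/-- the sequences -/
noncomputable def LL (G : ℕ → Ent) (n : ℕ) : Om := jj (G (n+1)) / jj (G n)

theorem LL_eq (hG : ∀ n, dEnt (G n) = G (n+1)) (n : ℕ) : LL G n = ld DOm (jj (G n)) := by
  unfold LL ld
  rw [D_jj, hG]

theorem F_ne (hd : Dat F G h) : ∀ n ≤ 20, F n ≠ 0 := fun n hn => by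
  rw [hd.hFG n hn]; exact mul_ne_zero (expE_ne_zero _) (hd.hG0 n hn)

theorem LL_step {G : ℕ → Ent} (hG : ∀ n, dEnt (G n) = G (n+1)) {n : ℕ} (h0 : G n ≠ 0)
    (h1 : G (n+1) ≠ 0) : LL G (n+1) = LL G n + ld DOm (LL G n) := by
  have h2 : ld DOm (LL G n) = LL G (n+1) - LL G n := by
    conv_lhs => unfold LL
    rw [ld_div DOm (jj_ne h1) (jj_ne h0), ← LL_eq hG, ← LL_eq hG]
  rw [h2]; ring

theorem diff_eq (hd : Dat F G h) {n : ℕ} (hn : n ≤ 20) : LL F n - LL G n = jj (dEnt (h n)) := by
  rw [LL_eq hd.hF, LL_eq hd.hG, hd.hFG n hn, map_mul,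
    ld_mul DOm (jj_ne (expE_ne_zero _)) (jj_ne (hd.hG0 n hn)), ld_jj_exp]
  ring

theorem quot_eq (hd : Dat F G h) {n : ℕ} (hn : n + 1 ≤ 20) :
    LL F n / LL G n = jj (expE (h (n+1) - h n)) := by
  have h1 := jj_ne (hd.hG0 n (by omega))
  have h2 := jj_ne (hd.hG0 (n+1) hn)
  have h3 := jj_ne (expE_ne_zero (h n))
  unfold LL
  rw [hd.hFG n (by omega), hd.hFG (n+1) hn, ← expE_sub (h (n+1)) (h n)]
  simp only [map_mul]
  field_simp

theorem window (hd : Dat F G h) (hne : ∀ n ≤ 20, dEnt (h n) ≠ 0) {k : ℕ} (hk : k ≤ 1) :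
    (∀ n ≤ 18, dEnt (h (n+k+1) - h (n+k)) = 0) ∨ dEnt (h (k+1)) = 2 * dEnt (h k) := by
  set φ : Fin 19 → Ent := fun i => h (i.1+k+1) - h (i.1+k) with hφ
  by_cases hall : ∀ n ≤ 18, jj (expE (h (n+k+1) - h (n+k))) ∈ acl (Rphi φ)
  · left
    have := F1 φ (fun i => hall i.1 (by have := i.2; omega))
    intro n hn
    exact this ⟨n, by omega⟩
  · right
    push Not at hall
    obtain ⟨n₀, hn₀, hnot⟩ := hall
    have hL0 : ∀ n ≤ 19, LL G n ≠ 0 := fun n hn =>
      div_ne_zero (jj_ne (hd.hG0 (n+1) (by omega))) (jj_ne (hd.hG0 n (by omega)))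
    have hM0 : ∀ n ≤ 19, LL F n ≠ 0 := fun n hn =>
      div_ne_zero (jj_ne (F_ne hd (n+1) (by omega))) (jj_ne (F_ne hd n (by omega)))
    have key := alg_total (D := DOm) (Rphi_good φ) (id_mem φ) (by
        have := DOm_apply idE
        rw [dEnt_id, map_one] at this
        exact this) (N := 18) (by norm_num)
      (L := fun n => LL G (n+k)) (M := fun n => LL F (n+k))
      (fun n hn => hL0 (n+k) (by omega)) (fun n hn => hM0 (n+k) (by omega))
      (fun n hn h0 => by
        have h1 := diff_eq hd (n := n+k) (by omega)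
        rw [h0, sub_self] at h1
        exact jj_ne (hne (n+k) (by omega)) h1.symm)
      (fun n hn => by
        have := LL_step hd.hG (n := n+k) (hd.hG0 _ (by omega)) (hd.hG0 _ (by omega))
        rw [show n + 1 + k = n + k + 1 by ring]
        exact this)
      (fun n hn => by
        have := LL_step hd.hF (n := n+k) (F_ne hd _ (by omega)) (F_ne hd _ (by omega))
        rw [show n + 1 + k = n + k + 1 by ring]
        exact this)
      (fun n hn => by
        rw [quot_eq hd (by omega), ld_jj_exp]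
        exact dphi_mem φ ⟨n, by omega⟩)
      ⟨n₀, hn₀, by
        rw [quot_eq hd (by omega)]
        exact hnot⟩
    simp only [zero_add] at key
    rw [diff_eq hd (by omega), diff_eq hd (by omega)] at key
    apply jj_inj
    rw [add_comm k 1, key, map_mul, map_ofNat]

/-- if two consecutive quotients are constant then `h k'` is constant and so on. -/
theorem riccati_window (hd : Dat F G h) (hne : ∀ n ≤ 20, dEnt (h n) ≠ 0) {k : ℕ} (hk : k + 2 ≤ 20)
    (h0 : dEnt (h (k+1) - h k) = 0) (h1 : dEnt (h (k+2) - h (k+1)) = 0) :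
    dEnt (dEnt (h k)) = 0 ∧ ∃ x : ℂ, LL G k = jj (dEnt (h k)) * jj (cst x) := by
  have hx : ∀ n, n + 1 ≤ 20 → dEnt (h (n+1) - h n) = 0 → ∃ x : ℂ,
      LL G n = jj (dEnt (h n)) * jj (cst x) := by
    intro n hn hconst
    obtain ⟨e₀, he₀⟩ := const_of_dEnt hconst
    have h2 := quot_eq hd hn
    rw [he₀, expE_cst] at h2
    have h3 := diff_eq hd (n := n) (by omega)
    have hL : LL G n ≠ 0 :=
      div_ne_zero (jj_ne (hd.hG0 (n+1) (by omega))) (jj_ne (hd.hG0 n (by omega)))
    set e := Complex.exp e₀ with he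
    have h4 : LL F n = jj (cst e) * LL G n := by rw [← h2]; field_simp
    have h5 : LL G n * jj (cst (e - 1)) = jj (dEnt (h n)) := by
      rw [← h3, h4, map_sub, map_sub, map_one, map_one]; ring
    have he1 : e - 1 ≠ 0 := by
      intro h6
      rw [h6, map_zero, map_zero, mul_zero] at h5
      exact jj_ne (hne n (by omega)) h5.symm
    refine ⟨(e - 1)⁻¹, ?_⟩
    rw [← h5, mul_assoc, ← map_mul, ← map_mul, mul_inv_cancel₀ he1, map_one, map_one, mul_one]
  obtain ⟨x, hxk⟩ := hx k (by omega) h0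
  obtain ⟨x', hxk'⟩ := hx (k+1) (by omega) h1
  refine ⟨?_, x, hxk⟩
  have hu : dEnt (h (k+1)) = dEnt (h k) := by
    rw [map_sub] at h0; exact sub_eq_zero.mp h0
  have hu0 := hne k (by omega)
  have hju := jj_ne hu0
  have hL : LL G k ≠ 0 :=
    div_ne_zero (jj_ne (hd.hG0 (k+1) (by omega))) (jj_ne (hd.hG0 k (by omega)))
  have hx0 : jj (cst x) ≠ 0 := by
    intro h; rw [h, mul_zero] at hxk; exact hL hxk
  have hstep := LL_step hd.hG (n := k) (hd.hG0 _ (by omega)) (hd.hG0 _ (by omega))
  have hldc : ld DOm (jj (cst x)) = 0 := by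
    unfold ld; rw [D_jj, dEnt_cst, map_zero, zero_div]
  rw [hxk', hu] at hstep
  have hld : ld DOm (LL G k) = ld DOm (jj (dEnt (h k))) := by
    rw [hxk, ld_mul DOm hju hx0, hldc, add_zero]
  rw [hld, hxk] at hstep
  apply riccati_const (s := x' - x) hu0
  apply jj_inj
  rw [← D_jj, ld_eq DOm hju, map_mul, map_pow, map_sub, map_sub]
  linear_combination (-jj (dEnt (h k))) * hstep

/-- **main theorem for entire functions** -/
theorem main_ent (hd : Dat F G h) :
    (∃ c : ℂ, F 0 = cst c * G 0) ∨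
    (∃ α γ : ℂ, F 1 = cst α * F 0 ∧ G 1 = cst γ * G 0) ∨
    (∃ b C C' : ℂ, ∃ ψ : Ent, dEnt ψ = cst b ∧ F 0 = cst C' * (expE ψ - 1) ∧
      G 0 * expE ψ = cst C * (expE ψ - 1)) := by
  by_cases hA : ∃ n ≤ 20, dEnt (h n) = 0
  · obtain ⟨n, hn, h0⟩ := hA
    exact Or.inl (caseA hd n hn h0)
  push Not at hA
  right
  rcases window hd hA (k := 0) (by norm_num) with hall | h10
  · -- all constant: E1
    left
    have e0 : dEnt (h (0+1) - h 0) = 0 := hall 0 (by norm_num)
    have e1 : dEnt (h (0+2) - h (0+1)) = 0 := hall 1 (by norm_num)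
    obtain ⟨hu, x, hx⟩ := riccati_window hd hA (k := 0) (by norm_num) e0 e1
    obtain ⟨a, ha⟩ := const_of_dEnt hu
    have hG1 : G 1 = cst (a * x) * G 0 := by
      apply jj_inj
      have h1 := jj_ne (hd.hG0 0 (by norm_num))
      have h2 : jj (G 1) = LL G 0 * jj (G 0) := by unfold LL; field_simp
      rw [h2, hx, ha, map_mul, map_mul, map_mul]
    have hF1 : F 1 = cst (a * x + a) * F 0 := by
      apply jj_inj
      have h1 := jj_ne (F_ne hd 0 (by norm_num))
      have h2 : jj (F 1) = LL F 0 * jj (F 0) := by unfold LL; field_simp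
      have h3 := diff_eq hd (n := 0) (by norm_num)
      have h4 : LL F 0 = jj (cst (a * x + a)) := by
        have : LL F 0 = LL G 0 + jj (dEnt (h 0)) := by rw [← h3]; ring
        rw [this, hx, ha, map_add, map_add, map_mul, map_mul]
      rw [h2, h4, map_mul]
    exact ⟨_, _, hF1, hG1⟩
  · right
    simp only [zero_add] at h10
    set u := dEnt (h 0) with hu
    have hu0 : u ≠ 0 := hA 0 (by norm_num)
    have hju := jj_ne hu0
    set ψ := h 1 - h 0 with hψ
    have hdψ : dEnt ψ = u := by rw [hψ, map_sub, h10, ← hu]; ring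
    set E := jj (expE ψ) with hE
    have hE0 : E ≠ 0 := jj_ne (expE_ne_zero ψ)
    have hDE : DOm E = jj u * E := by rw [hE, D_jj, dEnt_exp, hdψ, map_mul]
    have hq : LL F 0 / LL G 0 = E := quot_eq hd (n := 0) (by norm_num)
    have hdiff : LL F 0 - LL G 0 = jj u := diff_eq hd (by norm_num)
    have hL : LL G 0 ≠ 0 :=
      div_ne_zero (jj_ne (hd.hG0 1 (by omega))) (jj_ne (hd.hG0 0 (by omega)))
    have hF : LL F 0 = E * LL G 0 := by rw [← hq]; field_simp
    have hL1 : LL G 0 * (E - 1) = jj u := by rw [← hdiff, hF]; ring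
    have hE1 : E - 1 ≠ 0 := by
      intro h; rw [h, mul_zero] at hL1; exact hju hL1.symm
    have hLG : LL G 0 = jj u / (E - 1) := by field_simp; exact hL1
    have hldE1 : ld DOm (E - 1) = jj u * E / (E - 1) := by
      unfold ld
      rw [map_sub, hDE]
      have : DOm (1 : Om) = 0 := by
        have := D_jj 1
        rw [map_one] at this
        rw [this]
        have h2 : dEnt 1 = 0 := dEnt.map_one_eq_zero
        rw [h2, map_zero]
      rw [this, sub_zero]
    have hldE : ld DOm E = jj u := by unfold ld; rw [hDE]; field_simp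
    -- G 0
    have hG0 : ∃ C : ℂ, G 0 * expE ψ = cst C * (expE ψ - 1) := by
      have h1 := jj_ne (hd.hG0 0 (by norm_num))
      have hne : jj (G 0) * E / (E - 1) ≠ 0 := div_ne_zero (mul_ne_zero h1 hE0) hE1
      have h2 : ld DOm (jj (G 0) * E / (E - 1)) = 0 := by
        rw [ld_div DOm (mul_ne_zero h1 hE0) hE1, ld_mul DOm h1 hE0, ← LL_eq hd.hG, hLG, hldE, hldE1]
        field_simp
        ring
      obtain ⟨C, hC⟩ := Om_const' (x := jj (G 0) * E / (E - 1)) (by rw [ld_eq DOm hne, h2, zero_mul])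
      refine ⟨C, jj_inj ?_⟩
      rw [map_mul, map_mul, map_sub, map_one, ← hC, ← hE]
      field_simp
    have hF0 : ∃ C' : ℂ, F 0 = cst C' * (expE ψ - 1) := by
      have h1 := jj_ne (F_ne hd 0 (by norm_num))
      have hne : jj (F 0) / (E - 1) ≠ 0 := div_ne_zero h1 hE1
      have h2 : ld DOm (jj (F 0) / (E - 1)) = 0 := by
        rw [ld_div DOm h1 hE1, ← LL_eq hd.hF, hF, hLG, hldE1]
        field_simp
        ring
      obtain ⟨C, hC⟩ := Om_const' (x := jj (F 0) / (E - 1)) (by rw [ld_eq DOm hne, h2, zero_mul])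
      refine ⟨C, jj_inj ?_⟩
      rw [map_mul, map_sub, map_one, ← hC, ← hE]
      field_simp
    obtain ⟨C, hC⟩ := hG0
    obtain ⟨C', hC'⟩ := hF0
    rcases window hd hA (k := 1) le_rfl with hall | h21
    · have e0 : dEnt (h (1+1) - h 1) = 0 := hall 0 (by norm_num)
      have e1 : dEnt (h (1+2) - h (1+1)) = 0 := hall 1 (by norm_num)
      obtain ⟨hu1, _⟩ := riccati_window hd hA (k := 1) (by norm_num) e0 e1
      have h2 : dEnt u = 0 := by
        rw [h10] at hu1
        have h3 : dEnt (2 * u) = 2 * dEnt u := by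
          have : (2 : Ent) * u = u + u := by ring
          rw [this, map_add]; ring
        rw [h3] at hu1
        exact (mul_eq_zero.mp hu1).resolve_left (by
          intro h; have := congrFun (congrArg Subtype.val h) 0
          exact two_ne_zero this)
      obtain ⟨b, hb⟩ := const_of_dEnt h2
      exact ⟨b, C, C', ψ, by rw [hdψ, hb], hC', hC⟩
    · exfalso
      -- E_1 = γ E_0^2
      norm_num at h21
      have hdψ1 : dEnt (h 2 - h 1) = 2 * u := by rw [map_sub, h21, h10]; ring
      set E1 := jj (expE (h 2 - h 1)) with hE1d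
      have hE10 : E1 ≠ 0 := jj_ne (expE_ne_zero _)
      have hldE1' : ld DOm E1 = 2 * jj u := by rw [hE1d, ld_jj_exp, hdψ1, map_mul, map_ofNat]
      have hne : E1 / E ^ 2 ≠ 0 := div_ne_zero hE10 (pow_ne_zero _ hE0)
      obtain ⟨γ, hγ⟩ := Om_const' (x := E1 / E ^ 2) (by
        rw [ld_eq DOm hne, ld_div DOm hE10 (pow_ne_zero _ hE0), ld_pow DOm hE0, hldE, hldE1']
        push_cast
        ring)
      have hγ0 : jj (cst γ) ≠ 0 := by rw [← hγ]; exact hne
      -- L 1
      have hstep := LL_step hd.hG (n := 0) (hd.hG0 _ (by norm_num)) (hd.hG0 _ (by norm_num))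
      have hldL : ld DOm (LL G 0) = ld DOm (jj u) - jj u * E / (E - 1) := by
        rw [hLG, ld_div DOm hju hE1, hldE1]
      have hL1' : LL G 1 = ld DOm (jj u) - jj u := by
        rw [zero_add] at hstep
        rw [hstep, hldL, hLG]
        field_simp
        ring
      have hF1' : LL F 1 = LL G 1 + 2 * jj u := by
        have := diff_eq hd (n := 1) (by norm_num)
        rw [h10, map_mul, map_ofNat] at this
        rw [← this]; ring
      have hq1 : LL F 1 / LL G 1 = E1 := quot_eq hd (n := 1) (by norm_num)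
      set φ : Fin 1 → Ent := ![ψ] with hφ
      have hu' : jj u ∈ acl (Rphi φ) := by
        have := le_acl _ (dphi_mem φ 0)
        have h2 : dEnt (φ 0) = u := hdψ
        rw [h2] at this
        exact this
      have hdu' : ld DOm (jj u) ∈ acl (Rphi φ) := by
        unfold ld
        exact div_mem (acl_D DOm (Rphi_good φ).stable _ hu') hu'
      have hLm : LL G 1 ∈ acl (Rphi φ) := by rw [hL1']; exact sub_mem hdu' hu'
      have h2m : (2 : Om) ∈ acl (Rphi φ) := by exact_mod_cast natCast_mem (acl (Rphi φ)) 2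
      have hFm : LL F 1 ∈ acl (Rphi φ) := by rw [hF1']; exact add_mem hLm (mul_mem h2m hu')
      have hE1m : E1 ∈ acl (Rphi φ) := by rw [← hq1]; exact div_mem hFm hLm
      have hγm : jj (cst γ) ∈ acl (Rphi φ) := le_acl _ (mem_Rphi (GB.const Aphi_ge γ))
      have hE2m : E ^ 2 ∈ acl (Rphi φ) := by
        have : E ^ 2 = E1 / jj (cst γ) := by
          rw [← hγ]; field_simp
        rw [this]; exact div_mem hE1m hγm
      have hEm : E ∈ acl (Rphi φ) := by
        apply alg_acl
        refine ⟨Polynomial.X ^ 2 - Polynomial.C ⟨E ^ 2, hE2m⟩,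
          Polynomial.X_pow_sub_C_ne_zero (by norm_num) _, ?_⟩
        rw [map_sub, map_pow, Polynomial.aeval_X, Polynomial.aeval_C]
        exact sub_self _
      have := F1 φ (fun i => by fin_cases i; exact hEm) 0
      have h2 : dEnt (φ 0) = u := hdψ
      rw [h2] at this
      exact hu0 this

end

end Pool.Agent.Hhelper32.Bcf
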