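import Mathlib

set_option autoImplicit false

open Complex Metric Set MeromorphicOn

namespace Pool.Agent.Hhelper32.Bcf

/-- the growth scale -/
noncomputable def Yf (A : ℝ → ℝ) (r ρ : ℝ) : ℝ := ρ * (ρ / (ρ - r)) * A ρ

/-- entire functions whose growth is polynomially bounded in the scale `Yf A`. -/
def GB (A : ℝ → ℝ) (P : ℂ → ℂ) : Prop :=
  Differentiable ℂ P ∧ ∃ C : ℝ, ∃ n : ℕ, 0 ≤ C ∧
    ∀ r ρ : ℝ, 1 ≤ r → r < ρ → ∀ z : ℂ, ‖z‖ ≤ r → ‖P z‖ ≤ C * (Yf A r ρ) ^ n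

section
variable {A : ℝ → ℝ}

theorem ratio_ge {r ρ : ℝ} (hr : 1 ≤ r) (hρ : r < ρ) : 1 ≤ ρ / (ρ - r) := by
  rw [le_div_iff₀ (by linarith)]; linarith

theorem Yf_ge (hA : ∀ ρ, 1 ≤ A ρ) {r ρ : ℝ} (hr : 1 ≤ r) (hρ : r < ρ) :
    ρ ≤ Yf A r ρ ∧ ρ / (ρ - r) ≤ Yf A r ρ ∧ (ρ / (ρ - r)) * A ρ ≤ Yf A r ρ ∧ 1 ≤ Yf A r ρ := by
  have h1 := ratio_ge hr hρ
  have h2 := hA ρ
  have h3 : 1 ≤ ρ := by linarith
  unfold Yf
  have h4 : 1 ≤ (ρ / (ρ - r)) * A ρ := one_le_mul_of_one_le_of_one_le h1 h2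
  have h5 : 1 ≤ ρ * (ρ / (ρ - r)) := one_le_mul_of_one_le_of_one_le h3 h1
  refine ⟨?_, ?_, ?_, ?_⟩
  · nlinarith
  · nlinarith [mul_nonneg (by linarith : (0:ℝ) ≤ ρ / (ρ - r)) (by linarith : (0:ℝ) ≤ A ρ)]
  · nlinarith
  · nlinarith

theorem GB.const (_hA : ∀ ρ, 1 ≤ A ρ) (c : ℂ) : GB A (fun _ => c) :=
  ⟨differentiable_const c, ‖c‖, 0, norm_nonneg _, fun r ρ _ _ z _ => by simp⟩

theorem GB.id (hA : ∀ ρ, 1 ≤ A ρ) : GB A (fun z => z) :=
  ⟨differentiable_id, 1, 1, zero_le_one, fun r ρ hr hρ z hz => by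
    have := (Yf_ge hA hr hρ).1
    simp only [pow_one, one_mul]; linarith⟩

theorem GB.add (hA : ∀ ρ, 1 ≤ A ρ) {P Q : ℂ → ℂ} (hP : GB A P) (hQ : GB A Q) :
    GB A (fun z => P z + Q z) := by
  obtain ⟨hPd, C, n, hC, hPb⟩ := hP
  obtain ⟨hQd, C', n', hC', hQb⟩ := hQ
  refine ⟨hPd.add hQd, C + C', n + n', by linarith, fun r ρ hr hρ z hz => ?_⟩
  have hY := (Yf_ge hA hr hρ).2.2.2
  have h1 := hPb r ρ hr hρ z hz
  have h2 := hQb r ρ hr hρ z hz
  have h3 : (Yf A r ρ) ^ n ≤ (Yf A r ρ) ^ (n + n') := pow_le_pow_right₀ hY (by omega)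
  have h4 : (Yf A r ρ) ^ n' ≤ (Yf A r ρ) ^ (n + n') := pow_le_pow_right₀ hY (by omega)
  calc ‖P z + Q z‖ ≤ ‖P z‖ + ‖Q z‖ := norm_add_le _ _
    _ ≤ C * (Yf A r ρ) ^ (n + n') + C' * (Yf A r ρ) ^ (n + n') := by
        gcongr
        · exact h1.trans (mul_le_mul_of_nonneg_left h3 hC)
        · exact h2.trans (mul_le_mul_of_nonneg_left h4 hC')
    _ = _ := by ring

theorem GB.mul (hA : ∀ ρ, 1 ≤ A ρ) {P Q : ℂ → ℂ} (hP : GB A P) (hQ : GB A Q) :
    GB A (fun z => P z * Q z) := by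
  obtain ⟨hPd, C, n, hC, hPb⟩ := hP
  obtain ⟨hQd, C', n', hC', hQb⟩ := hQ
  refine ⟨hPd.mul hQd, C * C', n + n', by positivity, fun r ρ hr hρ z hz => ?_⟩
  have hY := (Yf_ge hA hr hρ).2.2.2
  have h1 := hPb r ρ hr hρ z hz
  have h2 := hQb r ρ hr hρ z hz
  calc ‖P z * Q z‖ = ‖P z‖ * ‖Q z‖ := norm_mul _ _
    _ ≤ (C * (Yf A r ρ) ^ n) * (C' * (Yf A r ρ) ^ n') := by
        gcongr
    _ = _ := by ring

theorem Yf_half {r ρ : ℝ} (hρ : r < ρ) : Yf A ((r + ρ) / 2) ρ = 2 * Yf A r ρ := by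
  unfold Yf
  have : ρ - (r + ρ) / 2 = (ρ - r) / 2 := by ring
  rw [this]
  have h : ρ - r ≠ 0 := by linarith
  field_simp

theorem GB.deriv (hA : ∀ ρ, 1 ≤ A ρ) {P : ℂ → ℂ} (hP : GB A P) : GB A (deriv P) := by
  obtain ⟨hPd, C, n, hC, hPb⟩ := hP
  refine ⟨hPd.contDiff.differentiable_deriv_two, C * 2 ^ (n + 1), n + 1, by positivity,
    fun r ρ hr hρ z hz => ?_⟩
  have hY := (Yf_ge hA hr hρ)
  have h1 : ‖_root_.deriv P z‖ ≤ (C * (Yf A ((r + ρ) / 2) ρ) ^ n) / ((ρ - r) / 2) := by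
    apply Complex.norm_deriv_le_of_forall_mem_sphere_norm_le (by linarith) hPd.diffContOnCl
    intro w hw
    apply hPb _ _ (by linarith) (by linarith)
    have : ‖w - z‖ = (ρ - r) / 2 := by simpa [dist_eq_norm] using hw
    calc ‖w‖ = ‖(w - z) + z‖ := by ring_nf
      _ ≤ ‖w - z‖ + ‖z‖ := norm_add_le _ _
      _ ≤ _ := by rw [this]; linarith
  refine h1.trans ?_
  rw [Yf_half hρ]
  have h2 : 1 / ((ρ - r) / 2) ≤ 2 * Yf A r ρ := by
    calc 1 / ((ρ - r) / 2) = 2 * (1 / (ρ - r)) := by field_simp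
      _ ≤ 2 * (ρ / (ρ - r)) := by
          gcongr
          linarith
      _ ≤ _ := by linarith [hY.2.1]
  calc (C * (2 * Yf A r ρ) ^ n) / ((ρ - r) / 2) = (C * (2 * Yf A r ρ) ^ n) * (1 / ((ρ - r) / 2)) := by
        ring
    _ ≤ (C * (2 * Yf A r ρ) ^ n) * (2 * Yf A r ρ) := by
        gcongr
        have := hY.2.2.2
        positivity
    _ = _ := by ring

theorem GB.of_re (hA : ∀ ρ, 1 ≤ A ρ) {φ : ℂ → ℂ} (hφ : Differentiable ℂ φ)
    (hb : ∀ ρ z, ‖z‖ ≤ ρ → (φ z).re ≤ A ρ) : GB A φ := by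
  refine ⟨hφ, 2 + 2 * ‖φ 0‖, 1, by positivity, fun r ρ hr hρ z hz => ?_⟩
  have hY := (Yf_ge hA hr hρ)
  have h0 : (0:ℝ) < ρ := by linarith
  have hA' := hA ρ
  have hzρ : z ∈ ball (0:ℂ) ρ := by simpa using lt_of_le_of_lt hz hρ
  have h1 := Complex.borelCaratheodory (f := φ) (M := A ρ) (R := ρ) (z := z)
    (by linarith) hφ.differentiableOn
    (fun w hw => by
      simp only [Set.mem_ofPred_eq]
      exact hb ρ w (by simpa using (le_of_lt (mem_ball_zero_iff.mp hw)))) h0 hzρ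
  have hd : 0 < ρ - ‖z‖ := by linarith
  have hd2 : 0 < ρ - r := by linarith
  have h2 : 2 * A ρ * ‖z‖ / (ρ - ‖z‖) ≤ 2 * ((ρ / (ρ - r)) * A ρ) := by
    calc 2 * A ρ * ‖z‖ / (ρ - ‖z‖) ≤ 2 * A ρ * ρ / (ρ - r) := by
          gcongr
          linarith
      _ = _ := by ring
  have h3 : ‖φ 0‖ * (ρ + ‖z‖) / (ρ - ‖z‖) ≤ 2 * ‖φ 0‖ * (ρ / (ρ - r)) := by
    calc ‖φ 0‖ * (ρ + ‖z‖) / (ρ - ‖z‖) ≤ ‖φ 0‖ * (ρ + ρ) / (ρ - r) := by
          gcongr
          linarith
      _ = _ := by ring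
  have h4 : 2 * ‖φ 0‖ * (ρ / (ρ - r)) ≤ 2 * ‖φ 0‖ * Yf A r ρ := by
    gcongr
    exact hY.2.1
  rw [pow_one]
  nlinarith [hY.2.2.1]

end

/-- Jensen lower bound. -/
theorem jensen_lower {P : ℂ → ℂ} (hP : Differentiable ℂ P) {r : ℝ} (hr : 1 ≤ r) :
    Real.log ‖meromorphicTrailingCoeffAt P 0‖ ≤ Real.circleAverage (fun z => Real.log ‖P z‖) 0 r := by
  have hr0 : (0:ℝ) < r := by linarith
  have hA : AnalyticOnNhd ℂ P (closedBall 0 |r|) := fun z _ => hP.analyticAt z
  rw [MeromorphicOn.circleAverage_log_norm hr0.ne' hA.meromorphicOn]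
  have h1 : 0 ≤ ∑ᶠ u, (MeromorphicOn.divisor P (closedBall 0 |r|) u : ℝ) * Real.log (r * ‖(0:ℂ) - u‖⁻¹) := by
    apply finsum_nonneg
    intro u
    by_cases hu : u ∈ closedBall (0:ℂ) |r|
    · apply mul_nonneg
      · exact_mod_cast hA.divisor_nonneg u
      · by_cases hu0 : u = 0
        · simp [hu0]
        · apply Real.log_nonneg
          have h2 : 0 < ‖u‖ := norm_pos_iff.mpr hu0
          have h3 : ‖u‖ ≤ r := by simpa [abs_of_pos hr0] using hu
          rw [zero_sub, norm_neg, ← div_eq_mul_inv, le_div_iff₀ h2]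
          linarith
    · rw [Function.locallyFinsuppWithin.apply_eq_zero_of_notMem _ hu]
      simp
  have h2 : 0 ≤ (MeromorphicOn.divisor P (closedBall 0 |r|) 0 : ℝ) * Real.log r := by
    apply mul_nonneg
    · exact_mod_cast hA.divisor_nonneg 0
    · exact Real.log_nonneg hr
  linarith

/-- The set of zeros of a nonzero entire function is codiscretely avoidable on circles. -/
theorem codiscrete_ne {P : ℂ → ℂ} (hP : Differentiable ℂ P) (hne : ∃ z, P z ≠ 0) (r : ℝ) :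
    ∀ᶠ z in Filter.codiscreteWithin (sphere (0:ℂ) |r|), P z ≠ 0 := by
  have h1 : AnalyticOnNhd ℂ P univ := fun z _ => hP.analyticAt z
  have h2 := h1.eqOn_zero_or_eventually_ne_zero_of_preconnected isPreconnected_univ
  rcases h2 with h2 | h2
  · obtain ⟨z, hz⟩ := hne
    exact absurd (h2 (mem_univ z)) hz
  · exact Filter.codiscreteWithin_mono (subset_univ _) h2

theorem T_le {A : ℝ → ℝ} (hA : ∀ ρ, 1 ≤ A ρ) {φ : ℂ → ℂ} (hφ : Differentiable ℂ φ)
    (d : ℕ) (P : ℕ → ℂ → ℂ) (hP : ∀ j, j ≤ d → GB A (P j)) (hPd : ∃ z, P d z ≠ 0)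
    (hrel : ∀ z, ∑ j ∈ Finset.range (d + 1), P j z * Complex.exp (φ z) ^ j = 0) :
    ∃ C : ℝ, ∃ n : ℕ, 0 ≤ C ∧ ∀ r ρ : ℝ, 1 ≤ r → r < ρ →
      Real.circleAverage (fun z => max (φ z).re 0) 0 r ≤ C + n * Real.log (Yf A r ρ) := by
  -- common bound
  have hbd : ∃ C : ℝ, ∃ n : ℕ, 1 ≤ C ∧ ∀ r ρ : ℝ, 1 ≤ r → r < ρ → ∀ z : ℂ, ‖z‖ ≤ r →
      ∑ j ∈ Finset.range (d + 1), ‖P j z‖ ≤ C * (Yf A r ρ) ^ n := by
    have : ∀ k, k ≤ d + 1 → ∃ C : ℝ, ∃ n : ℕ, 1 ≤ C ∧ ∀ r ρ : ℝ, 1 ≤ r → r < ρ → ∀ z : ℂ, ‖z‖ ≤ r →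
      ∑ j ∈ Finset.range k, ‖P j z‖ ≤ C * (Yf A r ρ) ^ n := by
      intro k
      induction k with
      | zero =>
        intro _
        refine ⟨1, 0, le_rfl, fun r ρ _ _ z _ => by simp⟩
      | succ k ih =>
        intro hk
        obtain ⟨C, n, hC, hb⟩ := ih (by omega)
        obtain ⟨_, C', n', hC', hb'⟩ := hP k (by omega)
        refine ⟨C + C', n + n', by linarith, fun r ρ hr hρ z hz => ?_⟩
        have hY := (Yf_ge hA hr hρ).2.2.2
        have h3 : (Yf A r ρ) ^ n ≤ (Yf A r ρ) ^ (n + n') := pow_le_pow_right₀ hY (by omega)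
        have h4 : (Yf A r ρ) ^ n' ≤ (Yf A r ρ) ^ (n + n') := pow_le_pow_right₀ hY (by omega)
        rw [Finset.sum_range_succ]
        have h1 := hb r ρ hr hρ z hz
        have h2 := hb' r ρ hr hρ z hz
        have h5 := mul_le_mul_of_nonneg_left h3 (by linarith : 0 ≤ C)
        have h6 := mul_le_mul_of_nonneg_left h4 hC'
        linarith
    exact this (d + 1) le_rfl
  obtain ⟨C, n, hC, hb⟩ := hbd
  have hPdd : Differentiable ℂ (P d) := (hP d le_rfl).1
  set L := Real.log ‖meromorphicTrailingCoeffAt (P d) 0‖ with hL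
  refine ⟨|Real.log C - L|, n, abs_nonneg _, fun r ρ hr hρ => ?_⟩
  have hY := (Yf_ge hA hr hρ).2.2.2
  set B := C * (Yf A r ρ) ^ n with hB
  have hBpos : 0 < B := by positivity
  have hlogB : Real.log B = Real.log C + n * Real.log (Yf A r ρ) := by
    rw [hB, Real.log_mul (by positivity) (by positivity), Real.log_pow]
  have hr0 : (0:ℝ) < r := by linarith
  -- pointwise
  have hpt : ∀ z : ℂ, ‖z‖ = r → P d z ≠ 0 →
      max (φ z).re 0 ≤ Real.log B - Real.log ‖P d z‖ := by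
    intro z hz hne
    have hpos : 0 < ‖P d z‖ := norm_pos_iff.mpr hne
    have hsum := hb r ρ hr hρ z hz.le
    have hPdB : ‖P d z‖ ≤ B := by
      refine le_trans ?_ hsum
      exact Finset.single_le_sum (f := fun j => ‖P j z‖) (fun j _ => norm_nonneg _)
        (Finset.self_mem_range_succ d)
    have h0 : 0 ≤ Real.log B - Real.log ‖P d z‖ := by
      have := Real.log_le_log hpos hPdB
      linarith
    refine max_le ?_ h0
    by_cases hre : (φ z).re ≤ 0
    · linarith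
    push Not at hre
    set y := Complex.exp (φ z) with hy
    have hyn : ‖y‖ = Real.exp (φ z).re := Complex.norm_exp _
    have hy1 : 1 ≤ ‖y‖ := by rw [hyn]; exact Real.one_le_exp hre.le
    have hrelz := hrel z
    rw [Finset.sum_range_succ] at hrelz
    have hd : d ≠ 0 := by
      rintro rfl
      simp at hrelz
      exact hne hrelz
    obtain ⟨e, rfl⟩ : ∃ e, d = e + 1 := ⟨d - 1, by omega⟩
    have h1 : ‖P (e+1) z‖ * ‖y‖ ^ (e+1) ≤ (∑ j ∈ Finset.range (e+1), ‖P j z‖) * ‖y‖ ^ e := by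
      have h2 : P (e+1) z * y ^ (e+1) = - ∑ j ∈ Finset.range (e+1), P j z * y ^ j := by
        linear_combination hrelz
      calc ‖P (e+1) z‖ * ‖y‖ ^ (e+1) = ‖P (e+1) z * y ^ (e+1)‖ := by rw [norm_mul, norm_pow]
        _ = ‖∑ j ∈ Finset.range (e+1), P j z * y ^ j‖ := by rw [h2, norm_neg]
        _ ≤ ∑ j ∈ Finset.range (e+1), ‖P j z * y ^ j‖ := norm_sum_le _ _
        _ ≤ ∑ j ∈ Finset.range (e+1), ‖P j z‖ * ‖y‖ ^ e := by
            apply Finset.sum_le_sum
            intro j hj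
            rw [norm_mul, norm_pow]
            gcongr
            have := Finset.mem_range.mp hj
            omega
        _ = _ := by rw [Finset.sum_mul]
    have h3 : ‖P (e+1) z‖ * ‖y‖ ≤ B := by
      have h4 : (‖P (e+1) z‖ * ‖y‖) * ‖y‖ ^ e ≤ (∑ j ∈ Finset.range (e+1), ‖P j z‖) * ‖y‖ ^ e := by
        calc (‖P (e+1) z‖ * ‖y‖) * ‖y‖ ^ e = ‖P (e+1) z‖ * ‖y‖ ^ (e+1) := by ring
          _ ≤ _ := h1
      have h5 := le_of_mul_le_mul_right h4 (by positivity)
      refine h5.trans (le_trans ?_ hsum)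
      rw [Finset.sum_range_succ (fun j => ‖P j z‖) (e+1)]
      linarith [norm_nonneg (P (e+1) z)]
    have h6 := Real.log_le_log (by positivity) h3
    rw [Real.log_mul hpos.ne' (by positivity), hyn, Real.log_exp] at h6
    linarith
  -- integrate
  have hint2 : CircleIntegrable (fun z => Real.log B - Real.log ‖P d z‖) 0 r := by
    apply CircleIntegrable.sub (circleIntegrable_const _ _ _)
    apply MeromorphicOn.circleIntegrable_log_norm
    exact fun z _ => (hPdd.analyticAt z).meromorphicAt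
  have hint1 : CircleIntegrable (fun z => max (φ z).re 0) 0 r := by
    apply ContinuousOn.circleIntegrable'
    apply Continuous.continuousOn
    have := hφ.continuous
    fun_prop
  have hcod := codiscrete_ne hPdd hPd r
  have heq : (fun z => max (φ z).re 0) =ᶠ[Filter.codiscreteWithin (sphere (0:ℂ) |r|)]
      (fun z => if P d z = 0 then Real.log B - Real.log ‖P d z‖ else max (φ z).re 0) := by
    filter_upwards [hcod] with z hz
    simp [hz]
  rw [Real.circleAverage_congr_codiscreteWithin heq hr0.ne']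
  have h7 : Real.circleAverage
      (fun z => if P d z = 0 then Real.log B - Real.log ‖P d z‖ else max (φ z).re 0) 0 r ≤
      Real.circleAverage (fun z => Real.log B - Real.log ‖P d z‖) 0 r := by
    apply Real.circleAverage_mono (hint1.congr_codiscreteWithin heq) hint2
    intro z hz
    have hz' : ‖z‖ = r := by simpa [abs_of_pos hr0] using hz
    by_cases h : P d z = 0
    · simp [h]
    · simp only [h, if_false]
      exact hpt z hz' h
  refine h7.trans ?_
  have h8 : Real.circleAverage (fun z => Real.log B - Real.log ‖P d z‖) 0 r =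
      Real.log B - Real.circleAverage (fun z => Real.log ‖P d z‖) 0 r := by
    rw [Real.circleAverage_fun_sub (circleIntegrable_const _ _ _)
      (MeromorphicOn.circleIntegrable_log_norm (fun z _ => (hPdd.analyticAt z).meromorphicAt)),
      Real.circleAverage_const]
  rw [h8, hlogB]
  have h9 := jensen_lower hPdd hr
  have h10 := le_abs_self (Real.log C - L)
  linarith

/-- Poisson upper bound. -/
theorem poisson_upper {φ : ℂ → ℂ} (hφ : Differentiable ℂ φ) {R : ℝ} {w : ℂ} (hw : ‖w‖ < R) :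
    max (φ w).re 0 ≤ (R + ‖w‖) / (R - ‖w‖) * Real.circleAverage (fun z => max (φ z).re 0) 0 R := by
  have hR : 0 < R := lt_of_le_of_lt (norm_nonneg _) hw
  have hint1 : CircleIntegrable (fun z => max (φ z).re 0) 0 R := by
    apply ContinuousOn.circleIntegrable'
    apply Continuous.continuousOn
    have := hφ.continuous
    fun_prop
  have hnn : 0 ≤ Real.circleAverage (fun z => max (φ z).re 0) 0 R :=
    Real.circleAverage_nonneg_of_nonneg (fun z _ => le_max_right _ _)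
  have hd : 0 < R - ‖w‖ := by linarith
  refine max_le ?_ (by positivity)
  have hwb : w ∈ ball (0:ℂ) R := by simpa using hw
  have h1 := (hφ.diffContOnCl (s := ball (0:ℂ) R)).circleAverage_re_herglotzRieszKernel_smul hwb
  have hcont : ContinuousOn (fun z => (herglotzRieszKernel 0 w z).re * (φ z).re) (sphere 0 |R|) := by
    have := continuousOn_herglotzRieszKernel_sphere hwb
    have h2 := hφ.continuous
    exact (Complex.continuous_re.comp_continuousOn this).mul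
      (Complex.continuous_re.comp h2).continuousOn
  have h2 : (φ w).re = Real.circleAverage (fun z => (herglotzRieszKernel 0 w z).re * (φ z).re) 0 R := by
    have h3 : CircleIntegrable ((Complex.re ∘ herglotzRieszKernel 0 w) • φ) 0 R := by
      apply ContinuousOn.circleIntegrable'
      have := continuousOn_herglotzRieszKernel_sphere hwb
      exact (Complex.continuous_re.comp_continuousOn this).smul hφ.continuous.continuousOn
    have h4 := Complex.reCLM.circleAverage_comp_comm h3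
    have h5 : (φ w).re = Complex.reCLM (φ w) := rfl
    rw [h5, ← h1, ← h4]
    congr 1
    ext z
    simp
  rw [h2]
  have h6 : Real.circleAverage (fun z => (herglotzRieszKernel 0 w z).re * (φ z).re) 0 R ≤
      Real.circleAverage (fun z => ((R + ‖w‖) / (R - ‖w‖)) * max (φ z).re 0) 0 R := by
    apply Real.circleAverage_mono hcont.circleIntegrable'
    · exact hint1.const_mul _
    · intro z hz
      have hz' : z ∈ sphere (0:ℂ) R := by simpa [abs_of_pos hR] using hz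
      have h7 := re_herglotzRieszKernel_le hz' hwb
      have h8 := le_re_herglotzRieszKernel hz' hwb
      simp only [sub_zero] at h7 h8
      have h9 : (herglotzRieszKernel 0 w z).re = ((z + w) / (z - w)).re := by
        simp [herglotzRieszKernel_def]
      rw [h9]
      have h10 : 0 ≤ ((z + w) / (z - w)).re := le_trans (by positivity) h8
      calc ((z + w) / (z - w)).re * (φ z).re ≤ ((z + w) / (z - w)).re * max (φ z).re 0 := by
            gcongr
            exact le_max_left _ _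
        _ ≤ _ := by
            gcongr
  refine h6.trans (le_of_eq ?_)
  exact Real.circleAverage_fun_smul (a := (R + ‖w‖) / (R - ‖w‖)) (f := fun z => max (φ z).re 0)

end Pool.Agent.Hhelper32.Bcf
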