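import Pool.Agent.Hhelper32.Bcf.Growth

set_option autoImplicit false

open Complex Metric Set

namespace Pool.Agent.Hhelper32.Bcf

noncomputable def Aphi {ι : Type*} [Fintype ι] (φ : ι → ℂ → ℂ) (ρ : ℝ) : ℝ :=
  1 + sSup ((fun z => ∑ i, max (φ i z).re 0) '' closedBall (0:ℂ) ρ)

section
variable {ι : Type*} [Fintype ι] {φ : ι → ℂ → ℂ}

theorem Aphi_ge (ρ : ℝ) : 1 ≤ Aphi φ ρ := by
  unfold Aphi
  have : 0 ≤ sSup ((fun z => ∑ i, max (φ i z).re 0) '' closedBall (0:ℂ) ρ) := by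
    apply Real.sSup_nonneg
    rintro x ⟨z, _, rfl⟩
    exact Finset.sum_nonneg (fun i _ => le_max_right _ _)
  linarith

theorem Aphi_bdd (hφ : ∀ i, Differentiable ℂ (φ i)) (ρ : ℝ) :
    BddAbove ((fun z => ∑ i, max (φ i z).re 0) '' closedBall (0:ℂ) ρ) := by
  apply IsCompact.bddAbove
  apply (isCompact_closedBall _ _).image
  have := fun i => (hφ i).continuous
  fun_prop

theorem sum_le_Aphi (hφ : ∀ i, Differentiable ℂ (φ i)) {ρ : ℝ} {z : ℂ} (hz : ‖z‖ ≤ ρ) :
    1 + ∑ i, max (φ i z).re 0 ≤ Aphi φ ρ := by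
  unfold Aphi
  have := le_csSup (Aphi_bdd hφ ρ) (mem_image_of_mem (fun z => ∑ i, max (φ i z).re 0)
    (show z ∈ closedBall (0:ℂ) ρ by simpa using hz))
  simpa using this

theorem re_le_Aphi (hφ : ∀ i, Differentiable ℂ (φ i)) (i : ι) (ρ : ℝ) (z : ℂ) (hz : ‖z‖ ≤ ρ) :
    (φ i z).re ≤ Aphi φ ρ := by
  have h1 := sum_le_Aphi hφ hz
  have h2 : max (φ i z).re 0 ≤ ∑ i, max (φ i z).re 0 :=
    Finset.single_le_sum (f := fun i => max (φ i z).re 0) (fun i _ => le_max_right _ _)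
      (Finset.mem_univ i)
  have h3 := le_max_left (φ i z).re 0
  linarith

theorem Aphi_le {ρ B : ℝ} (hρ : 0 ≤ ρ) (h : ∀ z : ℂ, ‖z‖ ≤ ρ → ∑ i, max (φ i z).re 0 ≤ B) :
    Aphi φ ρ ≤ 1 + B := by
  unfold Aphi
  have : sSup ((fun z => ∑ i, max (φ i z).re 0) '' closedBall (0:ℂ) ρ) ≤ B := by
    apply csSup_le
    · exact ⟨_, mem_image_of_mem _ (mem_closedBall_self hρ)⟩
    · rintro x ⟨z, hz, rfl⟩
      exact h z (by simpa using hz)
  linarith

theorem Aphi_mono (hφ : ∀ i, Differentiable ℂ (φ i)) {r ρ : ℝ} (hr : 0 ≤ r) (h : r ≤ ρ) :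
    Aphi φ r ≤ Aphi φ ρ := by
  have := Aphi_le (φ := φ) (ρ := r) (B := Aphi φ ρ - 1) hr (fun z hz => by
    have := sum_le_Aphi hφ (hz.trans h)
    linarith)
  linarith

/-- lower bound of `A` from a nonconstant function. -/
theorem Aphi_lower (hφ : ∀ i, Differentiable ℂ (φ i)) (i : ι) (z₀ : ℂ)
    (hz₀ : deriv (φ i) z₀ ≠ 0) : ∃ C : ℝ, 0 < C ∧ ∀ ρ : ℝ, 0 < ρ → ρ ≤ C * Aphi φ ρ := by
  set δ := ‖deriv (φ i) z₀‖ with hδ
  have hδ0 : 0 < δ := norm_pos_iff.mpr hz₀
  set N := ‖φ i z₀‖ with hN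
  have hN0 : 0 ≤ N := norm_nonneg _
  refine ⟨‖z₀‖ + 4 * (1 + N) / δ, by positivity, fun ρ hρ => ?_⟩
  have hA := Aphi_ge (φ := φ) ρ
  have hq : 0 ≤ 4 * (1 + N) / δ := by positivity
  by_cases hle : ρ ≤ ‖z₀‖
  · nlinarith [norm_nonneg z₀]
  push Not at hle
  set R := ρ - ‖z₀‖ with hR
  have hR0 : 0 < R := by linarith
  set ψ : ℂ → ℂ := fun w => φ i (z₀ + w) - φ i z₀ with hψ
  have hψd : Differentiable ℂ ψ := by
    have := hφ i
    fun_prop
  set M := Aphi φ ρ + N with hM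
  have hM0 : 0 < M := by linarith
  have hre : MapsTo ψ (ball 0 R) {z | z.re ≤ M} := by
    intro w hw
    have hw' : ‖w‖ < R := by simpa using hw
    have h1 : ‖z₀ + w‖ ≤ ρ := (norm_add_le _ _).trans (by linarith)
    have h2 := re_le_Aphi hφ i ρ _ h1
    have h3 : -(φ i z₀).re ≤ N := (neg_le_abs _).trans (Complex.abs_re_le_norm _)
    simp only [hψ, Set.mem_ofPred_eq, Complex.sub_re]
    linarith
  have hbc : ∀ w : ℂ, ‖w‖ = R / 2 → ‖ψ w‖ ≤ 2 * M := by
    intro w hw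
    have hwb : w ∈ ball (0:ℂ) R := by
      simp only [mem_ball, dist_zero_right, hw]; linarith
    have := Complex.borelCaratheodory_zero hM0 hψd.differentiableOn hre hR0 hwb (by simp [hψ])
    rw [hw] at this
    refine this.trans (le_of_eq ?_)
    field_simp
    ring
  have hder : ‖deriv ψ 0‖ ≤ 2 * M / (R / 2) := by
    apply Complex.norm_deriv_le_of_forall_mem_sphere_norm_le (by linarith) hψd.diffContOnCl
    intro w hw
    exact hbc w (by simpa using hw)
  have hd0 : deriv ψ 0 = deriv (φ i) z₀ := by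
    have h1 : HasDerivAt ψ (deriv (φ i) (z₀ + 0)) 0 := by
      have h2 : HasDerivAt (φ i) (deriv (φ i) (z₀ + 0)) (z₀ + 0) := ((hφ i) _).hasDerivAt
      have h3 := (h2.comp_const_add z₀ 0).sub_const (φ i z₀)
      exact h3
    simpa using h1.deriv
  rw [hd0, ← hδ] at hder
  have h4 : δ * R ≤ 4 * M := by
    rw [le_div_iff₀ (by linarith)] at hder
    linarith
  have h5 : 4 * M ≤ 4 * (1 + N) * Aphi φ ρ := by
    rw [hM]; nlinarith
  have h6 : R ≤ 4 * (1 + N) / δ * Aphi φ ρ := by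
    rw [div_mul_eq_mul_div, le_div_iff₀ hδ0]
    linarith
  nlinarith [norm_nonneg z₀]

/-- The real-variable contradiction. -/
theorem no_growth (A : ℝ → ℝ) (hA : ∀ ρ, 1 ≤ A ρ) (hmono : ∀ r ρ, 0 ≤ r → r ≤ ρ → A r ≤ A ρ)
    (C₀ : ℝ) (hC₀ : 0 < C₀) (hlow : ∀ ρ, 0 < ρ → ρ ≤ C₀ * A ρ) (K : ℝ) (hK : 0 ≤ K)
    (hup : ∀ r ρ : ℝ, 1 ≤ r → r < ρ → A r ≤ K * (ρ / (ρ - r)) * (1 + Real.log (Yf A r ρ))) :
    False := by
  -- simplified upper inequality
  obtain ⟨K', hK', hup'⟩ : ∃ K' : ℝ, 1 ≤ K' ∧ ∀ r ρ : ℝ, 1 ≤ r → r < ρ →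
      A r ≤ K' * (ρ / (ρ - r)) ^ 2 * (1 + Real.log (A ρ)) := by
    refine ⟨K * (2 + |Real.log C₀| + 2) + 1, ?_, fun r ρ hr hρ => ?_⟩
    · have : 0 ≤ K * (2 + |Real.log C₀| + 2) := by positivity
      linarith
    have hx := ratio_ge hr hρ
    set x := ρ / (ρ - r) with hxd
    have hρ0 : 0 < ρ := by linarith
    have hAρ := hA ρ
    have hlogA : 0 ≤ Real.log (A ρ) := Real.log_nonneg hAρ
    have h1 : Real.log (Yf A r ρ) = Real.log ρ + Real.log x + Real.log (A ρ) := by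
      unfold Yf
      rw [Real.log_mul (by positivity) (by positivity), Real.log_mul (by positivity) (by positivity)]
    have h2 : Real.log ρ ≤ Real.log C₀ + Real.log (A ρ) := by
      rw [← Real.log_mul (by positivity) (by positivity)]
      exact Real.log_le_log hρ0 (hlow ρ hρ0)
    have h3 : Real.log x ≤ x := by
      have := Real.log_le_sub_one_of_pos (by linarith : 0 < x)
      linarith
    have h4 := le_abs_self (Real.log C₀)
    have h5 : 1 + Real.log (Yf A r ρ) ≤ (2 + |Real.log C₀| + 2) * (x * (1 + Real.log (A ρ))) := by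
      have h6 : 1 ≤ x * (1 + Real.log (A ρ)) := one_le_mul_of_one_le_of_one_le hx (by linarith)
      have h7 : x ≤ x * (1 + Real.log (A ρ)) := le_mul_of_one_le_right (by linarith) (by linarith)
      have h8 : Real.log (A ρ) ≤ x * (1 + Real.log (A ρ)) := by nlinarith
      have h9 : |Real.log C₀| ≤ |Real.log C₀| * (x * (1 + Real.log (A ρ))) :=
        le_mul_of_one_le_right (abs_nonneg _) h6
      rw [h1]
      nlinarith
    calc A r ≤ K * x * (1 + Real.log (Yf A r ρ)) := hup r ρ hr hρ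
      _ ≤ K * x * ((2 + |Real.log C₀| + 2) * (x * (1 + Real.log (A ρ)))) := by
          gcongr
      _ = (K * (2 + |Real.log C₀| + 2)) * x ^ 2 * (1 + Real.log (A ρ)) := by ring
      _ ≤ _ := by
          gcongr
          linarith
  -- choose M
  obtain ⟨M, hM1, hM⟩ : ∃ M : ℝ, 1 ≤ M ∧ 16 * K' * (4 + Real.log M) < M := by
    have h1 : Filter.Tendsto (fun M : ℝ => Real.log M / M) Filter.atTop (nhds 0) := by
      have := Real.isLittleO_log_id_atTop
      exact this.tendsto_div_nhds_zero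
    have h2 : Filter.Tendsto (fun M : ℝ => 4 / M) Filter.atTop (nhds 0) :=
      tendsto_const_nhds.div_atTop Filter.tendsto_id
    have h3 : Filter.Tendsto (fun M : ℝ => 16 * K' * (4 / M + Real.log M / M)) Filter.atTop (nhds 0) := by
      have := (h2.add h1).const_mul (16 * K')
      simpa using this
    have h4 := (h3.eventually (gt_mem_nhds (show (0:ℝ) < 1 by norm_num))).and
      (Filter.eventually_ge_atTop (1:ℝ))
    obtain ⟨M, hM, hM1⟩ := h4.exists
    refine ⟨M, hM1, ?_⟩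
    have hMpos : 0 < M := by linarith
    have h5 : 16 * K' * (4 / M + Real.log M / M) = (16 * K' * (4 + Real.log M)) / M := by
      field_simp
    rw [h5, div_lt_one hMpos] at hM
    exact hM
  -- choose r₀
  set r₀ : ℝ := max 1 (C₀ * M) with hr₀
  have hr₀1 : 1 ≤ r₀ := le_max_left _ _
  have hAr₀ : M ≤ A r₀ := by
    have h1 := hlow r₀ (by linarith)
    have h2 : C₀ * M ≤ r₀ := le_max_right _ _
    have h3 : C₀ * M ≤ C₀ * A r₀ := h2.trans h1
    exact le_of_mul_le_mul_left h3 hC₀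
  set rn : ℕ → ℝ := fun n => r₀ * (2 - (1/2) ^ n) with hrn
  have hpow : ∀ n : ℕ, (0:ℝ) < (1/2) ^ n ∧ ((1:ℝ)/2) ^ n ≤ 1 := fun n =>
    ⟨by positivity, pow_le_one₀ (by norm_num) (by norm_num)⟩
  have hrn1 : ∀ n, 1 ≤ rn n := by
    intro n
    have := hpow n
    simp only [hrn]
    nlinarith
  have hrn2 : ∀ n, rn n ≤ 2 * r₀ := by
    intro n
    have := hpow n
    simp only [hrn]
    nlinarith
  have hrnlt : ∀ n, rn n < rn (n+1) := by
    intro n
    have := hpow n
    simp only [hrn, pow_succ]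
    nlinarith
  have hx : ∀ n, rn (n+1) / (rn (n+1) - rn n) ≤ 2 ^ (n + 2) := by
    intro n
    have h1 := hpow n
    rw [div_le_iff₀ (by linarith [hrnlt n])]
    have h2 : rn (n+1) - rn n = r₀ * ((1/2)^n / 2) := by
      simp only [hrn, pow_succ]; ring
    rw [h2]
    have h3 : (2:ℝ) ^ (n+2) * (r₀ * ((1/2)^n / 2)) = 2 * r₀ * (2 ^ n * (1/2) ^ n) := by ring
    have h4 : (2:ℝ) ^ n * (1/2) ^ n = 1 := by rw [← mul_pow]; norm_num
    rw [h3, h4]
    linarith [hrn2 (n+1)]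
  have hstep : ∀ n : ℕ, M * 8 ^ n ≤ A (rn n) := by
    intro n
    induction n with
    | zero =>
      simp only [pow_zero, mul_one, hrn]
      have : r₀ * (2 - 1) = r₀ := by ring
      rw [this]
      exact hAr₀
    | succ n ih =>
      by_contra hcon
      push Not at hcon
      have h1 := hup' (rn n) (rn (n+1)) (hrn1 n) (hrnlt n)
      have hx0 : 0 ≤ rn (n+1) / (rn (n+1) - rn n) :=
        div_nonneg (by linarith [hrn1 (n+1)]) (by linarith [hrnlt n])
      have h2 : (rn (n+1) / (rn (n+1) - rn n)) ^ 2 ≤ (2 ^ (n+2)) ^ 2 := by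
        gcongr
        exact hx n
      have hA1 := hA (rn (n+1))
      have h3 : Real.log (A (rn (n+1))) ≤ Real.log M + (n + 1) * 3 := by
        have h4 := Real.log_le_log (by linarith) hcon.le
        rw [Real.log_mul (by positivity) (by positivity), Real.log_pow] at h4
        have h5 : Real.log 8 ≤ 3 := by
          have h6 : (8:ℝ) = 2 ^ 3 := by norm_num
          rw [h6, Real.log_pow]
          have := Real.log_two_lt_d9
          push_cast
          nlinarith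
        have h7 : ((n + 1 : ℕ) : ℝ) * Real.log 8 ≤ (n + 1) * 3 := by
          push_cast
          gcongr
        linarith
      have hlogA : 0 ≤ Real.log (A (rn (n+1))) := Real.log_nonneg hA1
      have h8 : A (rn n) ≤ K' * (2 ^ (n+2)) ^ 2 * (1 + (Real.log M + (n + 1) * 3)) := by
        calc A (rn n) ≤ _ := h1
          _ ≤ K' * (2 ^ (n+2)) ^ 2 * (1 + Real.log (A (rn (n+1)))) := by
              gcongr
          _ ≤ _ := by gcongr
      have hlogM : 0 ≤ Real.log M := Real.log_nonneg hM1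
      have h9 : (1 + (Real.log M + (n + 1) * 3)) ≤ 2 ^ n * (4 + Real.log M) := by
        have h10 : (n : ℝ) + 1 ≤ 2 ^ n := by
          have := Nat.lt_two_pow_self (n := n)
          have h11 : n + 1 ≤ 2 ^ n := this
          exact_mod_cast h11
        have h12 : (1:ℝ) ≤ 2 ^ n := one_le_pow₀ (by norm_num)
        nlinarith
      have h10 : M * 8 ^ n ≤ K' * (2 ^ (n+2)) ^ 2 * (2 ^ n * (4 + Real.log M)) := by
        refine (ih.trans h8).trans ?_
        gcongr
      have h11 : K' * (2 ^ (n+2)) ^ 2 * (2 ^ n * (4 + Real.log M)) =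
          (16 * K' * (4 + Real.log M)) * 8 ^ n := by
        have h12 : (8:ℝ) ^ n = 2 ^ n * 2 ^ n * 2 ^ n := by
          rw [← mul_pow, ← mul_pow]; norm_num
        rw [h12]; ring
      rw [h11] at h10
      have h13 := le_of_mul_le_mul_right h10 (by positivity)
      linarith
  -- unbounded contradiction
  have h1 : ∀ n : ℕ, (8:ℝ) ^ n ≤ A (2 * r₀) := by
    intro n
    have h2 := hstep n
    have h3 := hmono (rn n) (2 * r₀) (by linarith [hrn1 n]) (hrn2 n)
    have h4 : (8:ℝ) ^ n ≤ M * 8 ^ n := le_mul_of_one_le_left (by positivity) hM1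
    linarith
  obtain ⟨n, hn⟩ := pow_unbounded_of_one_lt (A (2 * r₀)) (show (1:ℝ) < 8 by norm_num)
  linarith [h1 n]

/-- **Main growth theorem.** -/
theorem main_growth (hφ : ∀ i, Differentiable ℂ (φ i)) (d : ι → ℕ) (P : ι → ℕ → ℂ → ℂ)
    (hP : ∀ i j, j ≤ d i → GB (Aphi φ) (P i j)) (hPd : ∀ i, ∃ z, P i (d i) z ≠ 0)
    (hrel : ∀ i z, ∑ j ∈ Finset.range (d i + 1), P i j z * Complex.exp (φ i z) ^ j = 0) :
    ∀ i z, deriv (φ i) z = 0 := by
  by_contra hcon
  push Not at hcon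
  obtain ⟨i₀, z₀, hz₀⟩ := hcon
  have hA : ∀ ρ, 1 ≤ Aphi φ ρ := Aphi_ge
  obtain ⟨C₀, hC₀, hlow⟩ := Aphi_lower hφ i₀ z₀ hz₀
  choose C n hC hT using fun i => T_le hA (hφ i) (d i) (P i) (hP i) (hPd i) (hrel i)
  apply no_growth (Aphi φ) hA (fun r ρ hr h => Aphi_mono hφ hr h) C₀ hC₀ hlow
    (1 + 4 * ∑ i, (C i + n i + n i)) (by
      have : 0 ≤ ∑ i, (C i + n i + n i) := Finset.sum_nonneg (fun i _ => by
        have := hC i; positivity)
      positivity)
  intro r ρ hr hρ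
  set R := (r + ρ) / 2 with hR
  have hrR : r < R := by rw [hR]; linarith
  have hRρ : R < ρ := by rw [hR]; linarith
  have hY := (Yf_ge hA hr hρ)
  have hx := ratio_ge hr hρ
  have hlogY : 0 ≤ Real.log (Yf (Aphi φ) r ρ) := Real.log_nonneg hY.2.2.2
  have hlog2 : Real.log 2 ≤ 1 := by
    have := Real.log_two_lt_d9
    linarith
  have hTi : ∀ i, Real.circleAverage (fun z => max (φ i z).re 0) 0 R ≤
      (C i + n i + n i) * (1 + Real.log (Yf (Aphi φ) r ρ)) := by
    intro i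
    have h1 := hT i R ρ (by linarith) hRρ
    rw [hR, Yf_half hρ, Real.log_mul (by norm_num) (by linarith [hY.2.2.2])] at h1
    rw [hR]
    refine h1.trans ?_
    have hn0 : (0:ℝ) ≤ n i := Nat.cast_nonneg _
    have hCi := hC i
    nlinarith [mul_nonneg hn0 hlogY, mul_nonneg hCi hlogY]
  have hsum0 : 0 ≤ ∑ i, (C i + n i + n i) := Finset.sum_nonneg (fun i _ => by
    have := hC i; positivity)
  have hmain : Aphi φ r ≤ 1 + (4 * (ρ / (ρ - r))) *
      ((∑ i, (C i + n i + n i)) * (1 + Real.log (Yf (Aphi φ) r ρ))) := by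
    apply Aphi_le (by linarith)
    intro z hz
    have hzR : ‖z‖ < R := lt_of_le_of_lt hz hrR
    have h1 : ∀ i, max (φ i z).re 0 ≤ (4 * (ρ / (ρ - r))) *
        ((C i + n i + n i) * (1 + Real.log (Yf (Aphi φ) r ρ))) := by
      intro i
      have h2 := poisson_upper (hφ i) hzR
      refine h2.trans ?_
      have h3 : (R + ‖z‖) / (R - ‖z‖) ≤ 4 * (ρ / (ρ - r)) := by
        rw [div_le_iff₀ (by linarith)]
        have h4 : (ρ - r) / 2 ≤ R - ‖z‖ := by rw [hR]; linarith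
        have h5 : 4 * (ρ / (ρ - r)) * ((ρ - r) / 2) = 2 * ρ := by
          have : ρ - r ≠ 0 := by linarith
          field_simp
          ring
        have h6 : 4 * (ρ / (ρ - r)) * ((ρ - r) / 2) ≤ 4 * (ρ / (ρ - r)) * (R - ‖z‖) := by
          gcongr
        linarith
      have h7 : 0 ≤ Real.circleAverage (fun z => max (φ i z).re 0) 0 R :=
        Real.circleAverage_nonneg_of_nonneg (fun z _ => le_max_right _ _)
      have h8 : 0 ≤ R - ‖z‖ := by linarith
      gcongr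
      exact hTi i
    calc ∑ i, max (φ i z).re 0 ≤ ∑ i, (4 * (ρ / (ρ - r))) *
        ((C i + n i + n i) * (1 + Real.log (Yf (Aphi φ) r ρ))) := Finset.sum_le_sum (fun i _ => h1 i)
      _ = _ := by rw [← Finset.mul_sum, ← Finset.sum_mul]
  refine hmain.trans ?_
  have h10 : 1 ≤ (ρ / (ρ - r)) * (1 + Real.log (Yf (Aphi φ) r ρ)) :=
    one_le_mul_of_one_le_of_one_le hx (by linarith)
  nlinarith

end

end Pool.Agent.Hhelper32.Bcf
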