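import Pool.Agent.Hhelper32.Bcf.Lead

set_option autoImplicit false
set_option linter.unusedSectionVars false
set_option linter.unusedVariables false

open Polynomial

namespace Pool.Agent.Hhelper32.Bcf

section
variable {K Ω : Type*} [Field K] [Field Ω] [Algebra K Ω] [IsAlgClosed K]
  {S : DExt K Ω} {t : Ω} {β : K}


/-- the field `K(t)` -/
noncomputable def Kt (K : Type*) {Ω : Type*} [Field K] [Field Ω] [Algebra K Ω] (t : Ω) : IntermediateField K Ω :=
  IntermediateField.adjoin K {t}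

theorem mem_Kt_iff {x : Ω} : x ∈ Kt K t ↔ ∃ P Q : K[X], x = aeval t P / aeval t Q :=
  IntermediateField.mem_adjoin_simple_iff K x

theorem t_mem_Kt : t ∈ Kt K t := IntermediateField.mem_adjoin_simple_self K t

theorem alg_mem_Kt (c : K) : algebraMap K Ω c ∈ Kt K t := (Kt K t).algebraMap_mem c

theorem poly_mem_Kt (P : K[X]) : aeval t P ∈ Kt K t :=
  mem_Kt_iff.mpr ⟨P, 1, by simp⟩

/-- coprime representation -/
theorem exists_coprime (ht : IsT S t β) {x : Ω} (hx : x ∈ Kt K t) (hx0 : x ≠ 0) :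
    ∃ P Q : K[X], P ≠ 0 ∧ Q ≠ 0 ∧ IsCoprime P Q ∧ x * aeval t Q = aeval t P := by
  classical
  obtain ⟨P, Q, rfl⟩ := mem_Kt_iff.mp hx
  have hP : P ≠ 0 := by rintro rfl; simp at hx0
  have hQ : Q ≠ 0 := by rintro rfl; simp at hx0
  obtain ⟨P', hP'⟩ := EuclideanDomain.gcd_dvd_left P Q
  obtain ⟨Q', hQ'⟩ := EuclideanDomain.gcd_dvd_right P Q
  set g := EuclideanDomain.gcd P Q with hg
  have hg0 : g ≠ 0 := by
    intro h
    rw [h, zero_mul] at hP'
    exact hP hP'
  have hcop : IsCoprime P' Q' := by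
    have h1 := EuclideanDomain.gcd_eq_gcd_ab P Q
    rw [← hg] at h1
    refine ⟨EuclideanDomain.gcdA P Q, EuclideanDomain.gcdB P Q, ?_⟩
    have h2 : g * (EuclideanDomain.gcdA P Q * P' + EuclideanDomain.gcdB P Q * Q') = g * 1 := by
      calc g * (EuclideanDomain.gcdA P Q * P' + EuclideanDomain.gcdB P Q * Q')
          = (g * P') * EuclideanDomain.gcdA P Q + (g * Q') * EuclideanDomain.gcdB P Q := by ring
        _ = P * EuclideanDomain.gcdA P Q + Q * EuclideanDomain.gcdB P Q := by rw [← hP', ← hQ']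
        _ = g := h1.symm
        _ = g * 1 := by ring
    exact mul_left_cancel₀ hg0 h2
  have hP'0 : P' ≠ 0 := by rintro h; rw [h, mul_zero] at hP'; exact hP hP'
  have hQ'0 : Q' ≠ 0 := by rintro h; rw [h, mul_zero] at hQ'; exact hQ hQ'
  refine ⟨P', Q', hP'0, hQ'0, hcop, ?_⟩
  have h1 := ht.aeval_ne hg0
  have h2 := ht.aeval_ne hQ'0
  rw [hP', hQ', map_mul, map_mul]
  field_simp

theorem lead_poly (ht : IsT S t β) {P : K[X]} (hP : P ≠ 0) (c : K) :
    ∃ l : K, HasLead t c (aeval t P) (P.rootMultiplicity c) l := by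
  obtain ⟨q, hq, hnd⟩ := Polynomial.exists_eq_pow_rootMultiplicity_mul_and_not_dvd P hP c
  have hqc : q.eval c ≠ 0 := fun h => hnd (dvd_iff_isRoot.mpr h)
  refine ⟨1 * q.eval c, ?_⟩
  have h1 := (HasLead.tsub_zpow (c := c) ht (P.rootMultiplicity c)).mul ht
    (HasLead.of_regAt (RegAt.of_poly (t := t) q) hqc)
  refine h1.congr ?_ (by simp) rfl
  conv_rhs => rw [hq]
  simp

theorem lead_poly_inf (ht : IsT S t β) {P : K[X]} (hP : P ≠ 0) :
    HasLead t⁻¹ 0 (aeval t P) (-(P.natDegree : ℤ)) P.leadingCoeff := by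
  have h0 := ht.ne_zero
  have hrev : (reverse P).eval 0 = P.leadingCoeff := by
    rw [← coeff_zero_eq_eval_zero, coeff_zero_reverse]
  have h1 := (HasLead.tsub_zpow (c := 0) ht.inv (-(P.natDegree : ℤ))).mul ht.inv
    (HasLead.of_regAt (RegAt.of_poly (t := t⁻¹) (c := 0) (reverse P)) (by
      rw [hrev]; exact leadingCoeff_ne_zero.mpr hP))
  refine h1.congr ?_ (by simp) (by rw [hrev, one_mul])
  let _ : Invertible t := invertibleOfNonzero h0
  have h2 := eval₂_reverse_mul_pow (algebraMap K Ω) t P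
  rw [invOf_eq_inv] at h2
  rw [aeval_def, aeval_def, ← h2]
  simp only [map_zero, sub_zero, zpow_neg, zpow_natCast, inv_pow, inv_inv]
  ring

/-- leads of elements of `K(t)` from a representation. -/
theorem lead_ratio (ht : IsT S t β) {P Q : K[X]} (hP : P ≠ 0) (hQ : Q ≠ 0) {x : Ω}
    (h : x * aeval t Q = aeval t P) (c : K) :
    ∃ l : K, HasLead t c x ((P.rootMultiplicity c : ℤ) - Q.rootMultiplicity c) l := by
  obtain ⟨l1, h1⟩ := lead_poly ht hP c
  obtain ⟨l2, h2⟩ := lead_poly ht hQ c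
  refine ⟨l1 / l2, (h1.div ht h2).congr ?_ rfl rfl⟩
  rw [← h, mul_div_assoc, div_self (ht.aeval_ne hQ), mul_one]

theorem lead_ratio_inf (ht : IsT S t β) {P Q : K[X]} (hP : P ≠ 0) (hQ : Q ≠ 0) {x : Ω}
    (h : x * aeval t Q = aeval t P) :
    ∃ l : K, HasLead t⁻¹ 0 x ((Q.natDegree : ℤ) - P.natDegree) l := by
  refine ⟨P.leadingCoeff / Q.leadingCoeff,
    ((lead_poly_inf ht hP).div ht.inv (lead_poly_inf ht hQ)).congr ?_ (by ring) rfl⟩
  rw [← h, mul_div_assoc, div_self (ht.aeval_ne hQ), mul_one]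

theorem exists_lead (ht : IsT S t β) {x : Ω} (hx : x ∈ Kt K t) (hx0 : x ≠ 0) (c : K) :
    ∃ o : ℤ, ∃ l : K, HasLead t c x o l := by
  obtain ⟨P, Q, hP, hQ, _, h⟩ := exists_coprime ht hx hx0
  exact ⟨_, lead_ratio ht hP hQ h c⟩

theorem Kt_inv (ht : IsT S t β) : Kt K t⁻¹ = Kt K t := by
  apply le_antisymm
  · apply IntermediateField.adjoin_le_iff.mpr
    rintro x rfl
    exact (Kt K t).inv_mem t_mem_Kt
  · apply IntermediateField.adjoin_le_iff.mpr
    rintro x rfl
    have := (Kt K x⁻¹).inv_mem t_mem_Kt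
    rwa [inv_inv] at this

theorem exists_lead_inf (ht : IsT S t β) {x : Ω} (hx : x ∈ Kt K t) (hx0 : x ≠ 0) (c : K) :
    ∃ o : ℤ, ∃ l : K, HasLead t⁻¹ c x o l :=
  exists_lead ht.inv (by rw [Kt_inv ht]; exact hx) hx0 c

theorem D_mem_Kt (ht : IsT S t β) {x : Ω} (hx : x ∈ Kt K t) : S.D x ∈ Kt K t := by
  obtain ⟨P, Q, rfl⟩ := mem_Kt_iff.mp hx
  by_cases hQ : aeval t Q = 0
  · rw [hQ, div_zero, map_zero]; exact zero_mem _
  rw [D_div S.D hQ]
  obtain ⟨P1, hP1, _⟩ := D_aeval S ht P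
  obtain ⟨Q1, hQ1, _⟩ := D_aeval S ht Q
  rw [hP1, hQ1]
  exact div_mem (sub_mem (mul_mem (poly_mem_Kt _) (poly_mem_Kt _))
    (mul_mem (poly_mem_Kt _) (poly_mem_Kt _))) (pow_mem (poly_mem_Kt _) 2)

/-! ### polynomials with restricted roots -/

theorem splits_prod (P : K[X]) (hP : P ≠ 0) :
    P = C P.leadingCoeff * (P.roots.map (fun a => X - C a)).prod := by
  exact (IsAlgClosed.splits P).eq_prod_roots

theorem eq_monomial_of_roots {P : K[X]} (hP : P ≠ 0) (h : ∀ c : K, c ≠ 0 → P.eval c ≠ 0) :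
    ∃ a : K, a ≠ 0 ∧ ∃ n : ℕ, P = C a * X ^ n := by
  refine ⟨P.leadingCoeff, leadingCoeff_ne_zero.mpr hP, Multiset.card P.roots, ?_⟩
  have h1 : P.roots = Multiset.replicate (Multiset.card P.roots) 0 := by
    rw [Multiset.eq_replicate]
    refine ⟨rfl, fun b hb => ?_⟩
    by_contra hb0
    exact h b hb0 ((mem_roots hP).mp hb)
  conv_lhs => rw [splits_prod P hP, h1]
  simp

theorem not_both_root {P Q : K[X]} (h : IsCoprime P Q) {c : K} (h1 : P.eval c = 0)
    (h2 : Q.eval c = 0) : False := by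
  obtain ⟨a, b, hab⟩ := h
  have := congrArg (eval c) hab
  simp [h1, h2] at this

theorem mult_pos {P : K[X]} (hP : P ≠ 0) {c : K} (h : P.eval c = 0) : 0 < P.rootMultiplicity c :=
  (rootMultiplicity_pos hP).mpr h

theorem mult_zero {P : K[X]} {c : K} (h : P.eval c ≠ 0) : P.rootMultiplicity c = 0 :=
  rootMultiplicity_eq_zero h

theorem eq_monomial (ht : IsT S t β) {x : Ω} (hx : x ∈ Kt K t) (hx0 : x ≠ 0)
    (h : ∀ c : K, c ≠ 0 → ∀ o l, HasLead t c x o l → o = 0) :
    ∃ a : K, a ≠ 0 ∧ ∃ n : ℤ, x = algebraMap K Ω a * t ^ n := by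
  obtain ⟨P, Q, hP, hQ, hcop, hxe⟩ := exists_coprime ht hx hx0
  have hPr : ∀ c : K, c ≠ 0 → P.eval c ≠ 0 := by
    intro c hc h0
    obtain ⟨l, hl⟩ := lead_ratio ht hP hQ hxe c
    have h1 := h c hc _ _ hl
    have h2 := mult_pos hP h0
    have h3 := mult_zero (P := Q) (c := c) (fun h3 => not_both_root hcop h0 h3)
    omega
  have hQr : ∀ c : K, c ≠ 0 → Q.eval c ≠ 0 := by
    intro c hc h0
    obtain ⟨l, hl⟩ := lead_ratio ht hP hQ hxe c
    have h1 := h c hc _ _ hl
    have h2 := mult_pos hQ h0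
    have h3 := mult_zero (P := P) (c := c) (fun h3 => not_both_root hcop h3 h0)
    omega
  obtain ⟨a, ha, n, hPn⟩ := eq_monomial_of_roots hP hPr
  obtain ⟨b, hb, m, hQm⟩ := eq_monomial_of_roots hQ hQr
  refine ⟨a / b, div_ne_zero ha hb, (n : ℤ) - m, ?_⟩
  have h0 := ht.ne_zero
  have hb' : algebraMap K Ω b ≠ 0 := by simpa using hb
  rw [hPn, hQm] at hxe
  simp only [map_mul, aeval_C, map_pow, aeval_X] at hxe
  rw [map_div₀, zpow_sub₀ h0, zpow_natCast, zpow_natCast]
  field_simp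
  linear_combination hxe

theorem mem_K_of_no_zeros (ht : IsT S t β) {x : Ω} (hx : x ∈ Kt K t) (hx0 : x ≠ 0)
    (h : ∀ c : K, c ≠ 0 → ∀ o l, HasLead t c x o l → o ≤ 0)
    (h0 : ∀ (o : ℤ) (l : K), HasLead t 0 x o l → o ≤ 0)
    (hinf : ∀ (o : ℤ) (l : K), HasLead t⁻¹ 0 x o l → o ≤ 0) :
    ∃ a : K, algebraMap K Ω a = x := by
  obtain ⟨P, Q, hP, hQ, hcop, hxe⟩ := exists_coprime ht hx hx0
  have hPr : ∀ c : K, P.eval c ≠ 0 := by
    intro c hc0
    obtain ⟨l, hl⟩ := lead_ratio ht hP hQ hxe c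
    have h2 := mult_pos hP hc0
    have h3 := mult_zero (P := Q) (c := c) (fun h3 => not_both_root hcop hc0 h3)
    by_cases hc : c = 0
    · subst hc
      have := h0 _ _ hl
      omega
    · have := h c hc _ _ hl
      omega
  obtain ⟨l, hl⟩ := lead_ratio_inf ht hP hQ hxe
  have h4 := hinf _ _ hl
  have h5 : P.natDegree = 0 := by
    by_contra hne
    obtain ⟨c, hc⟩ := IsAlgClosed.exists_root P (by
      intro hd
      exact hne (natDegree_eq_of_degree_eq_some hd))
    exact hPr c hc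
  have h6 : Q.natDegree = 0 := by omega
  obtain ⟨p, rfl⟩ := natDegree_eq_zero.mp h5
  obtain ⟨q, rfl⟩ := natDegree_eq_zero.mp h6
  have hq : q ≠ 0 := by rintro rfl; simp at hQ
  have hq' : algebraMap K Ω q ≠ 0 := by simpa using hq
  refine ⟨p / q, ?_⟩
  simp only [aeval_C] at hxe
  rw [map_div₀, ← hxe]
  field_simp

theorem eq_binomial (ht : IsT S t β) {x : Ω} (hx : x ∈ Kt K t) (hx0 : x ≠ 0) {e : ℕ} (he : 0 < e)
    {γ : K} (hγ : γ ≠ 0)
    (h : ∀ c : K, c ≠ 0 → ∀ o l, HasLead t c x o l → 0 < o → o = 1 ∧ γ * c ^ e = 1)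
    (h0 : ∀ (o : ℤ) (l : K), HasLead t 0 x o l → o ≤ 0)
    (hinf : ∀ (o : ℤ) (l : K), HasLead t⁻¹ 0 x o l → o = -(e : ℤ)) :
    ∃ ν : K, ν ≠ 0 ∧ x = algebraMap K Ω ν * (algebraMap K Ω γ * t ^ e - 1) := by
  classical
  obtain ⟨P, Q, hP, hQ, hcop, hxe⟩ := exists_coprime ht hx hx0
  have hPr : ∀ c : K, P.eval c = 0 → c ≠ 0 ∧ P.rootMultiplicity c = 1 ∧ γ * c ^ e = 1 := by
    intro c hc0
    obtain ⟨l, hl⟩ := lead_ratio ht hP hQ hxe c
    have h2 := mult_pos hP hc0
    have h3 := mult_zero (P := Q) (c := c) (fun h3 => not_both_root hcop hc0 h3)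
    by_cases hc : c = 0
    · subst hc
      have := h0 _ _ hl
      omega
    · have := h c hc _ _ hl (by omega)
      exact ⟨hc, by omega, this.2⟩
  set R : K[X] := C γ * X ^ e - 1 with hR
  have hRdeg : R.natDegree = e := by
    rw [hR, ← C_1, natDegree_sub_C, natDegree_C_mul_X_pow e γ hγ]
  have hR0 : R ≠ 0 := by
    intro h
    rw [h, natDegree_zero] at hRdeg
    omega
  have hle : P.roots ≤ R.roots := by
    have hnd : P.roots.Nodup := by
      rw [Multiset.nodup_iff_count_le_one]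
      intro c
      rw [count_roots]
      by_cases hc : P.eval c = 0
      · exact (hPr c hc).2.1.le
      · rw [mult_zero hc]; omega
    rw [Multiset.le_iff_subset hnd]
    intro c hc
    have hc' : P.eval c = 0 := (mem_roots hP).mp hc
    rw [mem_roots hR0]
    simp only [IsRoot, hR, eval_sub, eval_mul, eval_C, eval_pow, eval_X, eval_one]
    rw [(hPr c hc').2.2, sub_self]
  have hPdeg : P.natDegree ≤ e := by
    have h1 := Multiset.card_le_card hle
    rw [← (IsAlgClosed.splits P).natDegree_eq_card_roots] at h1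
    have h2 := card_roots' R
    omega
  obtain ⟨l, hl⟩ := lead_ratio_inf ht hP hQ hxe
  have h4 := hinf _ _ hl
  have hQdeg : Q.natDegree = 0 := by omega
  have hPdeg' : P.natDegree = e := by omega
  have hdvd : P ∣ R := by
    rw [splits_prod P hP, splits_prod R hR0]
    have h5 : (P.roots.map (fun a => X - C a)).prod ∣ (R.roots.map (fun a => X - C a)).prod :=
      Multiset.prod_dvd_prod_of_le (Multiset.map_le_map hle)
    obtain ⟨U, hU⟩ := h5
    refine ⟨C (R.leadingCoeff / P.leadingCoeff) * U, ?_⟩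
    rw [hU]
    have h6 : C P.leadingCoeff * C (R.leadingCoeff / P.leadingCoeff) = C R.leadingCoeff := by
      rw [← C_mul]
      congr 1
      have := leadingCoeff_ne_zero.mpr hP
      field_simp
    rw [← h6]
    ring
  obtain ⟨U, hU⟩ := hdvd
  have hU0 : U ≠ 0 := by
    rintro rfl
    rw [mul_zero] at hU
    exact hR0 hU
  have hUdeg : U.natDegree = 0 := by
    have := natDegree_mul hP hU0
    rw [← hU, hRdeg, hPdeg'] at this
    omega
  obtain ⟨u, rfl⟩ := natDegree_eq_zero.mp hUdeg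
  obtain ⟨q, rfl⟩ := natDegree_eq_zero.mp hQdeg
  have hq : q ≠ 0 := by rintro rfl; simp at hQ
  have hu : u ≠ 0 := by rintro rfl; simp at hU0
  have hq' : algebraMap K Ω q ≠ 0 := by simpa using hq
  have hu' : algebraMap K Ω u ≠ 0 := by simpa using hu
  refine ⟨1 / (q * u), by simp [hq, hu], ?_⟩
  have h7 : algebraMap K Ω γ * t ^ e - 1 = aeval t P * algebraMap K Ω u := by
    have := congrArg (aeval t) hU
    simpa [hR] using this
  rw [h7, ← hxe]
  simp only [aeval_C, map_div₀, map_one, map_mul]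
  field_simp

theorem eq_square (ht : IsT S t β) {x : Ω} (hx : x ∈ Kt K t) (hx0 : x ≠ 0)
    (h : ∀ c : K, c ≠ 0 → ∀ o l, HasLead t c x o l → Even o) :
    ∃ κ : K, κ ≠ 0 ∧ ∃ j : ℤ, ∃ G : Ω, G ∈ Kt K t ∧ x = algebraMap K Ω κ * t ^ j * G ^ 2 := by
  obtain ⟨P, Q, hP, hQ, hcop, hxe⟩ := exists_coprime ht hx hx0
  have key : ∀ P : K[X], P ≠ 0 → (∀ c : K, c ≠ 0 → Even (P.rootMultiplicity c)) →
      ∃ a : K, a ≠ 0 ∧ ∃ n : ℕ, ∃ G : K[X], G ≠ 0 ∧ P = C a * X ^ n * G ^ 2 := by
    intro P hP hev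
    classical
    refine ⟨P.leadingCoeff, leadingCoeff_ne_zero.mpr hP, P.rootMultiplicity 0,
      ∏ c ∈ P.roots.toFinset.erase 0, (X - C c) ^ (P.rootMultiplicity c / 2), ?_, ?_⟩
    · rw [Finset.prod_ne_zero_iff]
      intro c _
      exact pow_ne_zero _ (X_sub_C_ne_zero c)
    · have h1 : (P.roots.map (fun a => X - C a)).prod =
          ∏ c ∈ P.roots.toFinset, (X - C c) ^ (P.rootMultiplicity c) := by
        rw [Finset.prod_multiset_map_count]
        apply Finset.prod_congr rfl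
        intro c _
        rw [count_roots]
      have h2 : ∏ c ∈ P.roots.toFinset, (X - C c) ^ (P.rootMultiplicity c) =
          X ^ (P.rootMultiplicity 0) *
            ∏ c ∈ P.roots.toFinset.erase 0, (X - C c) ^ (P.rootMultiplicity c) := by
        by_cases h0 : (0:K) ∈ P.roots.toFinset
        · rw [← Finset.mul_prod_erase _ _ h0]
          simp
        · rw [Finset.erase_eq_of_notMem h0]
          have : P.rootMultiplicity 0 = 0 := by
            rw [← count_roots, Multiset.count_eq_zero]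
            simpa using h0
          rw [this]; simp
      conv_lhs => rw [splits_prod P hP, h1, h2]
      rw [mul_assoc]
      congr 2
      rw [← Finset.prod_pow]
      apply Finset.prod_congr rfl
      intro c hc
      rw [← pow_mul]
      congr 1
      obtain ⟨k, hk⟩ := hev c (Finset.ne_of_mem_erase hc)
      omega
  obtain ⟨a, ha, n, G, hG, hPQ⟩ := key (P * Q) (mul_ne_zero hP hQ) (by
    intro c hc
    obtain ⟨l, hl⟩ := lead_ratio ht hP hQ hxe c
    have h1 := h c hc _ _ hl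
    rw [rootMultiplicity_mul (mul_ne_zero hP hQ)]
    have h2 : Even ((P.rootMultiplicity c : ℤ) + Q.rootMultiplicity c) := by
      have h3 : ((P.rootMultiplicity c : ℤ) + Q.rootMultiplicity c) =
        ((P.rootMultiplicity c : ℤ) - Q.rootMultiplicity c) + 2 * Q.rootMultiplicity c := by ring
      rw [h3]
      exact h1.add (even_two_mul _)
    exact_mod_cast h2)
  refine ⟨a, ha, n, aeval t G / aeval t Q, div_mem (poly_mem_Kt _) (poly_mem_Kt _), ?_⟩
  have hQt := ht.aeval_ne hQ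
  have h4 := congrArg (aeval t) hPQ
  simp only [map_mul, aeval_C, map_pow, aeval_X] at h4
  rw [← hxe] at h4
  rw [zpow_natCast]
  field_simp
  linear_combination h4

end
end Pool.Agent.Hhelper32.Bcf
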