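import Mathlib

set_option autoImplicit false
set_option linter.unusedSectionVars false
set_option linter.unusedVariables false

open Polynomial

namespace Pool.Agent.Hhelper32.Bcf

/-- A differential field extension `K ⊂ Ω` without new constants. -/
structure DExt (K Ω : Type*) [Field K] [Field Ω] [Algebra K Ω] where
  d : Derivation ℤ K K
  D : Derivation ℤ Ω Ω
  compat : ∀ x : K, D (algebraMap K Ω x) = algebraMap K Ω (d x)
  const : ∀ x : Ω, D x = 0 → ∃ c : K, algebraMap K Ω c = x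

section
variable {K Ω : Type*} [Field K] [Field Ω] [Algebra K Ω]


structure IsT (S : DExt K Ω) (t : Ω) (β : K) : Prop where
  der : S.D t = algebraMap K Ω β * t
  notMem : ∀ c : K, algebraMap K Ω c ≠ t

theorem D_inv (D : Derivation ℤ Ω Ω) {x : Ω} (hx : x ≠ 0) : D x⁻¹ = - D x / x ^ 2 := by
  have h1 : D (x * x⁻¹) = 0 := by rw [mul_inv_cancel₀ hx]; simp
  rw [Derivation.leibniz] at h1
  simp only [smul_eq_mul] at h1
  field_simp
  field_simp at h1
  linear_combination h1

theorem D_div (D : Derivation ℤ Ω Ω) {x y : Ω} (hy : y ≠ 0) :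
    D (x / y) = (D x * y - x * D y) / y ^ 2 := by
  rw [div_eq_mul_inv, Derivation.leibniz, D_inv D hy]
  simp only [smul_eq_mul]
  field_simp
  ring

theorem D_mul (D : Derivation ℤ Ω Ω) (x y : Ω) : D (x * y) = D x * y + x * D y := by
  rw [Derivation.leibniz]
  simp only [smul_eq_mul]
  ring

/-- logarithmic derivative -/
def ld (D : Derivation ℤ Ω Ω) (x : Ω) : Ω := D x / x

theorem ld_mul (D : Derivation ℤ Ω Ω) {x y : Ω} (hx : x ≠ 0) (hy : y ≠ 0) :
    ld D (x * y) = ld D x + ld D y := by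
  unfold ld
  rw [D_mul]
  field_simp

theorem ld_inv (D : Derivation ℤ Ω Ω) {x : Ω} (hx : x ≠ 0) : ld D x⁻¹ = - ld D x := by
  unfold ld
  rw [D_inv D hx]
  field_simp

theorem ld_div (D : Derivation ℤ Ω Ω) {x y : Ω} (hx : x ≠ 0) (hy : y ≠ 0) :
    ld D (x / y) = ld D x - ld D y := by
  rw [div_eq_mul_inv, ld_mul D hx (inv_ne_zero hy), ld_inv D hy]; ring

theorem ld_pow (D : Derivation ℤ Ω Ω) {x : Ω} (hx : x ≠ 0) (n : ℕ) :
    ld D (x ^ n) = n * ld D x := by
  induction n with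
  | zero => simp [ld]
  | succ n ih =>
    rw [pow_succ, ld_mul D (pow_ne_zero _ hx) hx, ih]
    push_cast
    ring

theorem ld_zpow (D : Derivation ℤ Ω Ω) {x : Ω} (hx : x ≠ 0) (n : ℤ) :
    ld D (x ^ n) = n * ld D x := by
  obtain ⟨m, rfl | rfl⟩ := n.eq_nat_or_neg
  · rw [zpow_natCast, ld_pow D hx]; simp
  · rw [zpow_neg, zpow_natCast, ld_inv D (pow_ne_zero _ hx), ld_pow D hx]; simp

theorem ld_eq (D : Derivation ℤ Ω Ω) {x : Ω} (hx : x ≠ 0) : D x = ld D x * x := by
  unfold ld; field_simp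

theorem mem_of_isAlgebraic [IsAlgClosed K] {x : Ω} (hx : IsAlgebraic K x) : ∃ c : K, algebraMap K Ω c = x := by
  have h1 : IsIntegral K x := hx.isIntegral
  have h2 := IsAlgClosed.degree_eq_one_of_irreducible K (minpoly.irreducible h1)
  exact minpoly.mem_range_of_degree_eq_one K x h2

namespace IsT
variable {S : DExt K Ω} {t : Ω} {β : K}

theorem ne_zero (h : IsT S t β) : t ≠ 0 := by
  have := h.notMem 0
  rw [map_zero] at this
  exact this.symm

theorem sub_ne (h : IsT S t β) (c : K) : t - algebraMap K Ω c ≠ 0 :=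
  sub_ne_zero.mpr (h.notMem c).symm

theorem ld_t (h : IsT S t β) : ld S.D t = algebraMap K Ω β := by
  unfold ld
  rw [h.der, mul_div_assoc, div_self h.ne_zero, mul_one]

theorem transc [IsAlgClosed K] (h : IsT S t β) : Transcendental K t := by
  intro halg
  obtain ⟨c, hc⟩ := mem_of_isAlgebraic halg
  exact h.notMem c hc

theorem aeval_ne [IsAlgClosed K] (h : IsT S t β) {P : K[X]} (hP : P ≠ 0) : aeval t P ≠ 0 := by
  intro h0
  exact hP ((transcendental_iff.mp h.transc) P h0)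

theorem inv (h : IsT S t β) : IsT S t⁻¹ (-β) where
  der := by
    have h0 := h.ne_zero
    rw [D_inv S.D h0, h.der, map_neg]
    field_simp
  notMem c hc := by
    apply h.notMem c⁻¹
    rw [map_inv₀, hc, inv_inv]

theorem u_ne (h : IsT S t β) {c : K} (hc : c ≠ 0) : β * c - S.d c ≠ 0 := by
  intro h0
  have hc' : algebraMap K Ω c ≠ 0 := by simpa using hc
  have h1 : S.D (t / algebraMap K Ω c) = 0 := by
    rw [D_div S.D hc', h.der, S.compat]
    have h2 : S.d c = β * c := by linear_combination -h0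
    rw [h2, map_mul]
    have : algebraMap K Ω β * t * algebraMap K Ω c - t * (algebraMap K Ω β * algebraMap K Ω c) = 0 := by ring
    rw [this, zero_div]
  obtain ⟨c', hc2⟩ := S.const _ h1
  apply h.notMem (c' * c)
  rw [map_mul, hc2]
  field_simp

theorem zpow_notMem [IsAlgClosed K] (h : IsT S t β) {n : ℤ} (hn : n ≠ 0) (c : K) :
    algebraMap K Ω c ≠ t ^ n := by
  have key : ∀ (m : ℕ), m ≠ 0 → ∀ c : K, algebraMap K Ω c ≠ t ^ m := by
    intro m hm c hc
    apply h.transc
    refine ⟨X ^ m - C c, ?_, ?_⟩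
    · exact X_pow_sub_C_ne_zero (Nat.pos_of_ne_zero hm) c
    · simp [hc]
  intro hc
  obtain ⟨m, rfl | rfl⟩ := n.eq_nat_or_neg
  · exact key m (by simpa using hn) c (by simpa using hc)
  · apply key m (by simpa using hn) c⁻¹
    rw [map_inv₀, hc, zpow_neg, zpow_natCast, inv_inv]

end IsT

/-! ### Derivative of polynomial expressions -/

theorem D_aeval (S : DExt K Ω) {t : Ω} {β : K} (ht : IsT S t β) (P : K[X]) :
    ∃ P1 : K[X], S.D (aeval t P) = aeval t P1 ∧
      ∀ c : K, P1.eval c = S.d (P.eval c) + (β * c - S.d c) * (derivative P).eval c := by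
  induction P using Polynomial.induction_on' with
  | add P Q hP hQ =>
    obtain ⟨P1, hP1, hP2⟩ := hP
    obtain ⟨Q1, hQ1, hQ2⟩ := hQ
    refine ⟨P1 + Q1, by rw [map_add, map_add, hP1, hQ1, map_add], fun c => ?_⟩
    rw [eval_add, hP2, hQ2, eval_add, map_add, derivative_add, eval_add]
    ring
  | monomial n a =>
    refine ⟨monomial n (S.d a + n * a * β), ?_, fun c => ?_⟩
    · rw [aeval_monomial, aeval_monomial, D_mul, S.compat]
      have h1 : S.D (t ^ n) = n * algebraMap K Ω β * t ^ n := by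
        have := ld_eq S.D (pow_ne_zero n ht.ne_zero)
        rw [this, ld_pow S.D ht.ne_zero, ht.ld_t]
      rw [h1]
      simp only [map_add, map_mul, map_natCast]
      ring
    · rw [derivative_monomial, eval_monomial, eval_monomial, eval_monomial, Derivation.leibniz,
        Derivation.leibniz_pow]
      simp only [smul_eq_mul, nsmul_eq_mul]
      rcases n with _ | n
      · simp
      · have h1 : n + 1 - 1 = n := rfl
        rw [h1]
        push_cast
        ring

/-! ### Regularity at a point -/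

/-- `x ∈ K(t)` is regular at `t = c` with value `v`. -/
def RegAt (K : Type*) {Ω : Type*} [Field K] [Field Ω] [Algebra K Ω] (t : Ω) (c : K) (x : Ω) (v : K) : Prop :=
  ∃ P Q : K[X], Q.eval c ≠ 0 ∧ x * aeval t Q = aeval t P ∧ v * Q.eval c = P.eval c

namespace RegAt
variable {t : Ω} {c : K}

theorem const (a : K) : RegAt K t c (algebraMap K Ω a) a := ⟨C a, 1, by simp, by simp, by simp⟩

theorem zero : RegAt K t c (0:Ω) 0 := by simpa using const (K := K) (t := t) (c := c) 0

theorem one : RegAt K t c (1:Ω) 1 := by simpa using const (K := K) (t := t) (c := c) 1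

theorem self : RegAt K t c t c := ⟨X, 1, by simp, by simp, by simp⟩

theorem of_poly (P : K[X]) : RegAt K t c (aeval t P) (P.eval c) := ⟨P, 1, by simp, by simp, by simp⟩

theorem add {x y : Ω} {v w : K} (hx : RegAt K t c x v) (hy : RegAt K t c y w) :
    RegAt K t c (x + y) (v + w) := by
  obtain ⟨P, Q, hQ, h1, h2⟩ := hx
  obtain ⟨P', Q', hQ', h1', h2'⟩ := hy
  refine ⟨P * Q' + P' * Q, Q * Q', by rw [eval_mul]; exact mul_ne_zero hQ hQ', ?_, ?_⟩
  · simp only [map_add, map_mul]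
    rw [← h1, ← h1']; ring
  · simp only [eval_add, eval_mul]
    rw [← h2, ← h2']; ring

theorem neg {x : Ω} {v : K} (hx : RegAt K t c x v) : RegAt K t c (-x) (-v) := by
  obtain ⟨P, Q, hQ, h1, h2⟩ := hx
  refine ⟨-P, Q, hQ, ?_, ?_⟩
  · simp only [map_neg]
    rw [← h1]; ring
  · simp only [eval_neg]
    rw [← h2]; ring

theorem sub {x y : Ω} {v w : K} (hx : RegAt K t c x v) (hy : RegAt K t c y w) :
    RegAt K t c (x - y) (v - w) := by
  rw [sub_eq_add_neg, sub_eq_add_neg]; exact hx.add hy.neg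

theorem mul {x y : Ω} {v w : K} (hx : RegAt K t c x v) (hy : RegAt K t c y w) :
    RegAt K t c (x * y) (v * w) := by
  obtain ⟨P, Q, hQ, h1, h2⟩ := hx
  obtain ⟨P', Q', hQ', h1', h2'⟩ := hy
  refine ⟨P * P', Q * Q', by rw [eval_mul]; exact mul_ne_zero hQ hQ', ?_, ?_⟩
  · simp only [map_mul]
    rw [← h1, ← h1']; ring
  · simp only [eval_mul]
    rw [← h2, ← h2']; ring

theorem congr {x y : Ω} {v w : K} (hx : RegAt K t c x v) (h : x = y) (h' : v = w) :
    RegAt K t c y w := by rw [← h, ← h']; exact hx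

theorem pow {x : Ω} {v : K} (hx : RegAt K t c x v) (n : ℕ) : RegAt K t c (x ^ n) (v ^ n) := by
  induction n with
  | zero => simpa using one
  | succ n ih => rw [pow_succ, pow_succ]; exact ih.mul hx

end RegAt

section ac
variable [IsAlgClosed K] {S : DExt K Ω} {t : Ω} {β : K} {c : K}

namespace RegAt

theorem unique (ht : IsT S t β) {x : Ω} {v w : K} (hx : RegAt K t c x v) (hy : RegAt K t c x w) :
    v = w := by
  obtain ⟨P, Q, hQ, h1, h2⟩ := hx
  obtain ⟨P', Q', hQ', h1', h2'⟩ := hy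
  have h3 : aeval t (P * Q' - P' * Q) = 0 := by
    simp only [map_sub, map_mul]
    rw [← h1, ← h1']; ring
  have h4 : P * Q' - P' * Q = 0 := by
    by_contra h
    exact ht.aeval_ne h h3
  have h5 : (P * Q' - P' * Q).eval c = 0 := by rw [h4]; simp
  rw [eval_sub, eval_mul, eval_mul, ← h2, ← h2'] at h5
  have h6 : (v - w) * (Q.eval c * Q'.eval c) = 0 := by linear_combination h5
  rcases mul_eq_zero.mp h6 with h | h
  · exact sub_eq_zero.mp h
  · exact absurd h (mul_ne_zero hQ hQ')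

theorem ne_zero (ht : IsT S t β) {x : Ω} {v : K} (hx : RegAt K t c x v) (hv : v ≠ 0) : x ≠ 0 := by
  rintro rfl
  exact hv (hx.unique ht zero)

theorem inv (ht : IsT S t β) {x : Ω} {v : K} (hx : RegAt K t c x v) (hv : v ≠ 0) :
    RegAt K t c x⁻¹ v⁻¹ := by
  have hx0 := hx.ne_zero ht hv
  obtain ⟨P, Q, hQ, h1, h2⟩ := hx
  refine ⟨Q, P, by rw [← h2]; exact mul_ne_zero hv hQ, ?_, ?_⟩
  · rw [← h1]; field_simp
  · rw [← h2]; field_simp

theorem div (ht : IsT S t β) {x y : Ω} {v w : K} (hx : RegAt K t c x v) (hy : RegAt K t c y w)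
    (hw : w ≠ 0) : RegAt K t c (x / y) (v / w) := by
  rw [div_eq_mul_inv, div_eq_mul_inv]; exact hx.mul (hy.inv ht hw)

theorem zpow (ht : IsT S t β) {x : Ω} {v : K} (hx : RegAt K t c x v) (hv : v ≠ 0) (n : ℤ) :
    RegAt K t c (x ^ n) (v ^ n) := by
  obtain ⟨m, rfl | rfl⟩ := n.eq_nat_or_neg
  · simpa using hx.pow m
  · rw [zpow_neg, zpow_neg, zpow_natCast, zpow_natCast]
    exact (hx.pow m).inv ht (pow_ne_zero _ hv)

theorem der (ht : IsT S t β) {x : Ω} {v : K} (hx : RegAt K t c x v) :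
    ∃ w : K, RegAt K t c (S.D x) (S.d v + (β * c - S.d c) * w) := by
  obtain ⟨P, Q, hQ, h1, h2⟩ := hx
  obtain ⟨P1, hP1, hP2⟩ := D_aeval S ht P
  obtain ⟨Q1, hQ1, hQ2⟩ := D_aeval S ht Q
  have hQ0 : Q ≠ 0 := by rintro rfl; simp at hQ
  have hQt : aeval t Q ≠ 0 := ht.aeval_ne hQ0
  have h3 : S.D x * aeval t Q + x * aeval t Q1 = aeval t P1 := by
    rw [← hQ1, ← hP1, ← h1, D_mul]
  have hxr : RegAt K t c x v := ⟨P, Q, hQ, h1, h2⟩
  have h4 : S.D x = (aeval t P1 - x * aeval t Q1) / aeval t Q := by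
    rw [eq_div_iff hQt]; linear_combination h3
  refine ⟨((derivative P).eval c - v * (derivative Q).eval c) / Q.eval c, ?_⟩
  rw [h4]
  have h5 := (((of_poly (t := t) (c := c) P1).sub (hxr.mul (of_poly Q1)))).div ht
    (of_poly (t := t) (c := c) Q) hQ
  refine h5.congr rfl ?_
  rw [hP2, hQ2, ← h2, Derivation.leibniz]
  simp only [smul_eq_mul]
  field_simp
  ring

end RegAt

/-- `x ∈ K(t)` has order at least `o` at `c`, with coefficient `v` at `o`. -/
def RegS (t : Ω) (c : K) (x : Ω) (o : ℤ) (v : K) : Prop := RegAt K t c (x * (t - algebraMap K Ω c) ^ (-o)) v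

/-- order `o`, leading coefficient `l`. -/
def HasLead (t : Ω) (c : K) (x : Ω) (o : ℤ) (l : K) : Prop := l ≠ 0 ∧ RegS t c x o l

namespace RegS

theorem add {x y : Ω} {o : ℤ} {v w : K} (hx : RegS t c x o v) (hy : RegS t c y o w) :
    RegS t c (x + y) o (v + w) := by
  unfold RegS at *
  rw [add_mul]; exact RegAt.add hx hy

theorem neg {x : Ω} {o : ℤ} {v : K} (hx : RegS t c x o v) : RegS t c (-x) o (-v) := by
  unfold RegS at *
  rw [neg_mul]; exact RegAt.neg hx

theorem sub {x y : Ω} {o : ℤ} {v w : K} (hx : RegS t c x o v) (hy : RegS t c y o w) :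
    RegS t c (x - y) o (v - w) := by
  rw [sub_eq_add_neg, sub_eq_add_neg]; exact hx.add hy.neg

theorem mul (ht : IsT S t β) {x y : Ω} {o o' : ℤ} {v w : K} (hx : RegS t c x o v)
    (hy : RegS t c y o' w) : RegS t c (x * y) (o + o') (v * w) := by
  unfold RegS at *
  have h1 := RegAt.mul hx hy
  refine h1.congr ?_ rfl
  rw [neg_add, zpow_add₀ (ht.sub_ne c)]
  ring

theorem congr {x y : Ω} {o o' : ℤ} {v w : K} (hx : RegS t c x o v) (h : x = y) (ho : o = o')
    (h' : v = w) : RegS t c y o' w := by rw [← h, ← h', ← ho]; exact hx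

theorem tsub (ht : IsT S t β) : RegAt K t c (t - algebraMap K Ω c) 0 :=
  (RegAt.self.sub (RegAt.const c)).congr rfl (sub_self c)

theorem mono (ht : IsT S t β) {x : Ω} {o o' : ℤ} {v : K} (hx : RegS t c x o v) (h : o' < o) :
    RegS t c x o' 0 := by
  unfold RegS at *
  obtain ⟨n, hn⟩ : ∃ n : ℕ, o - o' = (n + 1 : ℕ) := ⟨(o - o' - 1).toNat, by
    push_cast; rw [Int.toNat_of_nonneg (by omega)]; ring⟩
  have h1 := RegAt.mul hx ((tsub (c := c) ht).pow (n + 1))
  refine h1.congr ?_ (by simp)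
  rw [mul_assoc]
  congr 1
  rw [← zpow_natCast, ← hn, ← zpow_add₀ (ht.sub_ne c)]
  congr 1
  ring

theorem of_regAt {x : Ω} {v : K} (hx : RegAt K t c x v) : RegS t c x 0 v := by
  unfold RegS; simpa using hx

theorem regAt {x : Ω} {v : K} (hx : RegS t c x 0 v) : RegAt K t c x v := by
  unfold RegS at hx; simpa using hx

theorem unique (ht : IsT S t β) {x : Ω} {o : ℤ} {v w : K} (hx : RegS t c x o v)
    (hy : RegS t c x o w) : v = w := RegAt.unique ht hx hy

theorem toLead {x : Ω} {o : ℤ} {v : K} (hx : RegS t c x o v) (hv : v ≠ 0) : HasLead t c x o v :=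
  ⟨hv, hx⟩

theorem const (a : K) : RegS t c (algebraMap K Ω a) 0 a := of_regAt (RegAt.const a)

theorem const_mul (ht : IsT S t β) (a : K) {x : Ω} {o : ℤ} {v : K} (hx : RegS t c x o v) :
    RegS t c (algebraMap K Ω a * x) o (a * v) :=
  ((const a).mul ht hx).congr rfl (zero_add o) rfl

end RegS

namespace HasLead

theorem mul (ht : IsT S t β) {x y : Ω} {o o' : ℤ} {v w : K} (hx : HasLead t c x o v)
    (hy : HasLead t c y o' w) : HasLead t c (x * y) (o + o') (v * w) :=
  ⟨mul_ne_zero hx.1 hy.1, RegS.mul ht hx.2 hy.2⟩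

theorem congr {x y : Ω} {o o' : ℤ} {v w : K} (hx : HasLead t c x o v) (h : x = y) (ho : o = o')
    (h' : v = w) : HasLead t c y o' w := by rw [← h, ← h', ← ho]; exact hx

theorem inv (ht : IsT S t β) {x : Ω} {o : ℤ} {v : K} (hx : HasLead t c x o v) :
    HasLead t c x⁻¹ (-o) v⁻¹ := by
  refine ⟨inv_ne_zero hx.1, ?_⟩
  have h1 := RegAt.inv ht hx.2 hx.1
  unfold RegS
  refine h1.congr ?_ rfl
  rw [mul_inv, ← zpow_neg]

theorem div (ht : IsT S t β) {x y : Ω} {o o' : ℤ} {v w : K} (hx : HasLead t c x o v)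
    (hy : HasLead t c y o' w) : HasLead t c (x / y) (o - o') (v / w) := by
  rw [div_eq_mul_inv, div_eq_mul_inv, sub_eq_add_neg]
  exact hx.mul ht (hy.inv ht)

theorem ne_zero (ht : IsT S t β) {x : Ω} {o : ℤ} {v : K} (hx : HasLead t c x o v) : x ≠ 0 := by
  rintro rfl
  have h1 := RegAt.ne_zero ht hx.2 hx.1
  simp at h1

theorem unique (ht : IsT S t β) {x : Ω} {o o' : ℤ} {v w : K} (hx : HasLead t c x o v)
    (hy : HasLead t c x o' w) : o = o' ∧ v = w := by
  have h : ∀ {o o' : ℤ} {v w : K}, HasLead t c x o v → HasLead t c x o' w → ¬ o < o' := by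
    intro o o' v w hx hy hlt
    have h1 := RegS.mono ht hy.2 hlt
    exact hx.1 (RegS.unique ht hx.2 h1)
  have h1 : o = o' := le_antisymm (not_lt.mp (h hy hx)) (not_lt.mp (h hx hy))
  subst h1
  exact ⟨rfl, RegS.unique ht hx.2 hy.2⟩

theorem add_regS {x y : Ω} {o : ℤ} {v : K} (hx : HasLead t c x o v)
    (hy : RegS t c y o 0) : HasLead t c (x + y) o v :=
  ⟨hx.1, (hx.2.add hy).congr rfl rfl (add_zero v)⟩

theorem of_regAt {x : Ω} {v : K} (hx : RegAt K t c x v) (hv : v ≠ 0) : HasLead t c x 0 v :=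
  ⟨hv, RegS.of_regAt hx⟩

theorem const {a : K} (ha : a ≠ 0) : HasLead t c (algebraMap K Ω a) 0 a := of_regAt (RegAt.const a) ha

theorem regAt_zero (ht : IsT S t β) {x : Ω} {o : ℤ} {v : K} (hx : HasLead t c x o v) (ho : 0 < o) :
    RegAt K t c x 0 := (RegS.mono ht hx.2 ho).regAt

theorem pow (ht : IsT S t β) {x : Ω} {o : ℤ} {v : K} (hx : HasLead t c x o v) (n : ℕ) :
    HasLead t c (x ^ n) (n * o) (v ^ n) := by
  induction n with
  | zero =>
    have := of_regAt (RegAt.one (K := K) (t := t) (c := c)) one_ne_zero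
    refine this.congr (by simp) (by simp) (by simp)
  | succ n ih =>
    rw [pow_succ, pow_succ]
    exact (ih.mul ht hx).congr rfl (by push_cast; ring) rfl

theorem tsub_zpow (ht : IsT S t β) (n : ℤ) : HasLead t c ((t - algebraMap K Ω c) ^ n) n 1 := by
  refine ⟨one_ne_zero, ?_⟩
  unfold RegS
  have h : (t - algebraMap K Ω c) ^ n * (t - algebraMap K Ω c) ^ (-n) = 1 := by
    rw [← zpow_add₀ (ht.sub_ne c), add_neg_cancel, zpow_zero]
  rw [h]
  exact RegAt.one

/-- the log derivative at any point. -/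
theorem ld_aux (ht : IsT S t β) {x : Ω} {o : ℤ} {l : K} (hx : HasLead t c x o l) :
    ∃ w : K, ∃ y : Ω, ld S.D x = o * (S.D (t - algebraMap K Ω c) / (t - algebraMap K Ω c)) + y ∧
      RegAt K t c y ((S.d l + (β * c - S.d c) * w) / l) := by
  have hx0 := hx.ne_zero ht
  have hs := ht.sub_ne c
  set y₀ := x * (t - algebraMap K Ω c) ^ (-o) with hy₀
  have hy₀ne : y₀ ≠ 0 := mul_ne_zero hx0 (zpow_ne_zero _ hs)
  have hreg : RegAt K t c y₀ l := hx.2
  obtain ⟨w, hw⟩ := hreg.der ht
  refine ⟨w, ld S.D y₀, ?_, ?_⟩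
  · have : x = y₀ * (t - algebraMap K Ω c) ^ o := by
      rw [hy₀, mul_assoc, ← zpow_add₀ hs, neg_add_cancel, zpow_zero, mul_one]
    conv_lhs => rw [this]
    rw [ld_mul S.D hy₀ne (zpow_ne_zero _ hs), ld_zpow S.D hs]
    unfold ld
    ring
  · unfold ld
    exact hw.div ht hreg hx.1

/-- the log derivative at a finite nonzero point. -/
theorem ld (ht : IsT S t β) {x : Ω} {o : ℤ} {l : K} (hx : HasLead t c x o l) :
    RegS t c (Bcf.ld S.D x) (-1) (o * (β * c - S.d c)) := by
  obtain ⟨w, y, h1, h2⟩ := hx.ld_aux ht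
  rw [h1]
  have hs := ht.sub_ne c
  have hD : RegAt K t c (S.D (t - algebraMap K Ω c)) (β * c - S.d c) := by
    rw [map_sub, ht.der, S.compat]
    exact ((RegAt.const β).mul RegAt.self).sub (RegAt.const _)
  have h3 : RegS t c (o * (S.D (t - algebraMap K Ω c) / (t - algebraMap K Ω c))) (-1) (o * (β * c - S.d c)) := by
    unfold RegS
    have h4 := (RegAt.const (K := K) (t := t) (c := c) (o : K)).mul hD
    refine h4.congr ?_ rfl
    simp only [map_intCast, neg_neg, zpow_one]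
    field_simp
  have h5 := RegS.mono ht (RegS.of_regAt h2) (show (-1:ℤ) < 0 by norm_num)
  exact (h3.add h5).congr rfl rfl (add_zero _)

/-- the log derivative at zero. -/
theorem ld_zero (ht : IsT S t β) {x : Ω} {o : ℤ} {l : K} (hx : HasLead t 0 x o l) :
    RegAt K t 0 (Bcf.ld S.D x) (S.d l / l + o * β) := by
  obtain ⟨w, y, h1, h2⟩ := hx.ld_aux ht
  rw [h1]
  have h3 : S.D (t - algebraMap K Ω 0) / (t - algebraMap K Ω 0) = algebraMap K Ω β := by
    simp only [map_zero, sub_zero]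
    exact ht.ld_t
  rw [h3]
  have h4 := ((RegAt.const (K := K) (t := t) (c := 0) (o : K)).mul
    (RegAt.const (K := K) (t := t) (c := 0) β)).add h2
  refine h4.congr (by simp) ?_
  simp
  ring

end HasLead

end ac
end
end Pool.Agent.Hhelper32.Bcf
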