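import Pool.Agent.Hhelper32.Bcf.Chain
import Pool.Agent.Hhelper32.Bcf.Growth2

set_option autoImplicit false
set_option linter.unusedSectionVars false
set_option linter.unusedVariables false

open Complex

namespace Pool.Agent.Hhelper32.Bcf

/-- the ring of entire functions -/
def Ent : Subalgebra ℂ (ℂ → ℂ) where
  carrier := {f | Differentiable ℂ f}
  mul_mem' hf hg := Differentiable.mul hf hg
  add_mem' hf hg := Differentiable.add hf hg
  algebraMap_mem' r := differentiable_const r

theorem Ent.ext {f g : Ent} (h : ∀ z, f.1 z = g.1 z) : f = g := Subtype.ext (funext h)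

/-- identity theorem -/
theorem entire_eq_zero {f : ℂ → ℂ} (hf : Differentiable ℂ f) {z₀ : ℂ}
    (h : ∀ᶠ z in nhds z₀, f z = 0) : ∀ z, f z = 0 := by
  have h1 : AnalyticOnNhd ℂ f Set.univ := fun z _ => hf.analyticAt z
  have h2 := h1.eqOn_zero_of_preconnected_of_eventuallyEq_zero isPreconnected_univ
    (Set.mem_univ z₀) h
  exact fun z => h2 (Set.mem_univ z)

instance : IsDomain Ent := by
  have : NoZeroDivisors Ent := by
    constructor
    intro f g hfg
    by_contra hcon
    push Not at hcon
    obtain ⟨hf, hg⟩ := hcon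
    have : ∃ z, f.1 z ≠ 0 := by
      by_contra h
      push Not at h
      exact hf (Ent.ext h)
    obtain ⟨z₀, hz₀⟩ := this
    have h1 : ∀ᶠ z in nhds z₀, f.1 z ≠ 0 :=
      (f.2.continuous.continuousAt).eventually_ne hz₀
    have h2 : ∀ᶠ z in nhds z₀, g.1 z = 0 := by
      filter_upwards [h1] with z hz
      have h3 : f.1 z * g.1 z = 0 := congrFun (congrArg Subtype.val hfg) z
      exact (mul_eq_zero.mp h3).resolve_left hz
    exact hg (Ent.ext (entire_eq_zero g.2 h2))
  exact NoZeroDivisors.to_isDomain _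

/-- the derivation of `Ent` -/
noncomputable def dEnt : Derivation ℂ Ent Ent :=
  Derivation.mk'
    { toFun := fun f => ⟨deriv f.1, f.2.contDiff.differentiable_deriv_two⟩
      map_add' := fun f g => by
        apply Subtype.ext
        funext z
        exact deriv_add (f.2 z) (g.2 z)
      map_smul' := fun r f => by
        apply Subtype.ext
        funext z
        exact deriv_const_mul r (f.2 z) }
    (fun f g => by
      apply Subtype.ext
      funext z
      have := deriv_mul (f.2 z) (g.2 z)
      change deriv (f.1 * g.1) z = f.1 z * deriv g.1 z + g.1 z * deriv f.1 z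
      rw [this]; ring)

theorem dEnt_apply (f : Ent) (z : ℂ) : (dEnt f).1 z = deriv f.1 z := rfl

section ext
variable (R S T : Type*) [CommRing R] [CommRing S] [CommRing T]
  [Algebra R S] [Algebra R T] [Algebra S T] [IsScalarTower R S T] [Algebra.FormallyEtale S T]

/-- extension of a derivation to a formally étale algebra -/
noncomputable def extD (d : Derivation R S S) : Derivation R T T :=
  ((LinearMap.liftBaseChange T
      ((Algebra.linearMap S T).compDer d).liftKaehlerDifferential).comp
    (KaehlerDifferential.tensorKaehlerEquivOfFormallyEtale R S T).symm.toLinearMap).compDer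
      (KaehlerDifferential.D R T)

theorem extD_apply (d : Derivation R S S) (s : S) :
    extD R S T d (algebraMap S T s) = algebraMap S T (d s) := by
  change (LinearMap.liftBaseChange T
      ((Algebra.linearMap S T).compDer d).liftKaehlerDifferential)
    ((KaehlerDifferential.tensorKaehlerEquivOfFormallyEtale R S T).symm
      (KaehlerDifferential.D R T (algebraMap S T s))) = _
  rw [KaehlerDifferential.tensorKaehlerEquivOfFormallyEtale_symm_D_algebraMap,
    LinearMap.liftBaseChange_tmul, one_smul, Derivation.liftKaehlerDifferential_comp_D]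
  rfl

end ext

/-- meromorphic functions -/
abbrev Mer := FractionRing Ent

/-- the big differential field -/
abbrev Om := AlgebraicClosure Mer

instance : CharZero Mer := by
  have : CharZero Ent := charZero_of_injective_algebraMap (R := ℂ) (algebraMap ℂ Ent).injective
  exact charZero_of_injective_algebraMap (IsFractionRing.injective Ent Mer)

instance : Algebra.FormallyEtale Ent Om := by
  have h1 : Algebra.FormallyEtale Ent Mer := Algebra.FormallyEtale.of_isLocalization (nonZeroDivisors Ent)
  have h2 : Algebra.FormallyEtale Mer Om := Algebra.FormallyEtale.of_isSeparable Mer Om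
  exact Algebra.FormallyEtale.comp Ent Mer Om

noncomputable def DOm' : Derivation ℂ Om Om := extD ℂ Ent Om dEnt

/-- forget to a ℤ-derivation -/
noncomputable def toZ {F : Type*} [Field F] [Algebra ℂ F] (D : Derivation ℂ F F) :
    Derivation ℤ F F := D.restrictScalars ℤ

/-- the derivation as a ℤ-derivation -/
noncomputable def DOm := toZ DOm'

theorem DOm_apply (f : Ent) : DOm (algebraMap Ent Om f) = algebraMap Ent Om (dEnt f) :=
  extD_apply ℂ Ent Om dEnt f

theorem DOm_const (c : ℂ) : DOm (algebraMap ℂ Om c) = 0 := DOm'.map_algebraMap c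

theorem Ent_inj : Function.Injective (algebraMap Ent Om) := by
  rw [IsScalarTower.algebraMap_eq Ent Mer Om]
  exact (algebraMap Mer Om).injective.comp (IsFractionRing.injective Ent Mer)

/-- constants of `Mer` -/
theorem Mer_const {x : Mer} (hx : DOm (algebraMap Mer Om x) = 0) : ∃ c : ℂ, x = algebraMap ℂ Mer c := by
  obtain ⟨f, g, hg, rfl⟩ := IsFractionRing.div_surjective (A := Ent) x
  have hg0 : g ≠ 0 := nonZeroDivisors.ne_zero hg
  have hgΩ : algebraMap Ent Om g ≠ 0 := by
    intro h
    apply hg0
    apply Ent_inj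
    rw [h, map_zero]
  have h1 : algebraMap Mer Om (algebraMap Ent Mer f / algebraMap Ent Mer g) =
      algebraMap Ent Om f / algebraMap Ent Om g := by
    rw [map_div₀, ← IsScalarTower.algebraMap_apply, ← IsScalarTower.algebraMap_apply]
  set F := algebraMap Ent Om f with hF
  set G := algebraMap Ent Om g with hG
  have h2 : DOm F * G - F * DOm G = 0 := by
    have h3 : F = (F / G) * G := by field_simp
    rw [h1] at hx
    have h4 : DOm F = (F / G) * DOm G := by
      conv_lhs => rw [h3]
      rw [D_mul DOm, hx, zero_mul, zero_add]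
    rw [h4]
    field_simp
    ring
  rw [hF, hG, DOm_apply, DOm_apply, ← map_mul, ← map_mul, ← map_sub] at h2
  have h3 : dEnt f * g - f * dEnt g = 0 := by
    apply Ent_inj
    rw [h2, map_zero]
  have h3' : ∀ z, deriv f.1 z * g.1 z - f.1 z * deriv g.1 z = 0 := fun z =>
    congrFun (congrArg Subtype.val h3) z
  obtain ⟨z₀, hz₀⟩ : ∃ z, g.1 z ≠ 0 := by
    by_contra h
    push Not at h
    exact hg0 (Ent.ext h)
  set c := f.1 z₀ / g.1 z₀ with hc
  refine ⟨c, ?_⟩
  have hev : ∀ᶠ z in nhds z₀, g.1 z ≠ 0 := (g.2.continuous.continuousAt).eventually_ne hz₀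
  obtain ⟨ε, hε, hball⟩ := Metric.eventually_nhds_iff_ball.mp hev
  have hq : ∀ z ∈ Metric.ball z₀ ε, f.1 z / g.1 z = c := by
    have h5 : DifferentiableOn ℂ (fun z => f.1 z / g.1 z) (Metric.ball z₀ ε) := fun z hz =>
      ((f.2 z).div (g.2 z) (hball z hz)).differentiableWithinAt
    have h6 : Set.EqOn (deriv (fun z => f.1 z / g.1 z)) 0 (Metric.ball z₀ ε) := by
      intro z hz
      have := deriv_div (f.2 z) (g.2 z) (hball z hz)
      change deriv (f.1 / g.1) z = 0
      rw [this, h3' z, zero_div]
    obtain ⟨a, ha⟩ := IsOpen.exists_is_const_of_deriv_eq_zero Metric.isOpen_ball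
      (Metric.isPreconnected_ball) h5 h6
    intro z hz
    rw [ha z hz, hc, ← ha z₀ (Metric.mem_ball_self hε)]
  have hfg : f = algebraMap ℂ Ent c * g := by
    have h7 : ∀ z, f.1 z - c * g.1 z = 0 := by
      apply entire_eq_zero (z₀ := z₀) (f := fun z => f.1 z - c * g.1 z)
      · exact f.2.sub (g.2.const_mul c)
      · filter_upwards [Metric.ball_mem_nhds z₀ hε] with z hz
        have := hq z hz
        have h8 := hball z hz
        field_simp at this
        linear_combination this
    apply Ent.ext
    intro z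
    have := h7 z
    change f.1 z = c * g.1 z
    linear_combination this
  have hg' : algebraMap Ent Mer g ≠ 0 := by
    intro h
    apply hg0
    apply IsFractionRing.injective Ent Mer
    rw [h, map_zero]
  rw [hfg, map_mul, mul_div_assoc, div_self hg', mul_one, ← IsScalarTower.algebraMap_apply]

/-- the derivation on `Mer` -/
noncomputable def dMer' : Derivation ℂ Mer Mer :=
  have : Algebra.FormallyEtale Ent Mer := Algebra.FormallyEtale.of_isLocalization (nonZeroDivisors Ent)
  extD ℂ Ent Mer dEnt

noncomputable def dMer := toZ dMer'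

theorem dMer_apply (f : Ent) : dMer (algebraMap Ent Mer f) = algebraMap Ent Mer (dEnt f) :=
  have : Algebra.FormallyEtale Ent Mer := Algebra.FormallyEtale.of_isLocalization (nonZeroDivisors Ent)
  extD_apply ℂ Ent Mer dEnt f

theorem DOm_Mer (x : Mer) : DOm (algebraMap Mer Om x) = algebraMap Mer Om (dMer x) := by
  obtain ⟨f, g, hg, rfl⟩ := IsFractionRing.div_surjective (A := Ent) x
  have hg0 : g ≠ 0 := nonZeroDivisors.ne_zero hg
  have hgM : algebraMap Ent Mer g ≠ 0 := by
    intro h
    apply hg0
    apply IsFractionRing.injective Ent Mer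
    rw [h, map_zero]
  have hgO : algebraMap Mer Om (algebraMap Ent Mer g) ≠ 0 :=
    (map_ne_zero (algebraMap Mer Om)).mpr hgM
  have e : ∀ h : Ent, algebraMap Mer Om (algebraMap Ent Mer h) = algebraMap Ent Om h := fun h =>
    (IsScalarTower.algebraMap_apply Ent Mer Om h).symm
  rw [map_div₀, D_div DOm hgO, D_div dMer hgM, map_div₀, map_sub, map_mul, map_mul, map_pow,
    dMer_apply, dMer_apply, e, e, e, e, DOm_apply, DOm_apply]

theorem const_alg {F Ω : Type*} [Field F] [Field Ω] [Algebra F Ω] (d : Derivation ℤ F F)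
    (D : Derivation ℤ Ω Ω) (h : ∀ a, D (algebraMap F Ω a) = algebraMap F Ω (d a)) {x : Ω}
    (hx : IsIntegral F x) (hDx : D x = 0) : ∀ n, d ((minpoly F x).coeff n) = 0 := by
  obtain ⟨q1, hq1, hq2⟩ := gen_aeval d D h x (minpoly F x)
  rw [minpoly.aeval, map_zero, hDx, mul_zero, add_zero] at hq2
  have hmonic := minpoly.monic hx
  have hq10 : q1 = 0 := by
    by_contra hne
    have h1 := minpoly.degree_le_of_ne_zero F x hne hq2.symm
    have h2 : q1.natDegree < (minpoly F x).natDegree := by
      have h3 : q1.natDegree ≤ (minpoly F x).natDegree := by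
        rw [Polynomial.natDegree_le_iff_coeff_eq_zero]
        intro k hk
        rw [hq1, Polynomial.coeff_eq_zero_of_natDegree_lt hk, map_zero]
      rcases h3.lt_or_eq with h4 | h4
      · exact h4
      · exfalso
        have h5 : q1.coeff (minpoly F x).natDegree = 0 := by
          rw [hq1, hmonic.coeff_natDegree, Derivation.map_one_eq_zero]
        rw [← h4] at h5
        exact hne (Polynomial.leadingCoeff_eq_zero.mp h5)
    have h3 := Polynomial.degree_eq_natDegree hne
    have h4 := Polynomial.degree_eq_natDegree hmonic.ne_zero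
    rw [h3, h4, Nat.cast_le] at h1
    omega
  intro n
  rw [← hq1, hq10, Polynomial.coeff_zero]

/-- constants of `Om` -/
theorem Om_const {x : Om} (hx : DOm x = 0) : ∃ c : ℂ, x = algebraMap ℂ Om c := by
  have hint : IsIntegral Mer x := ((AlgebraicClosure.isAlgebraic Mer).isAlgebraic x).isIntegral
  have h1 := const_alg dMer DOm DOm_Mer hint hx
  have h2 : ∀ n, ∃ c : ℂ, algebraMap ℂ Mer c = (minpoly Mer x).coeff n := by
    intro n
    obtain ⟨c, hc⟩ := Mer_const (x := (minpoly Mer x).coeff n) (by rw [DOm_Mer, h1, map_zero])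
    exact ⟨c, hc.symm⟩
  have h3 : minpoly Mer x ∈ Polynomial.lifts (algebraMap ℂ Mer) := by
    rw [Polynomial.lifts_iff_coeff_lifts]
    intro n
    exact h2 n
  obtain ⟨q, hq⟩ := (Polynomial.mem_lifts _).mp h3
  have h4 : IsAlgebraic ℂ x := by
    refine ⟨q, ?_, ?_⟩
    · rintro rfl
      rw [Polynomial.map_zero] at hq
      exact minpoly.ne_zero hint hq.symm
    · have h5 : Polynomial.aeval x (minpoly Mer x) = 0 := minpoly.aeval _ _
      rw [← hq, Polynomial.aeval_map_algebraMap] at h5
      exact h5
  obtain ⟨c, hc⟩ := mem_of_isAlgebraic h4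
  exact ⟨c, hc.symm⟩

/-! ### The growth-bounded ring -/

section F1
variable {ι : Type*} [Fintype ι]

def GBsub (φ : ι → Ent) : Subalgebra ℂ Ent where
  carrier := {f | GB (Aphi (fun i => (φ i).1)) f.1}
  mul_mem' hf hg := GB.mul Aphi_ge hf hg
  add_mem' hf hg := GB.add Aphi_ge hf hg
  algebraMap_mem' r := GB.const Aphi_ge r

/-- the ring in `Om` -/
noncomputable def Rphi (φ : ι → Ent) : Subring Om :=
  (GBsub φ).toSubring.map (algebraMap Ent Om)

theorem mem_Rphi {φ : ι → Ent} {f : Ent} (h : GB (Aphi (fun i => (φ i).1)) f.1) :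
    algebraMap Ent Om f ∈ Rphi φ := ⟨f, h, rfl⟩

theorem Rphi_good (φ : ι → Ent) : GoodR DOm (Rphi φ) := by
  refine ⟨?_, ?_⟩
  · rintro x ⟨f, hf, rfl⟩
    change DOm (algebraMap Ent Om f) ∈ _
    rw [DOm_apply]
    exact mem_Rphi (GB.deriv Aphi_ge hf)
  · intro x hx
    obtain ⟨c, rfl⟩ := Om_const hx
    rw [IsScalarTower.algebraMap_apply ℂ Ent Om]
    exact mem_Rphi (GB.const Aphi_ge c)

theorem phi_mem_GB (φ : ι → Ent) (i : ι) : GB (Aphi (fun i => (φ i).1)) (φ i).1 :=
  GB.of_re Aphi_ge (φ i).2 (fun ρ z hz => re_le_Aphi (fun i => (φ i).2) i ρ z hz)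

theorem dphi_mem (φ : ι → Ent) (i : ι) : algebraMap Ent Om (dEnt (φ i)) ∈ Rphi φ :=
  mem_Rphi (GB.deriv Aphi_ge (phi_mem_GB φ i))

/-- the identity function -/
def idE : Ent := ⟨fun z => z, differentiable_id⟩

theorem dEnt_id : dEnt idE = 1 := Ent.ext (fun z => by
  rw [dEnt_apply]
  change deriv (fun z : ℂ => z) z = 1
  exact deriv_id z)

theorem id_mem (φ : ι → Ent) : algebraMap Ent Om idE ∈ Rphi φ := mem_Rphi (GB.id Aphi_ge)

noncomputable def expE (f : Ent) : Ent := ⟨fun z => Complex.exp (f.1 z), f.2.cexp⟩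

theorem dEnt_exp (f : Ent) : dEnt (expE f) = dEnt f * expE f := Ent.ext (fun z => by
  change deriv (fun z => Complex.exp (f.1 z)) z = deriv f.1 z * Complex.exp (f.1 z)
  rw [deriv_cexp (f.2 z)]; ring)

/-- **F1**. -/
theorem F1 (φ : ι → Ent) (h : ∀ i, algebraMap Ent Om (expE (φ i)) ∈ acl (Rphi φ)) :
    ∀ i, dEnt (φ i) = 0 := by
  have key : ∀ i, ∃ d : ℕ, ∃ P : ℕ → Ent, (∀ j, GB (Aphi (fun i => (φ i).1)) (P j).1) ∧ P d ≠ 0 ∧
      ∑ j ∈ Finset.range (d + 1), P j * expE (φ i) ^ j = 0 := by
    intro i
    obtain ⟨p, hp, hpx⟩ := h i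
    have hc : ∀ j, ∃ P : Ent, GB (Aphi (fun i => (φ i).1)) P.1 ∧
        algebraMap Ent Om P = (p.coeff j).1 := by
      intro j
      obtain ⟨P, hP, hPj⟩ := (p.coeff j).2
      exact ⟨P, hP, hPj⟩
    choose P hP hPj using hc
    refine ⟨p.natDegree, P, hP, ?_, ?_⟩
    · intro h0
      have h1 := hPj p.natDegree
      rw [h0, map_zero] at h1
      have h2 : p.coeff p.natDegree = 0 := Subtype.ext h1.symm
      exact hp (Polynomial.leadingCoeff_eq_zero.mp h2)
    · apply Ent_inj
      rw [map_zero, map_sum, ← hpx, Polynomial.aeval_eq_sum_range]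
      apply Finset.sum_congr rfl
      intro j _
      rw [map_mul, map_pow, hPj, Algebra.smul_def]
      rfl
  choose d P hP hPd hrel using key
  have h1 := main_growth (φ := fun i => (φ i).1) (fun i => (φ i).2) d (fun i j => (P i j).1)
    (fun i j _ => hP i j) (fun i => by
      by_contra hcon
      push Not at hcon
      exact hPd i (Ent.ext hcon)) (fun i z => by
      have h2 := congrFun (congrArg Subtype.val (hrel i)) z
      have h3 : ((∑ j ∈ Finset.range (d i + 1), P i j * expE (φ i) ^ j : Ent) : ℂ → ℂ) z =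
          ∑ j ∈ Finset.range (d i + 1), (P i j).1 z * Complex.exp ((φ i).1 z) ^ j := by
        simp [expE]
      rw [← h3]
      exact h2)
  exact fun i => Ent.ext (fun z => h1 i z)

end F1

end Pool.Agent.Hhelper32.Bcf
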