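import Pool.Agent.Hhelper32.Bcf.Part3b

set_option autoImplicit false
set_option linter.unusedSectionVars false
set_option linter.unusedVariables false

open Polynomial

namespace Pool.Agent.Hhelper32.Bcf

section
variable {K Ω : Type*} [Field K] [Field Ω] [Algebra K Ω]


section ac
variable [IsAlgClosed K] [CharZero K] {S : DExt K Ω} {t : Ω} {β : K}

theorem ld_E1 (ht : IsT S t β) {c : K} (hc : c ≠ 0) {m : ℤ} (hne : algebraMap K Ω c * t ^ m ≠ 1) :
    ld S.D (algebraMap K Ω c * t ^ m - 1) = algebraMap K Ω (S.d c / c + m * β) * (1 + (algebraMap K Ω c * t ^ m - 1)⁻¹) := by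
  have hE1 : algebraMap K Ω c * t ^ m - 1 ≠ 0 := sub_ne_zero.mpr hne
  have hE0 : algebraMap K Ω c * t ^ m ≠ 0 := mul_ne_zero (by simpa using hc) (zpow_ne_zero _ ht.ne_zero)
  have h3 : S.D (algebraMap K Ω c * t ^ m) = algebraMap K Ω (S.d c / c + m * β) * (algebraMap K Ω c * t ^ m) := by
    rw [ld_eq S.D hE0, ld_mono ht hc]
  unfold ld
  rw [map_sub, h3, Derivation.map_one_eq_zero, sub_zero]
  field_simp
  ring

/-- local behaviour of `X = 1/(E-1)` at a finite nonzero point. -/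
theorem X_loc (ht : IsT S t β) {c : K} (hc : c ≠ 0) {m : ℤ} (hne : algebraMap K Ω c * t ^ m ≠ 1) {q : K}
    (hq : q ≠ 0) :
    RegS t q (algebraMap K Ω c * t ^ m - 1)⁻¹ (-1) 0 ∨
    (S.d c / c + m * β ≠ 0 ∧
      RegS t q (algebraMap K Ω c * t ^ m - 1)⁻¹ (-1) ((β * q - S.d q) / (S.d c / c + m * β))) := by
  set b := S.d c / c + m * β with hb
  have hE := mono_regAt ht (c := c) hq m
  have hE1 : RegAt K t q (algebraMap K Ω c * t ^ m - 1) (c * q ^ m - 1) := hE.sub RegAt.one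
  by_cases hv : c * q ^ m - 1 = 0
  · right
    rw [hv] at hE1
    have hne' : algebraMap K Ω c * t ^ m - 1 ≠ 0 := sub_ne_zero.mpr hne
    have hmem : algebraMap K Ω c * t ^ m - 1 ∈ Kt K t :=
      sub_mem (mul_mem (alg_mem_Kt _) (zpow_mem t_mem_Kt _)) (one_mem _)
    obtain ⟨o, l, hol⟩ := exists_lead ht hmem hne' q
    have ho := (order_of_regAt ht hE1 hol).2 rfl
    have hu := ht.u_ne hq
    have ho' : (o : K) ≠ 0 := by exact_mod_cast ho.ne'
    have h1 := hol.ld ht
    rw [ld_E1 ht hc hne, ← hb] at h1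
    have hb0 : b ≠ 0 := by
      intro h
      rw [h, map_zero, zero_mul] at h1
      have h2 : RegS t q (0:Ω) (-1) (0:K) := by
        have := (RegS.const (K := K) (t := t) (c := q) 0).mono ht (show (-1:ℤ) < 0 by norm_num)
        exact this.congr (map_zero _) rfl rfl
      have := RegS.unique ht h1 h2
      exact mul_ne_zero ho' hu this
    refine ⟨hb0, ?_⟩
    have hb' : algebraMap K Ω b ≠ 0 := by simpa using hb0
    have h3 : RegS t q (algebraMap K Ω c * t ^ m - 1)⁻¹ (-1) (o * (β * q - S.d q) / b) := by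
      have h4 : RegS t q (algebraMap K Ω b) (-1) (0:K) :=
        (RegS.const (K := K) (t := t) (c := q) b).mono ht (by norm_num)
      have h5 := RegS.const_mul ht b⁻¹ (h1.sub h4)
      refine h5.congr ?_ rfl (by field_simp; ring)
      rw [map_inv₀]
      field_simp
      ring
    have h6 := hol.inv ht
    have h7 : HasLead t q (algebraMap K Ω c * t ^ m - 1)⁻¹ (-1) (o * (β * q - S.d q) / b) :=
      ⟨div_ne_zero (mul_ne_zero ho' hu) hb0, h3⟩
    have h8 : o = 1 := by
      have := (h6.unique ht h7).1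
      omega
    rw [h8] at h3
    exact h3.congr rfl rfl (by simp)
  · left
    exact RegS.mono ht (RegS.of_regAt (hE1.inv ht hv)) (by norm_num)

/-- The Riccati relation. -/
theorem ric (ht : IsT S t β) {N : ℕ} {L M : ℕ → Ω} {c : ℕ → K} {m : ℕ → ℤ}
    (hs : Seq S N L M) (he : EData t N L M c m) {n : ℕ} (hn : n < N) :
    S.D (M n - L n) = algebraMap K Ω (S.d (c n) / c n + m n * β) * (1 + (algebraMap K Ω (c n) * t ^ (m n) - 1)⁻¹ +
        (algebraMap K Ω (c (n+1)) * t ^ (m (n+1)) - 1)⁻¹) * (M n - L n) +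
      ((algebraMap K Ω (c (n+1)) * t ^ (m (n+1)) - 1)⁻¹ - (algebraMap K Ω (c n) * t ^ (m n) - 1)⁻¹) * (M n - L n) ^ 2 := by
  have hEne : ∀ k ≤ N, algebraMap K Ω (c k) * t ^ (m k) ≠ 1 := by
    intro k hk h
    apply hs.ne k hk
    rw [he.eq k hk, h, one_mul]
  have hLk : ∀ k ≤ N, L k = (M k - L k) * (algebraMap K Ω (c k) * t ^ (m k) - 1)⁻¹ := by
    intro k hk
    have h1 : algebraMap K Ω (c k) * t ^ (m k) - 1 ≠ 0 := sub_ne_zero.mpr (hEne k hk)
    rw [he.eq k hk]
    field_simp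
  have hA0 : M n - L n ≠ 0 := sub_ne_zero.mpr (hs.ne n hn.le)
  have hE1 : algebraMap K Ω (c n) * t ^ (m n) - 1 ≠ 0 := sub_ne_zero.mpr (hEne n hn.le)
  have h1 : ld S.D (L n) = ld S.D (M n - L n) -
      algebraMap K Ω (S.d (c n) / c n + m n * β) * (1 + (algebraMap K Ω (c n) * t ^ (m n) - 1)⁻¹) := by
    conv_lhs => rw [hLk n hn.le]
    rw [ld_mul S.D hA0 (inv_ne_zero hE1), ld_inv S.D hE1, ld_E1 ht (he.c0 n hn.le) (hEne n hn.le)]
    ring
  have h2 := hs.Ls n hn
  rw [h1] at h2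
  have h3 := hLk (n+1) (by omega)
  rw [a_succ ht hs he hn] at h3
  have h4 := hLk n hn.le
  have h5 : ld S.D (M n - L n) = algebraMap K Ω (S.d (c n) / c n + m n * β) *
      (1 + (algebraMap K Ω (c n) * t ^ (m n) - 1)⁻¹ + (algebraMap K Ω (c (n+1)) * t ^ (m (n+1)) - 1)⁻¹) +
      ((algebraMap K Ω (c (n+1)) * t ^ (m (n+1)) - 1)⁻¹ - (algebraMap K Ω (c n) * t ^ (m n) - 1)⁻¹) * (M n - L n) := by
    linear_combination h3 - h2 - h4
  rw [ld_eq S.D hA0, h5]
  ring

theorem RegS.div_lead (ht : IsT S t β) {q : K} {x y : Ω} {v w : K} {o : ℤ}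
    (hx : RegS t q x o v) (hy : HasLead t q y o w) : RegAt K t q (x / y) (v / w) := by
  have h1 := hx.mul ht (hy.inv ht).2
  rw [add_neg_cancel] at h1
  rw [div_eq_mul_inv, div_eq_mul_inv]
  exact h1.regAt

/-- the parity argument. -/
theorem even_order (ht : IsT S t β) {N : ℕ} {L M : ℕ → Ω} {c : ℕ → K} {m : ℕ → ℤ}
    (hs : Seq S N L M) (he : EData t N L M c m) (hN : 3 ≤ N)
    {T : ℕ → Ω} {Δ : Ω} (hT : ∀ n ≤ 2, T n ∈ Kt K t) (hΔ : Δ ∈ Kt K t)
    (hrel1 : ∀ n ≤ 2, ld S.D Δ / 2 = algebraMap K Ω (S.d (c n) / c n + m n * β) *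
      (1 + (algebraMap K Ω (c n) * t ^ (m n) - 1)⁻¹ + (algebraMap K Ω (c (n+1)) * t ^ (m (n+1)) - 1)⁻¹) +
      ((algebraMap K Ω (c (n+1)) * t ^ (m (n+1)) - 1)⁻¹ - (algebraMap K Ω (c n) * t ^ (m n) - 1)⁻¹) * T n)
    (hN0 : ∀ n ≤ 2, T n ^ 2 - Δ ≠ 0)
    (hrel2 : ∀ n ≤ 2, ld S.D (T n ^ 2 - Δ) = algebraMap K Ω (S.d (c n) / c n + m n * β) *
      (1 + (algebraMap K Ω (c n) * t ^ (m n) - 1)⁻¹ + (algebraMap K Ω (c (n+1)) * t ^ (m (n+1)) - 1)⁻¹) + ld S.D Δ / 2)
    (hTs : T 2 = T 1 + 2 * algebraMap K Ω (S.d (c 1) / c 1 + m 1 * β))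
    {q : K} (hq : q ≠ 0) {w : ℤ} {l : K} (hlead : HasLead t q Δ w l) : Even w := by
  by_contra hodd
  have hu := ht.u_ne hq
  set u := β * q - S.d q with hud
  have hEne : ∀ k ≤ N, algebraMap K Ω (c k) * t ^ (m k) ≠ 1 := by
    intro k hk h
    apply hs.ne k hk
    rw [he.eq k hk, h, one_mul]
  set X : ℕ → Ω := fun k => (algebraMap K Ω (c k) * t ^ (m k) - 1)⁻¹ with hX
  set b : ℕ → K := fun k => S.d (c k) / c k + m k * β with hb
  have hloc : ∀ k ≤ 3, RegS t q (X k) (-1) 0 ∨ (b k ≠ 0 ∧ RegS t q (X k) (-1) (u / b k)) :=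
    fun k hk => X_loc ht (he.c0 k (by omega)) (hEne k (by omega)) hq
  have hone : RegS t q (1:Ω) (-1) (0:K) := by
    have := (RegS.const (K := K) (t := t) (c := q) 1).mono ht (show (-1:ℤ) < 0 by norm_num)
    exact this.congr (map_one _) rfl rfl
  -- epsilon
  have hε : RegS t q (ld S.D Δ / 2) (-1) (w * u / 2) := by
    have h1 := RegS.const_mul ht ((1:K)/2) (hlead.ld ht)
    refine h1.congr ?_ rfl (by ring)
    rw [map_div₀, map_one, map_ofNat]; ring
  have hp : ∀ n ≤ 2, ∀ x y : K, RegS t q (X n) (-1) x → RegS t q (X (n+1)) (-1) y →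
      RegS t q (algebraMap K Ω (b n) * (1 + X n + X (n+1))) (-1) (b n * (x + y)) := by
    intro n hn x y hx hy
    exact (RegS.const_mul ht (b n) ((hone.add hx).add hy)).congr rfl rfl (by ring)
  have hord : ∀ n ≤ 2, ∃ o : ℤ, ∃ l' : K, HasLead t q (T n ^ 2 - Δ) o l' ∧
      ∀ x y : K, RegS t q (X n) (-1) x → RegS t q (X (n+1)) (-1) y →
      (o : K) * u = b n * (x + y) + w * u / 2 := by
    intro n hn
    obtain ⟨o, l', h1⟩ := exists_lead ht (sub_mem (pow_mem (hT n hn) 2) hΔ) (hN0 n hn) q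
    refine ⟨o, l', h1, fun x y hx hy => ?_⟩
    have h2 := h1.ld ht
    rw [hrel2 n hn] at h2
    exact RegS.unique ht h2 ((hp n hn x y hx hy).add hε)
  -- all X_{n+1} have poles
  have hpole : ∀ n ≤ 2, b (n+1) ≠ 0 ∧ RegS t q (X (n+1)) (-1) (u / b (n+1)) := by
    intro n hn
    rcases hloc (n+1) (by omega) with h1 | h1
    · exfalso
      obtain ⟨o, l', _, h2⟩ := hord n hn
      rcases hloc n (by omega) with h3 | ⟨hbn, h3⟩
      · have h4 := h2 _ _ h3 h1
        have h5 : ((2 * o : ℤ) : K) = (w : ℤ) := by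
          push_cast
          have h6 : u * (2 * (o:K) - w) = 0 := by linear_combination 2 * h4
          have := (mul_eq_zero.mp h6).resolve_left hu
          linear_combination this
        have h6 : 2 * o = w := by exact_mod_cast h5
        exact hodd (h6 ▸ even_two_mul o)
      · have h4 := h2 _ _ h3 h1
        have h5 : ((2 * o : ℤ) : K) = ((w + 2 : ℤ) : K) := by
          push_cast
          have h6 : u * (2 * (o:K) - w - 2) = 0 := by
            have h7 : b n * (u / b n + 0) = u := by field_simp; ring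
            rw [h7] at h4
            linear_combination 2 * h4
          have := (mul_eq_zero.mp h6).resolve_left hu
          linear_combination this
        have h6 : 2 * o = w + 2 := by exact_mod_cast h5
        apply hodd
        have h7 : w = 2 * (o - 1) := by omega
        rw [h7]; exact even_two_mul _
    · exact h1
  -- values of T
  have hval : ∀ n, 1 ≤ n → n ≤ 2 → ∃ ρ τ : K, b n = ρ * b (n+1) ∧ ρ ≠ 1 ∧
      RegAt K t q (T n) τ ∧ τ * (ρ - 1) = b n * (w / 2 - 1 - ρ) ∧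
      ∃ o : ℤ, ∃ l' : K, HasLead t q (T n ^ 2 - Δ) o l' ∧ (o : K) = 1 + ρ + w / 2 := by
    intro n hn1 hn2
    obtain ⟨k, rfl⟩ : ∃ k, n = k + 1 := ⟨n - 1, by omega⟩
    obtain ⟨hb1, hX1⟩ := hpole k (by omega)
    obtain ⟨hb2, hX2⟩ := hpole (k+1) (by omega)
    set ρ := b (k+1) / b (k+1+1) with hρ
    have hρb : b (k+1) = ρ * b (k+1+1) := by rw [hρ]; field_simp
    obtain ⟨o, l', hol, h2⟩ := hord (k+1) (by omega)
    have h4 := h2 _ _ hX1 hX2
    have hoρ : (o : K) = 1 + ρ + w / 2 := by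
      have h5 : b (k+1) * (u / b (k+1) + u / b (k+1+1)) = u * (1 + ρ) := by
        rw [hρ]; field_simp
      rw [h5] at h4
      have h6 : u * ((o:K) - (1 + ρ + w / 2)) = 0 := by linear_combination h4
      have := (mul_eq_zero.mp h6).resolve_left hu
      linear_combination this
    have hρ1 : ρ ≠ 1 := by
      intro h
      rw [h] at hoρ
      have h5 : ((2 * o : ℤ) : K) = ((w + 4 : ℤ) : K) := by
        push_cast
        linear_combination 2 * hoρ
      have h6 : 2 * o = w + 4 := by exact_mod_cast h5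
      apply hodd
      have h7 : w = 2 * (o - 2) := by omega
      rw [h7]; exact even_two_mul _
    have hsl : HasLead t q (X (k+1+1) - X (k+1)) (-1) (u / b (k+1+1) - u / b (k+1)) := by
      refine ⟨?_, hX2.sub hX1⟩
      intro h
      apply hρ1
      rw [hρ]
      have h5 : u * (b (k+1) - b (k+1+1)) = 0 := by
        field_simp at h
        linear_combination h
      have h6 := (mul_eq_zero.mp h5).resolve_left hu
      rw [sub_eq_zero.mp h6, div_self hb2]
    have hnum : RegS t q (ld S.D Δ / 2 - algebraMap K Ω (b (k+1)) * (1 + X (k+1) + X (k+1+1))) (-1)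
        (w * u / 2 - b (k+1) * (u / b (k+1) + u / b (k+1+1))) :=
      hε.sub (hp (k+1) (by omega) _ _ hX1 hX2)
    have hTq := RegS.div_lead ht hnum hsl
    have hs0 := hsl.ne_zero ht
    refine ⟨ρ, _, hρb, hρ1, hTq.congr ?_ rfl, ?_, o, l', hol, hoρ⟩
    · rw [hrel1 (k+1) (by omega)]
      simp only [hX, hb] at hs0 ⊢
      rw [add_sub_cancel_left, mul_div_assoc, mul_comm, div_mul_cancel₀ _ hs0]
    · have h7 : u / b (k+1+1) - u / b (k+1) = u * (ρ - 1) / b (k+1) := by
        rw [hρ]; field_simp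
      have h8 : b (k+1) * (u / b (k+1) + u / b (k+1+1)) = u * (1 + ρ) := by
        rw [hρ]; field_simp
      have hρ1' : ρ - 1 ≠ 0 := sub_ne_zero.mpr hρ1
      rw [h7, h8]
      field_simp
      ring
  obtain ⟨ρ₁, τ₁, hρ1, hρ1', hT1, hτ1, o₁, l₁, hol1, ho1⟩ := hval 1 le_rfl (by norm_num)
  obtain ⟨ρ₂, τ₂, hρ2, hρ2', hT2, hτ2, o₂, l₂, hol2, ho2⟩ := hval 2 (by norm_num) le_rfl
  have hb1 := (hpole 0 (by norm_num)).1
  have hb2 := (hpole 1 (by norm_num)).1
  simp only [zero_add] at hb1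
  norm_num at hb2 hρ1 hρ2
  have hττ : τ₂ = τ₁ + 2 * b 1 := by
    have h1 := hT1.add (RegAt.const (t := t) (c := q) (2 * b 1))
    have h2 : RegAt K t q (T 2) (τ₁ + 2 * b 1) := by
      refine h1.congr ?_ rfl
      rw [hTs, map_mul, map_ofNat]
    exact hT2.unique ht h2
  have hτ1' : τ₁ * (ρ₁ - 1) = b 1 * (w / 2 - 1 - ρ₁) := hτ1
  have hτ2' : τ₂ * (ρ₂ - 1) = b 2 * (w / 2 - 1 - ρ₂) := hτ2
  have hb12 : b 1 = ρ₁ * b 2 := hρ1
  have hr1 : ρ₁ - 1 ≠ 0 := sub_ne_zero.mpr hρ1'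
  have hr2 : ρ₂ - 1 ≠ 0 := sub_ne_zero.mpr hρ2'
  rcases lt_trichotomy w 0 with hw | hw | hw
  · -- pole
    have key : ∀ {x : Ω} {τ ρ : K} {o : ℤ} {l' : K} {bb : K}, ρ - 1 ≠ 0 → RegAt K t q x τ →
        HasLead t q (x ^ 2 - Δ) o l' → (o : K) = 1 + ρ + w / 2 → τ * (ρ - 1) = bb * (w / 2 - 1 - ρ) →
        τ = 0 := by
      intro x τ ρ o l' bb hρ hx hl ho hτ
      have h1 : HasLead t q (x ^ 2 - Δ) w (-l) := by
        refine ⟨neg_ne_zero.mpr hlead.1, ?_⟩
        have h2 := RegS.mono ht (RegS.of_regAt (hx.pow 2)) hw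
        exact (h2.sub hlead.2).congr rfl rfl (zero_sub l)
      have h3 := (hl.unique ht h1).1
      rw [h3] at ho
      have h4 : (w:K) / 2 - 1 - ρ = 0 := by linear_combination ho
      rw [h4, mul_zero] at hτ
      exact (mul_eq_zero.mp hτ).resolve_right hρ
    have e1 := key hr1 hT1 hol1 ho1 hτ1'
    have e2 := key hr2 hT2 hol2 ho2 hτ2'
    rw [e1, e2] at hττ
    apply hb1
    have : (2:K) * b 1 = 0 := by linear_combination -hττ
    simpa using this
  · subst hw; exact hodd (by simp)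
  · have key : ∀ {x : Ω} {τ ρ : K} {o : ℤ} {l' : K}, RegAt K t q x τ →
        HasLead t q (x ^ 2 - Δ) o l' → (o : K) = 1 + ρ + w / 2 → τ ≠ 0 → ρ = -1 - w / 2 := by
      intro x τ ρ o l' hx hl ho hτ
      have h1 : HasLead t q (x ^ 2 - Δ) 0 (τ ^ 2) := by
        refine ⟨pow_ne_zero _ hτ, ?_⟩
        have h2 := RegS.mono ht hlead.2 hw
        exact ((RegS.of_regAt (hx.pow 2)).sub h2).congr rfl rfl (sub_zero _)
      have h3 := (hl.unique ht h1).1
      rw [h3] at ho
      push_cast at ho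
      linear_combination -ho
    by_cases e1 : τ₁ = 0
    · have hρe1 : ρ₁ = w / 2 - 1 := by
        rw [e1, zero_mul] at hτ1'
        have := (mul_eq_zero.mp hτ1'.symm).resolve_left hb1
        linear_combination -this
      by_cases e2 : τ₂ = 0
      · rw [e1, e2] at hττ
        apply hb1
        have : (2:K) * b 1 = 0 := by linear_combination -hττ
        simpa using this
      · have hρe2 := key hT2 hol2 ho2 e2
        -- W^2+4W-8 = 0
        rw [e1, zero_add] at hττ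
        rw [hττ, hρe2, hb12, hρe1] at hτ2'
        have h5 : b 2 * ((w:K)^2 + 4 * w - 8) = 0 := by linear_combination -2 * hτ2'
        have h6 := (mul_eq_zero.mp h5).resolve_left hb2
        have h7 : w ^ 2 + 4 * w - 8 = 0 := by exact_mod_cast h6
        have hodd' : Odd w := Int.not_even_iff_odd.mp hodd
        obtain ⟨k, hk⟩ := hodd'
        rw [hk] at h7
        ring_nf at h7
        omega
    · have hρe1 := key hT1 hol1 ho1 e1
      by_cases e2 : τ₂ = 0
      · have hτ1e : τ₁ = - 2 * b 1 := by rw [e2] at hττ; linear_combination -hττ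
        rw [hτ1e, hρe1] at hτ1'
        have h5 : b 1 * 4 = 0 := by linear_combination hτ1'
        have := (mul_eq_zero.mp h5).resolve_left hb1
        norm_num at this
      · have hρe2 := key hT2 hol2 ho2 e2
        have h5 : 2 * b 1 * (ρ₁ - 1) = w * b 2 * (1 - ρ₁) := by
          have h6 : ρ₂ = ρ₁ := by rw [hρe1, hρe2]
          rw [h6] at hτ2'
          have h7 : (w:K) / 2 - 1 - ρ₁ = w := by rw [hρe1]; ring
          rw [h7] at hτ1' hτ2'
          linear_combination hτ2' - hτ1' - (ρ₁ - 1) * hττ - w * hb12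
        have h6 : (2 * b 1 + w * b 2) * (ρ₁ - 1) = 0 := by linear_combination h5
        have h7 := (mul_eq_zero.mp h6).resolve_right hr1
        rw [hb12, hρe1] at h7
        have h8 : b 2 * 2 = 0 := by linear_combination -h7
        have := (mul_eq_zero.mp h8).resolve_left hb2
        norm_num at this

end ac
end
end Pool.Agent.Hhelper32.Bcf
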