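import Pool.Agent.Hhelper32.Bcf.Part2

set_option autoImplicit false
set_option linter.unusedSectionVars false
set_option linter.unusedVariables false

open Polynomial

namespace Pool.Agent.Hhelper32.Bcf

section
variable {K Ω : Type*} [Field K] [Field Ω] [Algebra K Ω]


section ac
variable [IsAlgClosed K] [CharZero K] {S : DExt K Ω} {t : Ω} {β : K}

/-- the log derivative of `c t^m` -/
noncomputable def bb (S : DExt K Ω) (β : K) (c : ℕ → K) (m : ℕ → ℤ) (n : ℕ) : K :=
  S.d (c n) / c n + m n * β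

noncomputable def BB (S : DExt K Ω) (β : K) (c : ℕ → K) (m : ℕ → ℤ) (n : ℕ) : K :=
  ∑ i ∈ Finset.range n, bb S β c m i

theorem BB_succ (c : ℕ → K) (m : ℕ → ℤ) (n : ℕ) :
    BB S β c m (n+1) = BB S β c m n + bb S β c m n := Finset.sum_range_succ _ _

theorem A_eq (ht : IsT S t β) {N : ℕ} {L M : ℕ → Ω} {c : ℕ → K} {m : ℕ → ℤ}
    (hs : Seq S N L M) (he : EData t N L M c m) : ∀ n ≤ N,
    M n - L n = (M 0 - L 0) + algebraMap K Ω (BB S β c m n) := by
  intro n
  induction n with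
  | zero => intro _; simp [BB]
  | succ n ih =>
    intro hn
    rw [a_succ ht hs he (by omega), ih (by omega), BB_succ]
    simp only [map_add, bb]
    ring

theorem part2 [IsAlgClosed Ω] (ht : IsT S t β) {N : ℕ} {L M : ℕ → Ω} {c : ℕ → K} {m : ℕ → ℤ}
    (hs : Seq S N L M) (he : EData t N L M c m) (hN : 3 ≤ N) {T N₀ : Ω} (hT : T ∈ Kt K t)
    (hN₀ : N₀ ∈ Kt K t) (hq : (M 0 - L 0) ^ 2 - T * (M 0 - L 0) + N₀ = 0)
    (ha : M 0 - L 0 ∉ Kt K t) :
    ∃ (s : Ω) (β' : K), IsT S s β' ∧ EData s N L M c (fun n => 2 * m n) ∧ M 0 - L 0 ∈ Kt K s := by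
  have : CharZero Ω := charZero_of_injective_algebraMap (algebraMap K Ω).injective
  set a := M 0 - L 0 with had
  set δ := 2 * a - T with hδ
  set Δ := δ ^ 2 with hΔd
  have hΔ : Δ ∈ Kt K t := by
    have h1 : Δ = T ^ 2 - 4 * N₀ := by rw [hΔd, hδ]; linear_combination 4 * hq
    rw [h1]
    exact sub_mem (pow_mem hT 2) (mul_mem (by exact_mod_cast natCast_mem (Kt K t) 4) hN₀)
  have h2mem : (2:Ω) ∈ Kt K t := by exact_mod_cast natCast_mem (Kt K t) 2
  have hδn : δ ∉ Kt K t := by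
    intro h
    apply ha
    have h1 : a = (δ + T) / 2 := by rw [hδ]; ring
    rw [h1]
    exact div_mem (add_mem h hT) h2mem
  have hδ0 : δ ≠ 0 := by
    intro h
    rw [h] at hδn
    exact hδn (zero_mem _)
  have hΔ0 : Δ ≠ 0 := pow_ne_zero _ hδ0
  have hldΔ : ld S.D Δ / 2 = ld S.D δ := by
    rw [hΔd, ld_pow S.D hδ0]; push_cast; ring
  have hεmem : ld S.D δ ∈ Kt K t := by
    rw [← hldΔ]
    exact div_mem (div_mem (D_mem_Kt ht hΔ) hΔ) h2mem
  have hindep : ∀ x y : Ω, x ∈ Kt K t → y ∈ Kt K t → x * δ + y = 0 → x = 0 ∧ y = 0 := by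
    intro x y hx hy h
    by_cases hx0 : x = 0
    · refine ⟨hx0, ?_⟩
      rw [hx0] at h
      simpa using h
    · exfalso
      apply hδn
      have : δ = - y / x := by field_simp; linear_combination h
      rw [this]
      exact div_mem (neg_mem hy) hx
  have hEne : ∀ k ≤ N, algebraMap K Ω (c k) * t ^ (m k) ≠ 1 := by
    intro k hk h
    apply hs.ne k hk
    rw [he.eq k hk, h, one_mul]
  set X : ℕ → Ω := fun k => (algebraMap K Ω (c k) * t ^ (m k) - 1)⁻¹ with hX
  have hXmem : ∀ k, X k ∈ Kt K t := fun k =>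
    inv_mem (sub_mem (mul_mem (alg_mem_Kt _) (zpow_mem t_mem_Kt _)) (one_mem _))
  set T' : ℕ → Ω := fun n => T + 2 * algebraMap K Ω (BB S β c m n) with hT'
  have hT'mem : ∀ n, T' n ∈ Kt K t := fun n => add_mem hT (mul_mem h2mem (alg_mem_Kt _))
  have hA : ∀ n ≤ N, M n - L n = (T' n + δ) / 2 := by
    intro n hn
    rw [A_eq ht hs he n hn, hT', hδ]
    ring
  have hDδ : S.D δ = ld S.D δ * δ := ld_eq S.D hδ0
  set ε := ld S.D δ with hε
  set p : ℕ → Ω := fun n => algebraMap K Ω (bb S β c m n) * (1 + X n + X (n+1)) with hp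
  set σ : ℕ → Ω := fun n => X (n+1) - X n with hσ
  have hpmem : ∀ n, p n ∈ Kt K t := fun n =>
    mul_mem (alg_mem_Kt _) (add_mem (add_mem (one_mem _) (hXmem _)) (hXmem _))
  have hσmem : ∀ n, σ n ∈ Kt K t := fun n => sub_mem (hXmem _) (hXmem _)
  have hboth : ∀ n < N, ε = p n + σ n * T' n ∧
      S.D (T' n) = p n * T' n + σ n * (T' n ^ 2 + Δ) / 2 := by
    intro n hn
    have h1 := ric ht hs he hn
    rw [hA n hn.le] at h1
    have h2 : S.D ((T' n + δ) / 2) = (S.D (T' n) + ε * δ) / 2 := by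
      have h3 : S.D (2:Ω) = 0 := by exact_mod_cast Derivation.map_natCast S.D 2
      rw [D_div S.D (by norm_num : (2:Ω) ≠ 0), map_add, hDδ, h3]
      ring
    rw [h2] at h1
    have h4 : (ε - p n - σ n * T' n) * δ + (S.D (T' n) - p n * T' n - σ n * (T' n ^ 2 + Δ) / 2) = 0 := by
      simp only [hp, hσ, hX, bb, hΔd] at h1 ⊢
      linear_combination 2 * h1
    have h5 := hindep _ _
      (sub_mem (sub_mem hεmem (hpmem n)) (mul_mem (hσmem n) (hT'mem n)))
      (sub_mem (sub_mem (D_mem_Kt ht (hT'mem n)) (mul_mem (hpmem n) (hT'mem n)))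
        (div_mem (mul_mem (hσmem n) (add_mem (pow_mem (hT'mem n) 2) hΔ)) h2mem)) h4
    exact ⟨by linear_combination h5.1, by linear_combination h5.2⟩
  have hne : ∀ n, T' n ^ 2 - Δ ≠ 0 := by
    intro n h
    have h1 : (T' n - δ) * (T' n + δ) = 0 := by rw [hΔd] at h; linear_combination h
    rcases mul_eq_zero.mp h1 with h2 | h2
    · apply hδn
      rw [← sub_eq_zero.mp h2]; exact hT'mem n
    · apply hδn
      have : δ = - T' n := by linear_combination h2
      rw [this]; exact neg_mem (hT'mem n)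
  have heven : ∀ q : K, q ≠ 0 → ∀ (o : ℤ) (l : K), HasLead t q Δ o l → Even o := by
    intro q hq o l hol
    refine even_order ht hs he hN (T := T') (Δ := Δ) (fun n _ => hT'mem n) hΔ ?_ (fun n _ => hne n)
      ?_ ?_ hq hol
    · intro n hn
      rw [hldΔ]
      exact (hboth n (by omega)).1
    · intro n hn
      rw [hldΔ]
      obtain ⟨h1, h2⟩ := hboth n (by omega)
      have h3 : S.D Δ = 2 * ε * Δ := by
        rw [ld_eq S.D hΔ0]
        have : ld S.D Δ = 2 * ε := by rw [← hldΔ]; ring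
        rw [this]
      have h4 : S.D (T' n ^ 2 - Δ) = (p n + ε) * (T' n ^ 2 - Δ) := by
        have h5 : S.D (T' n ^ 2) = 2 * T' n * S.D (T' n) := by
          rw [pow_two, D_mul]; ring
        rw [map_sub, h5, h3, h2]
        linear_combination (T' n ^ 2 + Δ) * (-h1)
      unfold ld
      rw [h4, mul_div_assoc, div_self (hne n), mul_one]
      rfl
    · simp only [hT']
      rw [BB_succ]
      simp only [map_add, bb]
      ring
  obtain ⟨κ, hκ, j, G, hG, hΔG⟩ := eq_square ht hΔ hΔ0 heven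
  obtain ⟨r, hr⟩ := IsAlgClosed.exists_pow_nat_eq κ (show 0 < 2 by norm_num)
  obtain ⟨s, hs2⟩ := IsAlgClosed.exists_pow_nat_eq t (show 0 < 2 by norm_num)
  have hs0 : s ≠ 0 := by
    rintro rfl
    apply ht.ne_zero
    rw [← hs2]; norm_num
  have hDs : S.D s = algebraMap K Ω (β / 2) * s := by
    have h1 : ld S.D t = 2 * ld S.D s := by rw [← hs2, ld_pow S.D hs0]; norm_num
    rw [ht.ld_t] at h1
    rw [ld_eq S.D hs0, map_div₀, map_ofNat, h1]
    ring
  have hsT : IsT S s (β / 2) := ⟨hDs, fun c hc => by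
    apply ht.notMem (c ^ 2)
    rw [map_pow, hc, hs2]⟩
  have hle : Kt K t ≤ Kt K s := by
    apply IntermediateField.adjoin_le_iff.mpr
    rintro x rfl
    rw [← hs2]
    exact pow_mem t_mem_Kt 2
  refine ⟨s, β / 2, hsT, ⟨he.c0, fun n hn => ?_⟩, ?_⟩
  · rw [he.eq n hn]
    have : t ^ (m n) = s ^ (2 * m n) := by
      rw [zpow_mul, ← hs2]; norm_cast
    rw [this]
  · have h1 : δ ^ 2 = (algebraMap K Ω r * s ^ j * G) ^ 2 := by
      have h2 : (s ^ j) ^ 2 = t ^ j := by
        rw [← hs2, ← zpow_natCast, ← zpow_natCast, ← zpow_mul, ← zpow_mul]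
        congr 1; ring
      rw [mul_pow, mul_pow, h2, ← map_pow, hr, ← hΔG]
    have hmem : algebraMap K Ω r * s ^ j * G ∈ Kt K s :=
      mul_mem (mul_mem (alg_mem_Kt _) (zpow_mem t_mem_Kt _)) (hle hG)
    have hδs : δ ∈ Kt K s := by
      rcases sq_eq_sq_iff_eq_or_eq_neg.mp h1 with h | h
      · rw [h]; exact hmem
      · rw [h]; exact neg_mem hmem
    have h3 : a = (δ + T) / 2 := by rw [hδ]; ring
    rw [h3]
    exact div_mem (add_mem hδs (hle hT)) (by exact_mod_cast natCast_mem (Kt K s) 2)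

/-! ### Part 1 -/

/-- coefficient form of the Riccati equation for `a₀`. -/
theorem ric0 (ht : IsT S t β) {N : ℕ} {L M : ℕ → Ω} {c : ℕ → K} {m : ℕ → ℤ}
    (hs : Seq S N L M) (he : EData t N L M c m) {n : ℕ} (hn : n < N) {X : ℕ → Ω}
    (hX : X = fun k => (algebraMap K Ω (c k) * t ^ (m k) - 1)⁻¹) {p σ B : Ω}
    (hp : p = algebraMap K Ω (bb S β c m n) * (1 + X n + X (n+1))) (hσ : σ = X (n+1) - X n)
    (hB : B = algebraMap K Ω (BB S β c m n)) :
    S.D (M 0 - L 0) = σ * (M 0 - L 0) ^ 2 + (2 * σ * B + p) * (M 0 - L 0) +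
      (σ * B ^ 2 + p * B - S.D B) := by
  have h1 := ric ht hs he hn
  rw [A_eq ht hs he n hn.le, map_add] at h1
  subst hp hσ hB
  simp only [hX, bb] at h1 ⊢
  linear_combination h1

theorem part1 (ht : IsT S t β) {N : ℕ} {L M : ℕ → Ω} {c : ℕ → K} {m : ℕ → ℤ}
    (hs : Seq S N L M) (he : EData t N L M c m) {n : ℕ} (hn : n + 2 ≤ N) (hm : m n ≠ 0) :
    M 0 - L 0 ∈ Kt K t ∨ ∃ T ∈ Kt K t, ∃ N₀ ∈ Kt K t,
      (M 0 - L 0) ^ 2 - T * (M 0 - L 0) + N₀ = 0 := by
  set X : ℕ → Ω := fun k => (algebraMap K Ω (c k) * t ^ (m k) - 1)⁻¹ with hX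
  have hXmem : ∀ k, X k ∈ Kt K t := fun k =>
    inv_mem (sub_mem (mul_mem (alg_mem_Kt _) (zpow_mem t_mem_Kt _)) (one_mem _))
  have h2mem : (2:Ω) ∈ Kt K t := by exact_mod_cast natCast_mem (Kt K t) 2
  set a := M 0 - L 0 with had
  set p : ℕ → Ω := fun n => algebraMap K Ω (bb S β c m n) * (1 + X n + X (n+1)) with hp
  set σ : ℕ → Ω := fun n => X (n+1) - X n with hσ
  set B : ℕ → Ω := fun n => algebraMap K Ω (BB S β c m n) with hB
  have hpmem : ∀ n, p n ∈ Kt K t := fun n =>
    mul_mem (alg_mem_Kt _) (add_mem (add_mem (one_mem _) (hXmem _)) (hXmem _))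
  have hσmem : ∀ n, σ n ∈ Kt K t := fun n => sub_mem (hXmem _) (hXmem _)
  have hBmem : ∀ n, B n ∈ Kt K t := fun n => alg_mem_Kt _
  have hr : ∀ k < N, S.D a = σ k * a ^ 2 + (2 * σ k * B k + p k) * a +
      (σ k * B k ^ 2 + p k * B k - S.D (B k)) := fun k hk =>
    ric0 ht hs he hk hX rfl rfl rfl
  set α₂ := σ n - σ (n+1) with hα₂
  set α₁ := (2 * σ n * B n + p n) - (2 * σ (n+1) * B (n+1) + p (n+1)) with hα₁
  set α₀ := (σ n * B n ^ 2 + p n * B n - S.D (B n)) -
    (σ (n+1) * B (n+1) ^ 2 + p (n+1) * B (n+1) - S.D (B (n+1))) with hα₀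
  have hrel : α₂ * a ^ 2 + α₁ * a + α₀ = 0 := by
    have h1 := hr n (by omega)
    have h2 := hr (n+1) (by omega)
    rw [hα₂, hα₁, hα₀]
    linear_combination h2 - h1
  have hα₂m : α₂ ∈ Kt K t := sub_mem (hσmem _) (hσmem _)
  have hcm : ∀ k, 2 * σ k * B k + p k ∈ Kt K t := fun k =>
    add_mem (mul_mem (mul_mem h2mem (hσmem _)) (hBmem _)) (hpmem _)
  have hα₁m : α₁ ∈ Kt K t := sub_mem (hcm _) (hcm _)
  have hdm : ∀ k, σ k * B k ^ 2 + p k * B k - S.D (B k) ∈ Kt K t := fun k =>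
    sub_mem (add_mem (mul_mem (hσmem _) (pow_mem (hBmem _) 2)) (mul_mem (hpmem _) (hBmem _)))
      (D_mem_Kt ht (hBmem _))
  have hα₀m : α₀ ∈ Kt K t := sub_mem (hdm _) (hdm _)
  have hnot : ¬ (α₂ = 0 ∧ α₁ = 0 ∧ α₀ = 0) := by
    rintro ⟨h2, h1, h0⟩
    have hBs : B (n+1) = B n + algebraMap K Ω (bb S β c m n) := by
      simp only [hB]; rw [BB_succ, map_add]
    have hDB : S.D (B (n+1)) = S.D (B n) + algebraMap K Ω (S.d (bb S β c m n)) := by
      rw [hBs, map_add, S.compat (bb S β c m n)]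
    have h3 : α₂ * (- B (n+1)) ^ 2 + α₁ * (- B (n+1)) + α₀ = 0 := by rw [h2, h1, h0]; ring
    have h4 : algebraMap K Ω (S.d (bb S β c m n)) = algebraMap K Ω (bb S β c m n) ^ 2 * (1 + 2 * X n) := by
      have h5 : σ n * (algebraMap K Ω (bb S β c m n)) ^ 2 - p n * algebraMap K Ω (bb S β c m n) +
          algebraMap K Ω (S.d (bb S β c m n)) = 0 := by
        rw [hα₂, hα₁, hα₀, hDB, hBs] at h3
        linear_combination h3
      simp only [hσ, hp] at h5
      linear_combination h5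
    have hbne : bb S β c m n ≠ 0 := mono_b_ne ht (he.c0 n (by omega)) hm
    have hbne' : algebraMap K Ω (bb S β c m n) ≠ 0 := by simpa using hbne
    have hne1 : algebraMap K Ω (c n) * t ^ (m n) ≠ 1 := by
      intro h
      apply hs.ne n (by omega)
      rw [he.eq n (by omega), h, one_mul]
    have hne1' : algebraMap K Ω (c n) * t ^ (m n) - 1 ≠ 0 := sub_ne_zero.mpr hne1
    have hXne : X n ≠ 0 := inv_ne_zero hne1'
    -- X n in K
    have : CharZero Ω := charZero_of_injective_algebraMap (algebraMap K Ω).injective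
    set x : K := (S.d (bb S β c m n) / (bb S β c m n) ^ 2 - 1) / 2 with hx
    have hXx : X n = algebraMap K Ω x := by
      rw [hx]
      simp only [map_div₀, map_sub, map_pow, map_one, map_ofNat]
      rw [h4]
      field_simp
      ring
    have hx0 : x ≠ 0 := by
      intro h
      rw [h, map_zero] at hXx
      exact hXne hXx
    apply mono_notMem ht (he.c0 n (by omega)) hm (1 + x⁻¹)
    rw [map_add, map_one, map_inv₀, ← hXx]
    simp only [hX, inv_inv]
    ring
  by_cases h2 : α₂ = 0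
  · left
    have h1 : α₁ ≠ 0 := by
      intro h1
      apply hnot
      refine ⟨h2, h1, ?_⟩
      rw [h2, h1] at hrel
      linear_combination hrel
    have : a = - α₀ / α₁ := by
      rw [h2] at hrel
      field_simp
      linear_combination hrel
    rw [this]
    exact div_mem (neg_mem hα₀m) hα₁m
  · right
    refine ⟨-α₁ / α₂, div_mem (neg_mem hα₁m) hα₂m, α₀ / α₂, div_mem hα₀m hα₂m, ?_⟩
    field_simp
    linear_combination hrel

/-! ### Part 0 -/

theorem quad_zero {a : Ω} (ha : ∀ c : K, algebraMap K Ω c ≠ a) {x y z : K}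
    (h : algebraMap K Ω x * a ^ 2 + algebraMap K Ω y * a + algebraMap K Ω z = 0) : x = 0 ∧ y = 0 ∧ z = 0 := by
  have htr : Transcendental K a := by
    intro halg
    obtain ⟨c, hc⟩ := mem_of_isAlgebraic halg
    exact ha c hc
  have h1 : C x * X ^ 2 + C y * X + C z = 0 := by
    apply (transcendental_iff.mp htr)
    simpa using h
  refine ⟨?_, ?_, ?_⟩
  · have := congrArg (fun P => coeff P 2) h1
    simpa [coeff_X, coeff_C] using this
  · have := congrArg (fun P => coeff P 1) h1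
    simpa [coeff_X, coeff_C] using this
  · have := congrArg (fun P => coeff P 0) h1
    simpa [coeff_X, coeff_C] using this

theorem three_sol {a : Ω} (ha : ∀ c : K, algebraMap K Ω c ≠ a) {P Q R : K}
    (hD : S.D a = algebraMap K Ω P * a ^ 2 + algebraMap K Ω Q * a + algebraMap K Ω R) {y : Fin 3 → K}
    (hy : ∀ i, S.d (y i) = P * y i ^ 2 + Q * y i + R) (h01 : y 0 ≠ y 1) (h12 : y 1 ≠ y 2)
    (h02 : y 0 ≠ y 2) : False := by
  have hsub : ∀ i, a - algebraMap K Ω (y i) ≠ 0 := fun i => sub_ne_zero.mpr (ha (y i)).symm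
  have hld : ∀ i, ld S.D (a - algebraMap K Ω (y i)) = algebraMap K Ω P * (a + algebraMap K Ω (y i)) + algebraMap K Ω Q := by
    intro i
    unfold ld
    have h1 := hsub i
    rw [map_sub, hD, S.compat, hy i]
    simp only [map_add, map_mul, map_pow]
    field_simp
    ring
  have hldK : ∀ i j, y i ≠ y j → ld S.D (algebraMap K Ω (y i - y j)) = algebraMap K Ω P * (algebraMap K Ω (y i) + algebraMap K Ω (y j)) + algebraMap K Ω Q := by
    intro i j hij
    have h1 : algebraMap K Ω (y i) - algebraMap K Ω (y j) ≠ 0 := by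
      rw [← map_sub]; exact (map_ne_zero (algebraMap K Ω)).mpr (sub_ne_zero.mpr hij)
    unfold ld
    rw [S.compat, map_sub, hy i, hy j]
    simp only [map_add, map_mul, map_pow, map_sub]
    field_simp
    ring
  have h10 : algebraMap K Ω (y 1 - y 0) ≠ 0 := (map_ne_zero (algebraMap K Ω)).mpr (sub_ne_zero.mpr h01.symm)
  have h12' : algebraMap K Ω (y 1 - y 2) ≠ 0 := (map_ne_zero (algebraMap K Ω)).mpr (sub_ne_zero.mpr h12)
  set x := (a - algebraMap K Ω (y 0)) / (a - algebraMap K Ω (y 2)) * (algebraMap K Ω (y 1 - y 2) / algebraMap K Ω (y 1 - y 0)) with hx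
  have hx0 : x ≠ 0 := mul_ne_zero (div_ne_zero (hsub 0) (hsub 2)) (div_ne_zero h12' h10)
  have hldx : ld S.D x = 0 := by
    rw [hx, ld_mul S.D (div_ne_zero (hsub 0) (hsub 2)) (div_ne_zero h12' h10),
      ld_div S.D (hsub 0) (hsub 2), ld_div S.D h12' h10, hld, hld, hldK 1 2 h12, hldK 1 0 h01.symm]
    ring
  have hDx : S.D x = 0 := by rw [ld_eq S.D hx0, hldx, zero_mul]
  obtain ⟨k, hk⟩ := S.const _ hDx
  set k' := k * (y 1 - y 0) / (y 1 - y 2) with hk'
  have h12K : y 1 - y 2 ≠ 0 := sub_ne_zero.mpr h12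
  have h10K : y 1 - y 0 ≠ 0 := sub_ne_zero.mpr h01.symm
  have h3 : a - algebraMap K Ω (y 0) = algebraMap K Ω k' * (a - algebraMap K Ω (y 2)) := by
    rw [hk', map_div₀, map_mul, hk, hx]
    have := hsub 2
    field_simp
  have hk1 : 1 - k' ≠ 0 := by
    intro h
    have h4 : k' = 1 := by linear_combination -h
    rw [h4, map_one, one_mul] at h3
    apply h02
    apply (algebraMap K Ω).injective
    linear_combination -h3
  apply ha ((y 0 - k' * y 2) / (1 - k'))
  have hk1' : 1 - algebraMap K Ω k' ≠ 0 := by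
    rw [← map_one (algebraMap K Ω), ← map_sub]; exact (map_ne_zero (algebraMap K Ω)).mpr hk1
  rw [map_div₀, map_sub, map_mul, map_sub, map_one, div_eq_iff hk1']
  linear_combination -h3

theorem part0 (ht : IsT S t β) {N : ℕ} {L M : ℕ → Ω} {c : ℕ → K} {m : ℕ → ℤ}
    (hs : Seq S N L M) (he : EData t N L M c m) (hN : 5 ≤ N) (hm : ∀ n ≤ 5, m n = 0)
    {z : K} (hz : S.d z = 1) : ∃ α : K, algebraMap K Ω α = M 0 - L 0 := by
  by_contra hcon
  push Not at hcon
  set a := M 0 - L 0 with had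
  set ξ : ℕ → K := fun k => (c k - 1)⁻¹ with hξ
  set b : ℕ → K := fun k => bb S β c m k with hb
  set B : ℕ → K := fun k => BB S β c m k with hB
  have hc1 : ∀ k ≤ 5, c k - 1 ≠ 0 := by
    intro k hk h
    apply hs.ne k (by omega)
    rw [he.eq k (by omega), hm k hk, sub_eq_zero.mp h]
    simp
  have hX : ∀ k ≤ 5, (algebraMap K Ω (c k) * t ^ (m k) - 1)⁻¹ = algebraMap K Ω (ξ k) := by
    intro k hk
    rw [hm k hk]
    simp [hξ]
  have hbc : ∀ k ≤ 5, S.d (c k) = b k * c k := by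
    intro k hk
    have := he.c0 k (by omega)
    simp only [hb, bb, hm k hk]
    push_cast
    field_simp
    ring
  have hdξ : ∀ k ≤ 5, S.d (ξ k) = - b k * ξ k * (1 + ξ k) := by
    intro k hk
    have h1 := hc1 k hk
    have h2 : ξ k * (c k - 1) = 1 := by simp only [hξ]; field_simp
    have h3 := congrArg S.d h2
    rw [Derivation.leibniz, map_sub, Derivation.map_one_eq_zero, hbc k hk] at h3
    simp only [smul_eq_mul, sub_zero] at h3
    have h4 : S.d (ξ k) = - ξ k * (b k * c k) / (c k - 1) := by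
      field_simp
      linear_combination h3
    rw [h4]
    have h5 : ξ k = (c k - 1)⁻¹ := rfl
    rw [h5]
    field_simp
    ring
  have hξ0 : ∀ k ≤ 5, ξ k ≠ 0 := fun k hk => inv_ne_zero (hc1 k hk)
  have hξ1 : ∀ k ≤ 5, 1 + ξ k ≠ 0 := by
    intro k hk h
    have h1 := hc1 k hk
    have h2 : ξ k * (c k - 1) = 1 := by simp only [hξ]; field_simp
    apply he.c0 k (by omega)
    have h3 : ξ k = -1 := by linear_combination h
    rw [h3] at h2
    linear_combination -h2
  have hBs : ∀ k, B (k+1) = B k + b k := fun k => BB_succ c m k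
  -- coefficients
  set P : ℕ → K := fun n => ξ (n+1) - ξ n with hP
  set p : ℕ → K := fun n => b n * (1 + ξ n + ξ (n+1)) with hp
  have hr : ∀ n ≤ 4, S.D a = algebraMap K Ω (P n) * a ^ 2 + algebraMap K Ω (2 * P n * B n + p n) * a +
      algebraMap K Ω (P n * B n ^ 2 + p n * B n - S.d (B n)) := by
    intro n hn
    have h1 := ric0 ht hs he (show n < N by omega) rfl rfl rfl rfl
    simp only [hX n (by omega), hX (n+1) (by omega)] at h1
    rw [h1, S.compat]
    simp only [hP, hp, hB, hb, map_add, map_sub, map_mul, map_pow, map_one, map_ofNat]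
    ring
  have heqs : ∀ n ≤ 3, P (n+1) = P n ∧
      2 * P (n+1) * B (n+1) + p (n+1) = 2 * P n * B n + p n ∧
      P (n+1) * B (n+1) ^ 2 + p (n+1) * B (n+1) - S.d (B (n+1)) =
        P n * B n ^ 2 + p n * B n - S.d (B n) := by
    intro n hn
    have h1 := hr n (by omega)
    have h2 := hr (n+1) (by omega)
    have h3 := quad_zero hcon (x := P (n+1) - P n)
      (y := (2 * P (n+1) * B (n+1) + p (n+1)) - (2 * P n * B n + p n))
      (z := (P (n+1) * B (n+1) ^ 2 + p (n+1) * B (n+1) - S.d (B (n+1))) -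
        (P n * B n ^ 2 + p n * B n - S.d (B n)))
      (by
        rw [map_sub (algebraMap K Ω) (P (n+1)), map_sub (algebraMap K Ω) (2 * P (n+1) * B (n+1) + p (n+1)),
          map_sub (algebraMap K Ω) (P (n+1) * B (n+1) ^ 2 + p (n+1) * B (n+1) - S.d (B (n+1)))]
        linear_combination h1 - h2)
    exact ⟨sub_eq_zero.mp h3.1, sub_eq_zero.mp h3.2.1, sub_eq_zero.mp h3.2.2⟩
  -- common coefficients
  set Pc := P 0 with hPc
  set Qc := 2 * P 0 * B 0 + p 0 with hQc
  set Rc := P 0 * B 0 ^ 2 + p 0 * B 0 - S.d (B 0) with hRc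
  have hcommon : ∀ n ≤ 4, P n = Pc ∧ 2 * P n * B n + p n = Qc ∧
      P n * B n ^ 2 + p n * B n - S.d (B n) = Rc := by
    intro n
    induction n with
    | zero => exact fun _ => ⟨rfl, rfl, rfl⟩
    | succ n ih =>
      intro hn
      obtain ⟨h1, h2, h3⟩ := ih (by omega)
      obtain ⟨g1, g2, g3⟩ := heqs n (by omega)
      exact ⟨g1.trans h1, g2.trans h2, g3.trans h3⟩
  have hsol : ∀ n ≤ 4, S.d (- B n) = Pc * (- B n) ^ 2 + Qc * (- B n) + Rc := by
    intro n hn
    obtain ⟨h1, h2, h3⟩ := hcommon n hn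
    rw [← h1, ← h2, ← h3, map_neg]
    ring
  have hDa : S.D a = algebraMap K Ω Pc * a ^ 2 + algebraMap K Ω Qc * a + algebraMap K Ω Rc := hr 0 (by omega)
  have hthree : ∀ i j k, i ≤ 4 → j ≤ 4 → k ≤ 4 → B i ≠ B j → B j ≠ B k → B i ≠ B k → False := by
    intro i j k hi hj hk hij hjk hik
    refine three_sol hcon hDa (y := ![- B i, - B j, - B k]) ?_ ?_ ?_ ?_
    · intro l
      fin_cases l
      · exact hsol i hi
      · exact hsol j hj
      · exact hsol k hk
    · simpa using hij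
    · simpa using hjk
    · simpa using hik
  -- (Q)
  have hQ : ∀ n ≤ 3, b n * (1 + 2 * ξ n - Pc) = b (n+1) * (1 + 2 * ξ n + 3 * Pc) := by
    intro n hn
    obtain ⟨h1, h2, h3⟩ := hcommon n (by omega)
    obtain ⟨g1, g2, g3⟩ := hcommon (n+1) (by omega)
    have e1 : ξ (n+1) = ξ n + Pc := by rw [← h1]; simp only [hP]; ring
    have e2 : ξ (n+1+1) = ξ n + 2 * Pc := by
      have : ξ (n+1+1) = ξ (n+1) + Pc := by rw [← g1]; simp only [hP]; ring
      rw [this, e1]; ring
    have h4 := h2.trans g2.symm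
    simp only [hp] at h4
    rw [h1, g1, hBs n, e2, e1] at h4
    linear_combination h4
  have hxi : ∀ n ≤ 4, ξ (n+1) = ξ n + Pc := by
    intro n hn
    rw [← (hcommon n hn).1]; simp only [hP]; ring
  have C1 : ∀ n ≤ 3, b n ≠ 0 → b (n+1) = 0 → False := by
    intro n hn h0 h1
    have h2 := hQ n hn
    rw [h1, zero_mul] at h2
    have h3 := (mul_eq_zero.mp h2).resolve_left h0
    have h4 : ξ (n+1) = 3 * ξ n + 1 := by rw [hxi n (by omega)]; linear_combination -h3
    have h5 := hdξ (n+1) (by omega)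
    rw [h1, h4] at h5
    have h6 : S.d (3 * ξ n + 1) = 3 * S.d (ξ n) := by
      have h3' : S.d (3:K) = 0 := by exact_mod_cast Derivation.map_natCast S.d 3
      rw [map_add, Derivation.leibniz, Derivation.map_one_eq_zero, h3']
      simp
    rw [h6, hdξ n (by omega)] at h5
    have h7 : b n * ξ n * (1 + ξ n) = 0 := by
      have h8 : (3:K) * (b n * ξ n * (1 + ξ n)) = 0 := by linear_combination -h5
      exact (mul_eq_zero.mp h8).resolve_left (by norm_num)
    exact mul_ne_zero (mul_ne_zero h0 (hξ0 n (by omega))) (hξ1 n (by omega)) h7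
  have C2 : ∀ n ≤ 3, b n ≠ 0 → b (n+1) = - b n → 1 + 2 * ξ n = - Pc := by
    intro n hn h0 h1
    have h2 := hQ n hn
    rw [h1] at h2
    have h3 : b n * (2 * (1 + 2 * ξ n + Pc)) = 0 := by linear_combination h2
    have h4 := (mul_eq_zero.mp h3).resolve_left h0
    have h5 := (mul_eq_zero.mp h4).resolve_left (by norm_num)
    linear_combination h5
  have C3 : ∀ n ≤ 2, b n ≠ 0 → b (n+1) = 0 ∨ b (n+1) = - b n := by
    intro n hn h0
    by_contra hne
    push Not at hne
    refine hthree n (n+1) (n+2) (by omega) (by omega) (by omega) ?_ ?_ ?_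
    · rw [hBs n]; intro h; exact h0 (by linear_combination -h)
    · rw [show n + 2 = n + 1 + 1 by ring, hBs (n+1)]; intro h; exact hne.1 (by linear_combination -h)
    · rw [show n + 2 = n + 1 + 1 by ring, hBs (n+1), hBs n]; intro h
      exact hne.2 (by linear_combination -h)
  have C4 : ∀ n ≤ 1, b n ≠ 0 → False := by
    intro n hn h0
    rcases C3 n (by omega) h0 with h1 | h1
    · exact C1 n (by omega) h0 h1
    · have h0' : b (n+1) ≠ 0 := by rw [h1]; exact neg_ne_zero.mpr h0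
      rcases C3 (n+1) (by omega) h0' with h2 | h2
      · exact C1 (n+1) (by omega) h0' h2
      · have h3 := C2 n (by omega) h0 h1
        have h4 := C2 (n+1) (by omega) h0' h2
        have h5 : Pc = 0 := by
          have := hxi n (by omega)
          rw [this] at h4
          have h6 : (2:K) * Pc = 0 := by linear_combination h4 - h3
          exact (mul_eq_zero.mp h6).resolve_left (by norm_num)
        rw [h5, neg_zero] at h3
        have h6 : ξ n = - 1 / 2 := by linear_combination h3 / 2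
        have h7 := hdξ n (by omega)
        have h8 : S.d (ξ n) = 0 := by
          have h9 : S.d (1 + 2 * ξ n) = 2 * S.d (ξ n) := by
            have h2' : S.d (2:K) = 0 := by exact_mod_cast Derivation.map_natCast S.d 2
            rw [map_add, Derivation.leibniz, Derivation.map_one_eq_zero, h2']
            simp
          rw [h3, map_zero] at h9
          exact (mul_eq_zero.mp h9.symm).resolve_left (by norm_num)
        rw [h8] at h7
        have h9 : b n * ξ n * (1 + ξ n) = 0 := by linear_combination h7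
        exact mul_ne_zero (mul_ne_zero h0 (hξ0 n (by omega))) (hξ1 n (by omega)) h9
  have hb0 : b 0 = 0 := by by_contra h; exact C4 0 (by omega) h
  have hb1 : b 1 = 0 := by by_contra h; exact C4 1 (by omega) h
  -- all zero
  have hB0 : B 0 = 0 := by simp [hB, BB]
  have hQ0 : Qc = 0 := by rw [hQc, hB0]; simp only [hp]; rw [hb0]; ring
  have hR0 : Rc = 0 := by rw [hRc, hB0]; simp
  have hdP : S.d Pc = 0 := by
    have h1 : Pc = ξ 1 - ξ 0 := rfl
    rw [h1, map_sub, hdξ 1 (by omega), hdξ 0 (by omega), hb0, hb1]; ring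
  have ha0 : a ≠ 0 := by
    intro h
    exact hcon 0 (by rw [map_zero, h])
  rw [hQ0, hR0, map_zero, zero_mul, add_zero, add_zero] at hDa
  have h1 : S.D (a⁻¹ + algebraMap K Ω (Pc * z)) = 0 := by
    rw [map_add, D_inv S.D ha0, hDa, S.compat, Derivation.leibniz, hz, hdP]
    simp only [smul_eq_mul, mul_one, mul_zero, add_zero]
    field_simp
    ring
  obtain ⟨k, hk⟩ := S.const _ h1
  apply hcon ((k - Pc * z)⁻¹)
  rw [map_inv₀, map_sub, hk]
  rw [add_sub_cancel_right, inv_inv]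

/-- **ALG**. -/
theorem alg [IsAlgClosed Ω] (ht : IsT S t β) {N : ℕ} {L M : ℕ → Ω} {c : ℕ → K} {m : ℕ → ℤ}
    (hs : Seq S N L M) (he : EData t N L M c m) (hN : 12 ≤ N) (hm : ∃ n ≤ N, m n ≠ 0)
    {z : K} (hz : S.d z = 1) : M 1 - L 1 = 2 * (M 0 - L 0) := by
  -- reduce to a₀ ∈ K(t)
  have key : ∀ {t : Ω} {β : K} {m : ℕ → ℤ}, IsT S t β → EData t N L M c m → (∃ n ≤ N, m n ≠ 0) →
      M 0 - L 0 ∈ Kt K t → M 1 - L 1 = 2 * (M 0 - L 0) := by
    intro t β m ht he hm ha
    refine part3 ht hs he hN (fun n hn => ?_) hm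
    have hEne : algebraMap K Ω (c n) * t ^ (m n) - 1 ≠ 0 := by
      intro h
      apply hs.ne n hn
      rw [he.eq n hn, sub_eq_zero.mp h, one_mul]
    have h1 : L n = (M n - L n) * (algebraMap K Ω (c n) * t ^ (m n) - 1)⁻¹ := by
      rw [he.eq n hn]
      field_simp
    rw [h1, A_eq ht hs he n hn]
    exact mul_mem (add_mem ha (alg_mem_Kt _))
      (inv_mem (sub_mem (mul_mem (alg_mem_Kt _) (zpow_mem t_mem_Kt _)) (one_mem _)))
  by_cases h5 : ∀ n ≤ 5, m n = 0
  · obtain ⟨α, hα⟩ := part0 ht hs he (by omega) h5 hz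
    exact key ht he hm (by rw [← hα]; exact alg_mem_Kt _)
  · push Not at h5
    obtain ⟨n, hn, hmn⟩ := h5
    rcases part1 ht hs he (n := n) (by omega) hmn with h | ⟨T, hT, N₀, hN₀, hq⟩
    · exact key ht he hm h
    · by_cases ha : M 0 - L 0 ∈ Kt K t
      · exact key ht he hm ha
      · obtain ⟨s, β', hsT, hes, has⟩ := part2 ht hs he (by omega) hT hN₀ hq ha
        refine key hsT hes ?_ has
        obtain ⟨k, hk, hmk⟩ := hm
        exact ⟨k, hk, by simp [hmk]⟩

end ac
end
end Pool.Agent.Hhelper32.Bcf
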