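import Pool.Agent.Hhelper32.Bcf.Kt

set_option autoImplicit false
set_option linter.unusedSectionVars false
set_option linter.unusedVariables false

open Polynomial

namespace Pool.Agent.Hhelper32.Bcf

section
variable {K Ω : Type*} [Field K] [Field Ω] [Algebra K Ω]


structure Seq (S : DExt K Ω) (N : ℕ) (L M : ℕ → Ω) : Prop where
  L0 : ∀ n ≤ N, L n ≠ 0
  M0 : ∀ n ≤ N, M n ≠ 0
  ne : ∀ n ≤ N, M n ≠ L n
  Ls : ∀ n < N, L (n+1) = L n + ld S.D (L n)
  Ms : ∀ n < N, M (n+1) = M n + ld S.D (M n)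

structure EData (t : Ω) (N : ℕ) (L M : ℕ → Ω) (c : ℕ → K) (m : ℕ → ℤ) : Prop where
  c0 : ∀ n ≤ N, c n ≠ 0
  eq : ∀ n ≤ N, M n = algebraMap K Ω (c n) * t ^ (m n) * L n

theorem Seq.swap {S : DExt K Ω} {N : ℕ} {L M : ℕ → Ω} (h : Seq S N L M) : Seq S N M L :=
  ⟨h.M0, h.L0, fun n hn => (h.ne n hn).symm, h.Ms, h.Ls⟩

theorem Seq.shift {S : DExt K Ω} {N k : ℕ} {L M : ℕ → Ω} (h : Seq S (N + k) L M) :
    Seq S N (fun n => L (n + k)) (fun n => M (n + k)) :=
  ⟨fun n hn => h.L0 _ (by omega), fun n hn => h.M0 _ (by omega), fun n hn => h.ne _ (by omega),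
    fun n hn => by
      have := h.Ls (n + k) (by omega)
      rw [show n + 1 + k = n + k + 1 by ring, this],
    fun n hn => by
      have := h.Ms (n + k) (by omega)
      rw [show n + 1 + k = n + k + 1 by ring, this]⟩

theorem EData.inv {t : Ω} {N : ℕ} {L M : ℕ → Ω} {c : ℕ → K} {m : ℕ → ℤ}
    (h : EData t N L M c m) : EData t⁻¹ N L M c (fun n => - m n) :=
  ⟨h.c0, fun n hn => by
    rw [h.eq n hn]
    simp⟩

theorem EData.swap {t : Ω} (ht : t ≠ 0) {N : ℕ} {L M : ℕ → Ω} {c : ℕ → K} {m : ℕ → ℤ}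
    (h : EData t N L M c m) : EData t N M L (fun n => (c n)⁻¹) (fun n => - m n) :=
  ⟨fun n hn => inv_ne_zero (h.c0 n hn), fun n hn => by
    have h1 : algebraMap K Ω (c n) ≠ 0 := by simpa using h.c0 n hn
    have h2 : t ^ (m n) ≠ 0 := zpow_ne_zero _ ht
    rw [h.eq n hn]
    simp only [map_inv₀, zpow_neg]
    field_simp⟩

section ac
variable [IsAlgClosed K] {S : DExt K Ω} {t : Ω} {β : K}

theorem tzpow_lead (ht : IsT S t β) (n : ℤ) : HasLead t 0 (t ^ n) n (1 : K) :=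
  (HasLead.tsub_zpow (c := (0:K)) ht n).congr (by simp) rfl rfl

theorem mono_lead (ht : IsT S t β) {c : K} (hc : c ≠ 0) (n : ℤ) :
    HasLead t 0 (algebraMap K Ω c * t ^ n) n c :=
  ((HasLead.const (t := t) (c := 0) hc).mul ht (tzpow_lead ht n)).congr rfl (zero_add n) (mul_one c)

theorem mono_lead_inv (ht : IsT S t β) {c : K} (hc : c ≠ 0) (n : ℤ) :
    HasLead t⁻¹ 0 (algebraMap K Ω c * t ^ n) (-n) c :=
  (mono_lead ht.inv hc (-n)).congr (by simp) rfl rfl

theorem mono_regAt (ht : IsT S t β) {c a : K} (ha : a ≠ 0) (n : ℤ) :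
    RegAt K t a (algebraMap K Ω c * t ^ n) (c * a ^ n) :=
  (RegAt.const c).mul (RegAt.self.zpow ht ha n)

/-- log-derivative of `c t^m`. -/
theorem ld_mono (ht : IsT S t β) {c : K} (hc : c ≠ 0) (n : ℤ) :
    ld S.D (algebraMap K Ω c * t ^ n) = algebraMap K Ω (S.d c / c + n * β) := by
  have hc' : algebraMap K Ω c ≠ 0 := by simpa using hc
  rw [ld_mul S.D hc' (zpow_ne_zero _ ht.ne_zero), ld_zpow S.D ht.ne_zero, ht.ld_t]
  unfold ld
  rw [S.compat]
  simp

theorem mono_notMem (ht : IsT S t β) {c : K} (hc : c ≠ 0) {n : ℤ} (hn : n ≠ 0) (a : K) :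
    algebraMap K Ω a ≠ algebraMap K Ω c * t ^ n := by
  intro h
  have hc' : algebraMap K Ω c ≠ 0 := by simpa using hc
  apply ht.zpow_notMem hn (a / c)
  rw [map_div₀, h]
  field_simp

theorem mono_b_ne (ht : IsT S t β) {c : K} (hc : c ≠ 0) {n : ℤ} (hn : n ≠ 0) :
    S.d c / c + n * β ≠ 0 := by
  intro h
  have h1 := ld_mono ht hc n
  rw [h, map_zero] at h1
  have hc' : algebraMap K Ω c ≠ 0 := by simpa using hc
  have hne : algebraMap K Ω c * t ^ n ≠ 0 := mul_ne_zero hc' (zpow_ne_zero _ ht.ne_zero)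
  have h2 : S.D (algebraMap K Ω c * t ^ n) = 0 := by rw [ld_eq S.D hne, h1, zero_mul]
  obtain ⟨a, ha⟩ := S.const _ h2
  exact mono_notMem ht hc hn a ha

theorem mono_inj (ht : IsT S t β) {c c' : K} (hc : c ≠ 0) (hc' : c' ≠ 0) {n n' : ℤ}
    (h : algebraMap K Ω c * t ^ n = algebraMap K Ω c' * t ^ n') : c = c' ∧ n = n' := by
  have h1 := mono_lead ht hc n
  have h2 := (mono_lead ht hc' n').congr h.symm rfl rfl
  have := h1.unique ht h2
  exact ⟨this.2, this.1⟩

/-! ### Lemma EQ -/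

theorem eq_step (ht : IsT S t β) {L₀ M₀ L₁ M₁ E : Ω} {b : K} (hL₀ : L₀ ≠ 0) (hE0 : E ≠ 0)
    (hE1 : E ≠ 1) (hb : ld S.D E = algebraMap K Ω b) (h0 : M₀ = E * L₀) (h1 : M₁ = E * L₁)
    (hL : L₁ = L₀ + ld S.D L₀) (hM : M₁ = M₀ + ld S.D M₀) :
    ld S.D L₀ = algebraMap K Ω b / (E - 1) ∧ ∃ κ : K, κ ≠ 0 ∧ S.d κ = 0 ∧ L₀ = algebraMap K Ω κ * ((E - 1) / E) := by
  have hE1' : E - 1 ≠ 0 := sub_ne_zero.mpr hE1
  have h2 : ld S.D M₀ = algebraMap K Ω b + ld S.D L₀ := by rw [h0, ld_mul S.D hE0 hL₀, hb]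
  have h3 : (E - 1) * ld S.D L₀ = algebraMap K Ω b := by
    have : E * L₁ = E * L₀ + (algebraMap K Ω b + ld S.D L₀) := by rw [← h1, hM, h2, h0]
    rw [hL] at this
    linear_combination this
  have h4 : ld S.D L₀ = algebraMap K Ω b / (E - 1) := by
    rw [eq_div_iff hE1']; linear_combination h3
  refine ⟨h4, ?_⟩
  have h5 : ld S.D (E - 1) = algebraMap K Ω b * E / (E - 1) := by
    unfold ld
    have h6 : S.D E = algebraMap K Ω b * E := by rw [ld_eq S.D hE0, hb]
    rw [map_sub, h6, Derivation.map_one_eq_zero, sub_zero]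
  set k := L₀ * (E / (E - 1)) with hk
  have hk0 : k ≠ 0 := mul_ne_zero hL₀ (div_ne_zero hE0 hE1')
  have h7 : ld S.D k = 0 := by
    rw [hk, ld_mul S.D hL₀ (div_ne_zero hE0 hE1'), ld_div S.D hE0 hE1', h4, hb, h5]
    field_simp
    ring
  have h8 : S.D k = 0 := by rw [ld_eq S.D hk0, h7, zero_mul]
  obtain ⟨κ, hκ⟩ := S.const _ h8
  refine ⟨κ, ?_, ?_, ?_⟩
  · rintro rfl
    rw [map_zero] at hκ
    exact hk0 hκ.symm
  · rw [← hκ, S.compat] at h8
    simpa using h8
  · rw [hκ, hk]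
    field_simp

theorem eq_aux (ht : IsT S t β) {N : ℕ} {L M : ℕ → Ω} {c : ℕ → K} {m : ℕ → ℤ}
    (hs : Seq S N L M) (he : EData t N L M c m) {n : ℕ} (hn : n + 2 ≤ N)
    (hc : c (n+1) = c n) (hm : m (n+1) = m n) (hneg : m n < 0) : False := by
  set E := algebraMap K Ω (c n) * t ^ (m n) with hE
  have hcn := he.c0 n (by omega)
  have hm0 : m n ≠ 0 := by omega
  have hEne0 : E ≠ 0 := mul_ne_zero (by simpa using hcn) (zpow_ne_zero _ ht.ne_zero)
  have hEne1 : E ≠ 1 := by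
    intro h
    have := mono_notMem ht hcn hm0 1
    rw [map_one] at this
    exact this h.symm
  have hE1' : E - 1 ≠ 0 := sub_ne_zero.mpr hEne1
  set b := S.d (c n) / c n + m n * β with hb
  have hb0 : b ≠ 0 := mono_b_ne ht hcn hm0
  have hldE : ld S.D E = algebraMap K Ω b := ld_mono ht hcn (m n)
  have hM0 : M n = E * L n := he.eq n (by omega)
  have hM1 : M (n+1) = E * L (n+1) := by rw [he.eq (n+1) (by omega), hc, hm]
  have hL0 := hs.L0 n (by omega)
  have hL1 := hs.L0 (n+1) (by omega)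
  obtain ⟨hldL, κ, hκ0, hdκ, hLκ⟩ := eq_step ht hL0 hEne0 hEne1 hldE hM0 hM1
    (hs.Ls n (by omega)) (hs.Ms n (by omega))
  -- leads at 0
  have lE : HasLead t 0 E (m n) (c n) := mono_lead ht hcn (m n)
  have lE1 : HasLead t 0 (E - 1) (m n) (c n) := by
    have h1 : RegS t 0 (-1 : Ω) (m n) (0:K) := by
      have := (RegS.const (K := K) (t := t) (c := 0) (-1)).mono ht hneg
      exact this.congr (by simp) rfl rfl
    exact (lE.add_regS h1).congr (by ring) rfl rfl
  have lL0 : HasLead t 0 (L n) 0 κ := by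
    rw [hLκ]
    exact ((HasLead.const hκ0).mul ht (lE1.div ht lE)).congr rfl (by ring) (by field_simp)
  have lL1 : HasLead t 0 (L (n+1)) 0 κ := by
    rw [hs.Ls n (by omega), hldL]
    apply lL0.add_regS
    have h2 : HasLead t 0 (algebraMap K Ω b / (E - 1)) (0 - m n) (b / c n) := (HasLead.const hb0).div ht lE1
    exact RegS.mono ht h2.2 (by omega)
  have lL2 : HasLead t 0 (L (n+2)) 0 κ := by
    rw [show n + 2 = n + 1 + 1 by ring, hs.Ls (n+1) (by omega)]
    apply lL1.add_regS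
    have h2 := lL1.ld_zero ht
    exact (RegS.of_regAt h2).congr rfl rfl (by rw [hdκ]; simp)
  have lM0 : HasLead t 0 (M n) (m n) (c n * κ) := by
    rw [hM0]
    exact (lE.mul ht lL0).congr rfl (by ring) rfl
  have lM1 : HasLead t 0 (M (n+1)) (m n) (c n * κ) := by
    rw [hs.Ms n (by omega)]
    apply lM0.add_regS
    exact RegS.mono ht (RegS.of_regAt (lM0.ld_zero ht)) hneg
  have lM2 : HasLead t 0 (M (n+2)) (m n) (c n * κ) := by
    rw [show n + 2 = n + 1 + 1 by ring, hs.Ms (n+1) (by omega)]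
    apply lM1.add_regS
    exact RegS.mono ht (RegS.of_regAt (lM1.ld_zero ht)) hneg
  have lM2' : HasLead t 0 (M (n+2)) (m (n+2)) (c (n+2) * κ) := by
    rw [he.eq (n+2) hn]
    exact ((mono_lead ht (he.c0 (n+2) hn) (m (n+2))).mul ht lL2).congr rfl (by ring) rfl
  obtain ⟨h3, h4⟩ := lM2'.unique ht lM2
  have h5 : c (n+2) = c n := mul_right_cancel₀ hκ0 h4
  have hM2 : M (n+1+1) = E * L (n+1+1) := by
    rw [show n + 1 + 1 = n + 2 by ring, he.eq (n+2) hn, h3, h5]
  obtain ⟨-, κ', hκ'0, hdκ', hLκ'⟩ := eq_step ht hL1 hEne0 hEne1 hldE hM1 hM2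
    (hs.Ls (n+1) (by omega)) (hs.Ms (n+1) (by omega))
  have h6 : algebraMap K Ω κ * ((E - 1) / E) + algebraMap K Ω b / (E - 1) = algebraMap K Ω κ' * ((E - 1) / E) := by
    rw [← hLκ', hs.Ls n (by omega), hldL, hLκ]
  have h7 : algebraMap K Ω b * E = algebraMap K Ω (κ' - κ) * (E - 1) ^ 2 := by
    rw [map_sub]
    field_simp at h6
    linear_combination h6
  have l1 : HasLead t 0 (algebraMap K Ω b * E) (m n) (b * c n) :=
    ((HasLead.const hb0).mul ht lE).congr rfl (by ring) rfl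
  by_cases hkk : κ' - κ = 0
  · rw [hkk, map_zero, zero_mul] at h7
    exact l1.ne_zero ht h7
  · have l2 := (HasLead.const (t := t) (c := 0) hkk).mul ht (lE1.pow ht 2)
    rw [← h7] at l2
    have := (l1.unique ht l2).1
    push_cast at this
    omega

theorem eq_lemma (ht : IsT S t β) {N : ℕ} {L M : ℕ → Ω} {c : ℕ → K} {m : ℕ → ℤ}
    (hs : Seq S N L M) (he : EData t N L M c m) {n : ℕ} (hn : n + 2 ≤ N)
    (hc : c (n+1) = c n) (hm : m (n+1) = m n) : m n = 0 := by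
  rcases lt_trichotomy (m n) 0 with h | h | h
  · exact (eq_aux ht hs he hn hc hm h).elim
  · exact h
  · exact (eq_aux ht.inv hs he.inv hn hc (by rw [hm]) (by omega)).elim

/-! ### The place dichotomy -/

/-- the state: `q = Dy/y` with `y ∉ K`. -/
def St (S : DExt K Ω) (q : K) : Prop := ∃ y : Ω, y ≠ 0 ∧ (∀ c : K, algebraMap K Ω c ≠ y) ∧ S.D y = algebraMap K Ω q * y

theorem St.ne_zero {q : K} (h : St S q) : q ≠ 0 := by
  rintro rfl
  obtain ⟨y, hy0, hy, hD⟩ := h
  rw [map_zero, zero_mul] at hD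
  obtain ⟨c, hc⟩ := S.const _ hD
  exact hy c hc

theorem St.next {q : K} (h : St S q) : St S (q + S.d q / q) := by
  have hq := h.ne_zero
  have hq' : algebraMap K Ω q ≠ 0 := by simpa using hq
  obtain ⟨y, hy0, hy, hD⟩ := h
  refine ⟨algebraMap K Ω q * y, mul_ne_zero hq' hy0, fun c hc => hy (c / q) ?_, ?_⟩
  · rw [map_div₀, hc]; field_simp
  · rw [D_mul, hD, S.compat, map_add, map_div₀]
    field_simp
    ring

theorem place_dich (ht : IsT S t β) [CharZero K] {N : ℕ} {L : ℕ → Ω} (hL0 : ∀ n ≤ N, L n ≠ 0)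
    (hLs : ∀ n < N, L (n+1) = L n + ld S.D (L n)) (hKt : ∀ n ≤ N, L n ∈ Kt K t) :
    (∃ o : ℤ, o < 0 ∧ ∃ l : K, ∀ n ≤ N, HasLead t 0 (L n) o l) ∨
    ((∀ n ≤ N, ∃ o : ℤ, 0 ≤ o ∧ ∃ l : K, HasLead t 0 (L n) o l) ∧
      ∃ n₀ : ℕ, ∀ n ≤ N, n ≠ n₀ → ∃ l : K, HasLead t 0 (L n) 0 l) := by
  obtain ⟨o, l, hol⟩ := exists_lead ht (hKt 0 (Nat.zero_le _)) (hL0 0 (Nat.zero_le _)) 0
  by_cases ho : o < 0
  · left
    refine ⟨o, ho, l, fun n => ?_⟩
    induction n with
    | zero => exact fun _ => hol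
    | succ n ih =>
      intro hn
      have h1 := ih (by omega)
      rw [hLs n (by omega)]
      exact h1.add_regS (RegS.mono ht (RegS.of_regAt (h1.ld_zero ht)) ho)
  · right
    push Not at ho
    have hall : ∀ n ≤ N, ∃ o : ℤ, 0 ≤ o ∧ ∃ l : K, HasLead t 0 (L n) o l := by
      intro n
      induction n with
      | zero => exact fun _ => ⟨o, ho, l, hol⟩
      | succ n ih =>
        intro hn
        obtain ⟨o, ho, l, h1⟩ := ih (by omega)
        obtain ⟨o', l', h2⟩ := exists_lead ht (hKt (n+1) hn) (hL0 (n+1) hn) 0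
        refine ⟨o', ?_, l', h2⟩
        by_contra hneg
        push Not at hneg
        have h3 : RegS t 0 (L n) o' (0:K) := by
          exact RegS.mono ht h1.2 (by omega)
        have h4 : RegS t 0 (ld S.D (L n)) o' (0:K) :=
          RegS.mono ht (RegS.of_regAt (h1.ld_zero ht)) (by omega)
        have h5 := h3.add h4
        rw [← hLs n (by omega)] at h5
        have := RegS.unique ht h2.2 h5
        rw [add_zero] at this
        exact h2.1 this
    refine ⟨hall, ?_⟩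
    -- state propagation
    have hst : ∀ n ≤ N, (∃ q : K, HasLead t 0 (L n) 0 q ∧ St S q) → ∀ k, n + k ≤ N →
        ∃ q : K, HasLead t 0 (L (n + k)) 0 q ∧ St S q := by
      intro n hn hq k
      induction k with
      | zero => exact fun _ => hq
      | succ k ih =>
        intro hk
        obtain ⟨q, h1, h2⟩ := ih (by omega)
        refine ⟨q + S.d q / q, ⟨h2.next.ne_zero, ?_⟩, h2.next⟩
        rw [show n + (k + 1) = n + k + 1 by ring, hLs (n+k) (by omega)]
        exact (h1.2.add (RegS.of_regAt (h1.ld_zero ht))).congr rfl rfl (by simp)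
    by_cases hex : ∃ n, n ≤ N ∧ ∃ o : ℤ, 0 < o ∧ ∃ l : K, HasLead t 0 (L n) o l
    · classical
      set n₀ := Nat.find hex with hn₀
      obtain ⟨hn₀N, o, ho, l, hol⟩ := Nat.find_spec hex
      refine ⟨n₀, fun n hn hne => ?_⟩
      rcases lt_or_gt_of_ne hne with h | h
      · obtain ⟨o', ho', l', h1⟩ := hall n hn
        have h2 := Nat.find_min hex h
        push Not at h2
        rcases ho'.lt_or_eq with h3 | h3
        · exact absurd h1 (h2 hn o' h3 l')
        · subst h3; exact ⟨l', h1⟩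
      · have h1 : ∃ q : K, HasLead t 0 (L (n₀ + 1)) 0 q ∧ St S q := by
          have hst1 : St S (S.d l / l + o * β) := by
            have hl0 : algebraMap K Ω l ≠ 0 := by simpa using hol.1
            refine ⟨algebraMap K Ω l * t ^ o, mul_ne_zero hl0 (zpow_ne_zero _ ht.ne_zero),
              mono_notMem ht hol.1 (by omega), ?_⟩
            have hne : algebraMap K Ω l * t ^ o ≠ 0 := mul_ne_zero hl0 (zpow_ne_zero _ ht.ne_zero)
            rw [ld_eq S.D hne, ld_mono ht hol.1]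
          refine ⟨_, ⟨hst1.ne_zero, ?_⟩, hst1⟩
          rw [hLs n₀ (by omega)]
          have h2 := RegS.of_regAt (hol.regAt_zero ht ho)
          exact (h2.add (RegS.of_regAt (hol.ld_zero ht))).congr rfl rfl (by simp)
        obtain ⟨k, rfl⟩ : ∃ k, n = n₀ + 1 + k := ⟨n - (n₀ + 1), by omega⟩
        obtain ⟨q, h3, _⟩ := hst (n₀ + 1) (by omega) h1 k hn
        exact ⟨q, h3⟩
    · push Not at hex
      refine ⟨0, fun n hn _ => ?_⟩
      obtain ⟨o', ho', l', h1⟩ := hall n hn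
      rcases ho'.lt_or_eq with h3 | h3
      · exact absurd h1 (hex n hn o' h3 l')
      · subst h3; exact ⟨l', h1⟩

end ac
end
end Pool.Agent.Hhelper32.Bcf
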