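import Pool.Agent.Hhelper32.Bcf.Part3

set_option autoImplicit false
set_option linter.unusedSectionVars false
set_option linter.unusedVariables false

open Polynomial

namespace Pool.Agent.Hhelper32.Bcf

section
variable {K Ω : Type*} [Field K] [Field Ω] [Algebra K Ω]


section ac
variable [IsAlgClosed K] [CharZero K] {S : DExt K Ω} {t : Ω} {β : K}

theorem a_succ (ht : IsT S t β) {N : ℕ} {L M : ℕ → Ω} {c : ℕ → K} {m : ℕ → ℤ}
    (hs : Seq S N L M) (he : EData t N L M c m) {n : ℕ} (hn : n < N) :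
    M (n+1) - L (n+1) = M n - L n + algebraMap K Ω (S.d (c n) / c n + m n * β) := by
  have hc := he.c0 n hn.le
  have hc' : algebraMap K Ω (c n) ≠ 0 := by simpa using hc
  have hE : algebraMap K Ω (c n) * t ^ (m n) ≠ 0 := mul_ne_zero hc' (zpow_ne_zero _ ht.ne_zero)
  have h1 : ld S.D (M n) = algebraMap K Ω (S.d (c n) / c n + m n * β) + ld S.D (L n) := by
    rw [he.eq n hn.le, ld_mul S.D hE (hs.L0 n hn.le), ld_mono ht hc]
  rw [hs.Ls n hn, hs.Ms n hn, h1]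
  ring

theorem order_of_regAt (ht : IsT S t β) {a : K} {x : Ω} {v : K} {o : ℤ} {l : K}
    (h : RegAt K t a x v) (hl : HasLead t a x o l) : 0 ≤ o ∧ (v = 0 → 0 < o) := by
  have h1 : 0 ≤ o := by
    by_contra hneg
    push Not at hneg
    have := RegS.mono ht (RegS.of_regAt h) hneg
    exact hl.1 (RegS.unique ht hl.2 this)
  refine ⟨h1, fun hv => ?_⟩
  rcases h1.lt_or_eq with h2 | h2
  · exact h2
  · subst h2
    subst hv
    exact absurd (RegS.unique ht hl.2 (RegS.of_regAt h)) hl.1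

theorem zero_step (ht : IsT S t β) {N : ℕ} {L M : ℕ → Ω} {c : ℕ → K} {m : ℕ → ℤ}
    (hs : Seq S N L M) (he : EData t N L M c m) {n : ℕ} (hn : n + 1 ≤ N) {a : K} (ha : a ≠ 0)
    {o : ℤ} {l : K} (ho : 0 < o) (hl : HasLead t a (L n) o l) :
    HasLead t a (L (n+1)) (-1) (o * (β * a - S.d a)) ∧
    HasLead t a (M (n+1)) (-1) (o * (β * a - S.d a)) ∧ c (n+1) * a ^ (m (n+1)) = 1 := by
  have hu := ht.u_ne ha
  have ho' : (o : K) ≠ 0 := by exact_mod_cast ho.ne'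
  have hou : (o : K) * (β * a - S.d a) ≠ 0 := mul_ne_zero ho' hu
  have hE : ∀ k ≤ N, HasLead t a (algebraMap K Ω (c k) * t ^ (m k)) 0 (c k * a ^ (m k)) := fun k hk =>
    HasLead.of_regAt (mono_regAt ht ha (m k)) (mul_ne_zero (he.c0 k hk) (zpow_ne_zero _ ha))
  have hM : HasLead t a (M n) o (c n * a ^ (m n) * l) := by
    rw [he.eq n (by omega)]
    exact ((hE n (by omega)).mul ht hl).congr rfl (zero_add o) rfl
  have step : ∀ {x : Ω} {l' : K}, HasLead t a x o l' →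
      HasLead t a (x + ld S.D x) (-1) (o * (β * a - S.d a)) := by
    intro x l' h
    refine ⟨hou, ?_⟩
    exact ((RegS.mono ht h.2 (by omega)).add (h.ld ht)).congr rfl rfl (zero_add _)
  have h1 : HasLead t a (L (n+1)) (-1) (o * (β * a - S.d a)) := by
    rw [hs.Ls n (by omega)]; exact step hl
  have h2 : HasLead t a (M (n+1)) (-1) (o * (β * a - S.d a)) := by
    rw [hs.Ms n (by omega)]; exact step hM
  refine ⟨h1, h2, ?_⟩
  have h3 : HasLead t a (M (n+1)) (0 + -1) (c (n+1) * a ^ (m (n+1)) * (o * (β * a - S.d a))) := by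
    rw [he.eq (n+1) hn]
    exact (hE (n+1) hn).mul ht h1
  have h4 := (h3.unique ht h2).2
  exact mul_right_cancel₀ hou (by rw [h4, one_mul])

theorem zero_step2 (ht : IsT S t β) {N : ℕ} {L M : ℕ → Ω} {c : ℕ → K} {m : ℕ → ℤ}
    (hs : Seq S N L M) (he : EData t N L M c m) {n : ℕ} (hn : n + 2 ≤ N) {a : K} (ha : a ≠ 0)
    {o : ℤ} {l : K} (ho : 1 < o) (hl : HasLead t a (L n) o l) :
    c (n+2) * a ^ (m (n+2)) = 1 := by
  obtain ⟨h1, h2, _⟩ := zero_step ht hs he (by omega) ha (by omega) hl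
  have hu := ht.u_ne ha
  have ho' : ((o - 1 : ℤ) : K) ≠ 0 := by exact_mod_cast (by omega : o - 1 ≠ 0)
  have hou : ((o - 1 : ℤ) : K) * (β * a - S.d a) ≠ 0 := mul_ne_zero ho' hu
  have step : ∀ {x : Ω}, HasLead t a x (-1) (o * (β * a - S.d a)) →
      HasLead t a (x + ld S.D x) (-1) (((o - 1 : ℤ) : K) * (β * a - S.d a)) := by
    intro x h
    refine ⟨hou, ?_⟩
    exact (h.2.add (h.ld ht)).congr rfl rfl (by push_cast; ring)
  have h3 : HasLead t a (L (n+2)) (-1) (((o - 1 : ℤ) : K) * (β * a - S.d a)) := by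
    rw [show n + 2 = n + 1 + 1 by ring, hs.Ls (n+1) (by omega)]; exact step h1
  have h4 : HasLead t a (M (n+2)) (-1) (((o - 1 : ℤ) : K) * (β * a - S.d a)) := by
    rw [show n + 2 = n + 1 + 1 by ring, hs.Ms (n+1) (by omega)]; exact step h2
  have hE : HasLead t a (algebraMap K Ω (c (n+2)) * t ^ (m (n+2))) 0 (c (n+2) * a ^ (m (n+2))) :=
    HasLead.of_regAt (mono_regAt ht ha (m (n+2)))
      (mul_ne_zero (he.c0 _ hn) (zpow_ne_zero _ ha))
  have h5 : HasLead t a (M (n+2)) (0 + -1)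
      (c (n+2) * a ^ (m (n+2)) * (((o - 1 : ℤ) : K) * (β * a - S.d a))) := by
    rw [he.eq (n+2) hn]
    exact hE.mul ht h3
  have h6 := (h5.unique ht h4).2
  exact mul_right_cancel₀ hou (by rw [h6, one_mul])

/-- the state of a sequence: not large. -/
def NotLarge (K : Type*) {Ω : Type*} [Field K] [Field Ω] [Algebra K Ω] (t : Ω) (N : ℕ) (L : ℕ → Ω) : Prop :=
  (∀ n ≤ N, ∃ o : ℤ, 0 ≤ o ∧ ∃ l : K, HasLead t 0 (L n) o l) ∧
      ∃ n₀ : ℕ, ∀ n ≤ N, n ≠ n₀ → ∃ l : K, HasLead t 0 (L n) 0 l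

theorem M_mem_Kt (ht : IsT S t β) {N : ℕ} {L M : ℕ → Ω} {c : ℕ → K} {m : ℕ → ℤ}
    (he : EData t N L M c m) (hKt : ∀ n ≤ N, L n ∈ Kt K t) : ∀ n ≤ N, M n ∈ Kt K t := by
  intro n hn
  rw [he.eq n hn]
  exact mul_mem (mul_mem (alg_mem_Kt _) (zpow_mem t_mem_Kt _)) (hKt n hn)

theorem E_lead (ht : IsT S t β) {N : ℕ} {L M : ℕ → Ω} {c : ℕ → K} {m : ℕ → ℤ}
    (he : EData t N L M c m) {n : ℕ} (hn : n ≤ N) {o : ℤ} {l : K} (h : HasLead t 0 (L n) o l) :
    HasLead t 0 (M n) (m n + o) (c n * l) := by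
  rw [he.eq n hn]
  exact (mono_lead ht (he.c0 n hn) (m n)).mul ht h

theorem not_both_large (ht : IsT S t β) {N : ℕ} {L M : ℕ → Ω} {c : ℕ → K} {m : ℕ → ℤ}
    (hs : Seq S N L M) (he : EData t N L M c m) (hN : 2 ≤ N) (hm : ∃ n ≤ N, m n ≠ 0)
    {o o' : ℤ} {l l' : K} (hL : ∀ n ≤ N, HasLead t 0 (L n) o l)
    (hM : ∀ n ≤ N, HasLead t 0 (M n) o' l') : False := by
  have h1 : ∀ n ≤ N, m n = o' - o ∧ c n = l' / l := by
    intro n hn
    have h2 := (E_lead ht he hn (hL n hn)).unique ht (hM n hn)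
    refine ⟨by omega, ?_⟩
    rw [eq_div_iff (hL n hn).1]
    exact h2.2
  have h2 := eq_lemma ht hs he (n := 0) (by omega)
    (by rw [(h1 0 (by omega)).2, (h1 (0+1) (by omega)).2])
    (by rw [(h1 0 (by omega)).1, (h1 (0+1) (by omega)).1])
  obtain ⟨n, hn, hmn⟩ := hm
  rw [(h1 0 (by omega)).1] at h2
  rw [(h1 n hn).1, h2] at hmn
  exact hmn rfl

theorem s2 (ht : IsT S t β) {N : ℕ} {L M : ℕ → Ω} {c : ℕ → K} {m : ℕ → ℤ}
    (hs : Seq S N L M) (he : EData t N L M c m) (hN : 12 ≤ N) (hKt : ∀ n ≤ N, L n ∈ Kt K t)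
    {o : ℤ} {l : K} (ho : o < 0) (hL : ∀ n ≤ N, HasLead t 0 (L n) o l)
    (hM : NotLarge K t N M) : False := by
  obtain ⟨e, rfl⟩ : ∃ e : ℕ, o = -(e : ℤ) := ⟨(-o).toNat, by
    rw [Int.toNat_of_nonneg (by omega)]; ring⟩
  have he0 : 0 < e := by omega
  obtain ⟨_, n₁, hn₁⟩ := hM
  have hm1 : ∀ n ≤ N, n ≠ n₁ → m n = e := by
    intro n hn hne
    obtain ⟨l', hl'⟩ := hn₁ n hn hne
    have := ((E_lead ht he hn (hL n hn)).unique ht hl').1
    omega
  have hm0 : ∃ n ≤ N, m n ≠ 0 := by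
    by_cases h : n₁ = 0
    · refine ⟨1, by omega, ?_⟩
      rw [hm1 1 (by omega) (by omega)]; omega
    · refine ⟨0, by omega, ?_⟩
      rw [hm1 0 (by omega) (by omega)]; omega
  have hKt' : ∀ n ≤ N, L n ∈ Kt K t⁻¹ := fun n hn => by rw [Kt_inv ht]; exact hKt n hn
  have hKtM' : ∀ n ≤ N, M n ∈ Kt K t⁻¹ := fun n hn => by
    rw [Kt_inv ht]; exact M_mem_Kt ht he hKt n hn
  have dL := place_dich ht.inv hs.L0 hs.Ls hKt'
  have dM := place_dich ht.inv hs.M0 hs.Ms hKtM'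
  -- L not large at infinity
  have hLinf : ∃ n₃ : ℕ, ∀ n ≤ N, n ≠ n₃ → ∃ l : K, HasLead t⁻¹ 0 (L n) 0 l := by
    rcases dL with ⟨o', ho', l', hL'⟩ | ⟨_, h⟩
    · exfalso
      rcases dM with ⟨o'', ho'', l'', hM''⟩ | ⟨_, n₂, hn₂⟩
      · obtain ⟨n, hn, hmn⟩ := hm0
        exact not_both_large ht.inv hs he.inv (by omega) ⟨n, hn, by simpa using hmn⟩ hL' hM''
      · -- n outside n₁, n₂
        obtain ⟨n, hn, h1, h2⟩ : ∃ n ≤ N, n ≠ n₁ ∧ n ≠ n₂ := by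
          have : ∃ n : ℕ, n ≤ 2 ∧ n ≠ n₁ ∧ n ≠ n₂ := by
            by_cases a0 : 0 ≠ n₁ ∧ 0 ≠ n₂
            · exact ⟨0, by omega, a0⟩
            by_cases a1 : 1 ≠ n₁ ∧ 1 ≠ n₂
            · exact ⟨1, by omega, a1⟩
            exact ⟨2, by omega, by omega, by omega⟩
          obtain ⟨n, a, b⟩ := this
          exact ⟨n, by omega, b⟩
        obtain ⟨l3, hl3⟩ := hn₂ n hn h2
        have h4 := ((E_lead ht.inv he.inv hn (hL' n hn)).unique ht.inv hl3).1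
        simp only [hm1 n hn h1] at h4
        omega
    · exact h
  obtain ⟨n₃, hn₃⟩ := hLinf
  -- binomial form
  have hbin : ∀ n, n + 4 ≤ N + 1 → n ≠ n₁ ∧ n ≠ n₃ → n + 1 ≠ n₁ ∧ n + 1 ≠ n₃ → n + 2 ≠ n₁ ∧ n + 2 ≠ n₃ →
      ∃ ν : K, ν ≠ 0 ∧ L n * t ^ e = algebraMap K Ω ν * (algebraMap K Ω (c (n+1)) * t ^ e - 1) := by
    intro n hn hg0 hg1 hg2
    have hx0 : L n * t ^ e ≠ 0 := mul_ne_zero (hs.L0 n (by omega)) (pow_ne_zero _ ht.ne_zero)
    apply eq_binomial ht (mul_mem (hKt n (by omega)) (pow_mem t_mem_Kt _)) hx0 he0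
      (he.c0 (n+1) (by omega))
    · intro a ha o l h hpos
      have h1 : HasLead t a (t ^ e) 0 (a ^ e) :=
        HasLead.of_regAt (RegAt.self.pow e) (pow_ne_zero _ ha)
      have h2 : HasLead t a (L n) o (l / a ^ e) :=
        (h.div ht h1).congr (by
          have := pow_ne_zero e ht.ne_zero
          field_simp) (sub_zero o) rfl
      obtain ⟨_, _, h3⟩ := zero_step ht hs he (by omega) ha hpos h2
      have hme : m (n+1) = e := hm1 (n+1) (by omega) hg1.1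
      have h3' : c (n+1) * a ^ e = 1 := by
        rw [hme, zpow_natCast] at h3; exact h3
      refine ⟨?_, h3'⟩
      by_contra hne
      have h4 := zero_step2 ht hs he (by omega) ha (by omega : 1 < o) h2
      have hme2 : m (n+2) = e := hm1 (n+2) (by omega) hg2.1
      rw [hme2, zpow_natCast] at h4
      have h5 : c (n+2) = c (n+1) := by
        have hae : a ^ e ≠ 0 := pow_ne_zero _ ha
        exact mul_right_cancel₀ hae (h4.trans h3'.symm)
      have h6 := eq_lemma ht hs he (n := n+1) (by omega) h5 (by rw [show n + 1 + 1 = n + 2 by ring, hme2, hme])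
      rw [hme] at h6
      omega
    · intro o l h
      have h1 : HasLead t 0 (t ^ e) e (1:K) := (tzpow_lead ht (e:ℤ)).congr (by simp) rfl rfl
      have h2 := (((hL n (by omega)).mul ht h1).unique ht h).1
      omega
    · intro o l h
      obtain ⟨l', hl'⟩ := hn₃ n (by omega) hg0.2
      have h1 : HasLead t⁻¹ 0 (t ^ e) (-(e:ℤ)) (1:K) :=
        (tzpow_lead ht.inv (-(e:ℤ))).congr (by simp) rfl rfl
      have h2 := ((hl'.mul ht.inv h1).unique ht.inv h).1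
      omega
  -- choose a block
  obtain ⟨n, hn, g0, g1, g2, g3⟩ : ∃ n, n + 4 ≤ N ∧ (n ≠ n₁ ∧ n ≠ n₃) ∧ (n + 1 ≠ n₁ ∧ n + 1 ≠ n₃) ∧
      (n + 2 ≠ n₁ ∧ n + 2 ≠ n₃) ∧ (n + 3 ≠ n₁ ∧ n + 3 ≠ n₃) := by
    by_cases b0 : (0 ≠ n₁ ∧ 0 ≠ n₃) ∧ (1 ≠ n₁ ∧ 1 ≠ n₃) ∧ (2 ≠ n₁ ∧ 2 ≠ n₃) ∧ (3 ≠ n₁ ∧ 3 ≠ n₃)
    · exact ⟨0, by omega, b0⟩
    by_cases b1 : (4 ≠ n₁ ∧ 4 ≠ n₃) ∧ (5 ≠ n₁ ∧ 5 ≠ n₃) ∧ (6 ≠ n₁ ∧ 6 ≠ n₃) ∧ (7 ≠ n₁ ∧ 7 ≠ n₃)
    · exact ⟨4, by omega, b1⟩
    refine ⟨8, by omega, ?_⟩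
    omega
  obtain ⟨ν, hν, hLn⟩ := hbin n (by omega) g0 g1 g2
  obtain ⟨ν', hν', hLn'⟩ := hbin (n+1) (by omega) g1 g2 g3
  have hte : t ^ e ≠ 0 := pow_ne_zero _ ht.ne_zero
  obtain ⟨a, ha⟩ := IsAlgClosed.exists_pow_nat_eq ((c (n+1))⁻¹) he0
  have hc1 := he.c0 (n+1) (by omega)
  have ha0 : a ≠ 0 := by
    rintro rfl
    rw [zero_pow he0.ne'] at ha
    exact inv_ne_zero hc1 ha.symm
  have hae : a ^ e ≠ 0 := pow_ne_zero _ ha0
  have hte_reg : RegAt K t a (t ^ e) (a ^ e) := RegAt.self.pow e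
  have h1 : RegAt K t a (L n) 0 := by
    have h2 := (((RegAt.const (t := t) (c := a) ν).mul
      (((RegAt.const (t := t) (c := a) (c (n+1))).mul hte_reg).sub RegAt.one)).div ht hte_reg hae)
    refine h2.congr ?_ ?_
    · rw [← hLn]; field_simp
    · rw [ha]; field_simp; ring
  obtain ⟨o, l', hol⟩ := exists_lead ht (hKt n (by omega)) (hs.L0 n (by omega)) a
  have ho1 := (order_of_regAt ht h1 hol).2 rfl
  obtain ⟨h3, _, _⟩ := zero_step ht hs he (by omega) ha0 ho1 hol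
  have h4 : ∃ v, RegAt K t a (L (n+1)) v := by
    have h2 := (((RegAt.const (t := t) (c := a) ν').mul
      (((RegAt.const (t := t) (c := a) (c (n+1+1))).mul hte_reg).sub RegAt.one)).div ht hte_reg hae)
    refine ⟨_, h2.congr ?_ rfl⟩
    rw [← hLn']; field_simp
  obtain ⟨v, hv⟩ := h4
  have := (order_of_regAt ht hv h3).1
  omega

theorem s4 (ht : IsT S t β) {N : ℕ} {L M : ℕ → Ω} {c : ℕ → K} {m : ℕ → ℤ}
    (hs : Seq S N L M) (he : EData t N L M c m) (hN : 10 ≤ N) (hKt : ∀ n ≤ N, L n ∈ Kt K t)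
    (hL : NotLarge K t N L) (hM : NotLarge K t N M) (hL' : NotLarge K t⁻¹ N L)
    (hM' : NotLarge K t⁻¹ N M) : ∃ n ≤ N, ∃ α : K, M n - L n = algebraMap K Ω α := by
  obtain ⟨_, n₁, h1⟩ := hL
  obtain ⟨_, n₂, h2⟩ := hM
  obtain ⟨_, n₃, h3⟩ := hL'
  obtain ⟨_, n₄, h4⟩ := hM'
  obtain ⟨n, hn, g0, g1⟩ : ∃ n, n + 2 ≤ N ∧ (n ≠ n₁ ∧ n ≠ n₂ ∧ n ≠ n₃ ∧ n ≠ n₄) ∧
      (n+1 ≠ n₁ ∧ n+1 ≠ n₂ ∧ n+1 ≠ n₃ ∧ n+1 ≠ n₄) := by
    by_cases b0 : (0 ≠ n₁ ∧ 0 ≠ n₂ ∧ 0 ≠ n₃ ∧ 0 ≠ n₄) ∧ (1 ≠ n₁ ∧ 1 ≠ n₂ ∧ 1 ≠ n₃ ∧ 1 ≠ n₄)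
    · exact ⟨0, by omega, b0⟩
    by_cases b1 : (2 ≠ n₁ ∧ 2 ≠ n₂ ∧ 2 ≠ n₃ ∧ 2 ≠ n₄) ∧ (3 ≠ n₁ ∧ 3 ≠ n₂ ∧ 3 ≠ n₃ ∧ 3 ≠ n₄)
    · exact ⟨2, by omega, b1⟩
    by_cases b2 : (4 ≠ n₁ ∧ 4 ≠ n₂ ∧ 4 ≠ n₃ ∧ 4 ≠ n₄) ∧ (5 ≠ n₁ ∧ 5 ≠ n₂ ∧ 5 ≠ n₃ ∧ 5 ≠ n₄)
    · exact ⟨4, by omega, b2⟩
    by_cases b3 : (6 ≠ n₁ ∧ 6 ≠ n₂ ∧ 6 ≠ n₃ ∧ 6 ≠ n₄) ∧ (7 ≠ n₁ ∧ 7 ≠ n₂ ∧ 7 ≠ n₃ ∧ 7 ≠ n₄)
    · exact ⟨6, by omega, b3⟩
    refine ⟨8, by omega, ?_⟩
    omega
  have hm0 : ∀ k ≤ N, (k ≠ n₁ ∧ k ≠ n₂ ∧ k ≠ n₃ ∧ k ≠ n₄) → m k = 0 := by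
    intro k hk hg
    obtain ⟨l, hl⟩ := h1 k hk hg.1
    obtain ⟨l', hl'⟩ := h2 k hk hg.2.1
    have := ((E_lead ht he hk hl).unique ht hl').1
    omega
  have hmn := hm0 n (by omega) g0
  have hmn1 := hm0 (n+1) (by omega) g1
  have hLK : ∃ a : K, algebraMap K Ω a = L n := by
    apply mem_K_of_no_zeros ht (hKt n (by omega)) (hs.L0 n (by omega))
    · intro a ha o l h
      by_contra hpos
      push Not at hpos
      obtain ⟨_, _, h3⟩ := zero_step ht hs he (by omega) ha hpos h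
      rw [hmn1, zpow_zero, mul_one] at h3
      apply hs.ne (n+1) (by omega)
      rw [he.eq (n+1) (by omega), hmn1, h3]
      simp
    · intro o l h
      obtain ⟨l', hl'⟩ := h1 n (by omega) g0.1
      exact (h.unique ht hl').1.le
    · intro o l h
      obtain ⟨l', hl'⟩ := h3 n (by omega) g0.2.2.1
      exact (h.unique ht.inv hl').1.le
  obtain ⟨a, ha⟩ := hLK
  refine ⟨n, by omega, c n * a - a, ?_⟩
  rw [he.eq n (by omega), hmn, ← ha]
  simp

/-- all `a_i` in `K` once one is. -/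
theorem all_in_K (ht : IsT S t β) {N : ℕ} {L M : ℕ → Ω} {c : ℕ → K} {m : ℕ → ℤ}
    (hs : Seq S N L M) (he : EData t N L M c m) (h : ∃ n ≤ N, ∃ α : K, M n - L n = algebraMap K Ω α) :
    ∀ n ≤ N, ∃ α : K, M n - L n = algebraMap K Ω α := by
  have h1 : ∀ n ≤ N, ∃ B : K, M n - L n = M 0 - L 0 + algebraMap K Ω B := by
    intro n
    induction n with
    | zero => exact fun _ => ⟨0, by simp⟩
    | succ n ih =>
      intro hn
      obtain ⟨B, hB⟩ := ih (by omega)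
      refine ⟨B + (S.d (c n) / c n + m n * β), ?_⟩
      rw [a_succ ht hs he (by omega), hB]
      simp only [map_add]
      ring
  obtain ⟨n, hn, α, hα⟩ := h
  obtain ⟨B, hB⟩ := h1 n hn
  intro k hk
  obtain ⟨B', hB'⟩ := h1 k hk
  refine ⟨α - B + B', ?_⟩
  rw [hB', map_add, map_sub, ← hα, hB]
  ring

/-! ### S5 -/

noncomputable def xv (c : K) (m : ℤ) : K := if 0 < m then -1 else if m < 0 then 0 else (c - 1)⁻¹

theorem xv_sub (c : K) (m : ℤ) : xv c m - xv c (-m) = -((m.sign : ℤ) : K) := by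
  unfold xv
  rcases lt_trichotomy m 0 with h | h | h
  · rw [Int.sign_eq_neg_one_of_neg h]
    simp [h, h.le, not_lt.mpr h.le]
  · subst h; simp
  · rw [Int.sign_eq_one_of_pos h]
    simp [h, not_lt.mpr h.le]

theorem xv_reg (ht : IsT S t β) {c : K} (hc : c ≠ 0) {m : ℤ} (hne : algebraMap K Ω c * t ^ m ≠ 1) :
    RegAt K t 0 (algebraMap K Ω c * t ^ m - 1)⁻¹ (xv c m) := by
  have hE := mono_lead ht hc m
  unfold xv
  rcases lt_trichotomy m 0 with h | h | h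
  · rw [if_neg (not_lt.mpr h.le), if_pos h]
    have h1 : RegS t 0 (-1 : Ω) m (0:K) := by
      have := (RegS.const (K := K) (t := t) (c := 0) (-1)).mono ht h
      exact this.congr (by simp) rfl rfl
    have h2 : HasLead t 0 (algebraMap K Ω c * t ^ m - 1) m c := (hE.add_regS h1).congr (by ring) rfl rfl
    exact (h2.inv ht).regAt_zero ht (by omega)
  · subst h
    simp only [lt_irrefl, if_false, zpow_zero, mul_one]
    have hc1 : c - 1 ≠ 0 := by
      intro h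
      apply hne
      rw [sub_eq_zero.mp h]; simp
    exact ((RegAt.const (t := t) (c := 0) (c - 1)).inv ht hc1).congr (by simp) rfl
  · rw [if_pos h]
    have h1 := (hE.regAt_zero ht h).sub RegAt.one
    exact (h1.inv ht (by simp)).congr rfl (by norm_num)

theorem s5_rel (ht : IsT S t β) {N : ℕ} {L M : ℕ → Ω} {c : ℕ → K} {m : ℕ → ℤ} {α : ℕ → K}
    (hs : Seq S N L M) (he : EData t N L M c m) (hα : ∀ n ≤ N, M n - L n = algebraMap K Ω (α n))
    {n : ℕ} (hn : n < N) :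
    α (n+1) * xv (c (n+1)) (m (n+1)) = α n * xv (c n) (m n) + S.d (α n) / α n -
      (S.d (c n) / c n + m n * β) * (1 + xv (c n) (m n)) := by
  have hEne : ∀ k ≤ N, algebraMap K Ω (c k) * t ^ (m k) ≠ 1 := by
    intro k hk h
    apply hs.ne k hk
    rw [he.eq k hk, h, one_mul]
  have hLk : ∀ k ≤ N, L k = algebraMap K Ω (α k) * (algebraMap K Ω (c k) * t ^ (m k) - 1)⁻¹ := by
    intro k hk
    have h1 : algebraMap K Ω (c k) * t ^ (m k) - 1 ≠ 0 := sub_ne_zero.mpr (hEne k hk)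
    rw [← hα k hk, he.eq k hk]
    field_simp
  have hα0 : ∀ k ≤ N, α k ≠ 0 := by
    intro k hk h
    have := hα k hk
    rw [h, map_zero, sub_eq_zero] at this
    exact hs.ne k hk this
  have hreg : ∀ k ≤ N, RegAt K t 0 (L k) (α k * xv (c k) (m k)) := by
    intro k hk
    rw [hLk k hk]
    exact (RegAt.const (α k)).mul (xv_reg ht (he.c0 k hk) (hEne k hk))
  have hE1 : algebraMap K Ω (c n) * t ^ (m n) - 1 ≠ 0 := sub_ne_zero.mpr (hEne n hn.le)
  have hEn0 : algebraMap K Ω (c n) * t ^ (m n) ≠ 0 :=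
    mul_ne_zero (by simpa using he.c0 n hn.le) (zpow_ne_zero _ ht.ne_zero)
  have hα' : algebraMap K Ω (α n) ≠ 0 := by simpa using hα0 n hn.le
  have hld : ld S.D (L n) = algebraMap K Ω (S.d (α n) / α n) -
      algebraMap K Ω (S.d (c n) / c n + m n * β) * (1 + (algebraMap K Ω (c n) * t ^ (m n) - 1)⁻¹) := by
    rw [hLk n hn.le, ld_mul S.D hα' (inv_ne_zero hE1), ld_inv S.D hE1]
    have h1 : ld S.D (algebraMap K Ω (α n)) = algebraMap K Ω (S.d (α n) / α n) := by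
      unfold ld; rw [S.compat, map_div₀]
    have h2 : ld S.D (algebraMap K Ω (c n) * t ^ (m n) - 1) =
        algebraMap K Ω (S.d (c n) / c n + m n * β) * (1 + (algebraMap K Ω (c n) * t ^ (m n) - 1)⁻¹) := by
      have h3 : S.D (algebraMap K Ω (c n) * t ^ (m n)) = algebraMap K Ω (S.d (c n) / c n + m n * β) * (algebraMap K Ω (c n) * t ^ (m n)) := by
        rw [ld_eq S.D hEn0, ld_mono ht (he.c0 n hn.le)]
      unfold ld
      rw [map_sub, h3, Derivation.map_one_eq_zero, sub_zero]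
      field_simp
      ring
    rw [h1, h2]
    ring
  have h1 := hreg (n+1) (by omega)
  rw [hs.Ls n hn, hld] at h1
  have h2 := (hreg n hn.le).add ((RegAt.const (t := t) (c := 0) (S.d (α n) / α n)).sub
    ((RegAt.const (t := t) (c := 0) (S.d (c n) / c n + m n * β)).mul
      (RegAt.one.add (xv_reg ht (he.c0 n hn.le) (hEne n hn.le)))))
  rw [h1.unique ht h2]
  ring

theorem s5 (ht : IsT S t β) {N : ℕ} {L M : ℕ → Ω} {c : ℕ → K} {m : ℕ → ℤ}
    (hs : Seq S N L M) (he : EData t N L M c m) (hN : 1 ≤ N)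
    (hall : ∀ n ≤ N, ∃ α : K, M n - L n = algebraMap K Ω α) (hm : ∃ n ≤ N, m n ≠ 0) :
    M 1 - L 1 = 2 * (M 0 - L 0) := by
  choose! α hα using hall
  have hα0 : ∀ k ≤ N, α k ≠ 0 := by
    intro k hk h
    have := hα k hk
    rw [h, map_zero, sub_eq_zero] at this
    exact hs.ne k hk this
  set b : ℕ → K := fun n => S.d (c n) / c n + m n * β with hb
  have hαs : ∀ n < N, α (n+1) = α n + b n := by
    intro n hn
    have h1 := a_succ ht hs he hn
    rw [hα n hn.le, hα (n+1) (by omega), ← map_add] at h1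
    exact (algebraMap K Ω).injective h1
  have hrel : ∀ n < N, (α n + b n) * ((m (n+1)).sign : ℤ) = (α n - b n) * ((m n).sign : ℤ) := by
    intro n hn
    have h1 := s5_rel ht hs he hα hn
    have h2 := s5_rel ht.inv hs he.inv hα hn
    have h3 := xv_sub (c (n+1)) (m (n+1))
    have h4 := xv_sub (c n) (m n)
    rw [hαs n hn] at h1 h2
    simp only [hb] at h1 h2 ⊢
    push_cast at h2
    linear_combination (-1 : K) * h1 + h2 + (α n + (S.d (c n) / c n + m n * β)) * h3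
      - (α n - (S.d (c n) / c n + m n * β)) * h4
  have hm1 : ∀ n < N, m (n+1) = 0 := by
    intro n hn
    by_contra hne
    have h1 := hrel n hn
    have hα1 := hα0 (n+1) (by omega)
    rw [hαs n hn] at hα1
    have hαn := hα0 n hn.le
    rcases lt_trichotomy (m n) 0 with h | h | h
    · have hbn : b n ≠ 0 := mono_b_ne ht (he.c0 n hn.le) (by omega)
      rw [Int.sign_eq_neg_one_of_neg h] at h1
      rcases lt_or_gt_of_ne hne with h' | h'
      · rw [Int.sign_eq_neg_one_of_neg h'] at h1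
        push_cast at h1
        apply hbn
        have : (2:K) * b n = 0 := by linear_combination -h1
        simpa using this
      · rw [Int.sign_eq_one_of_pos h'] at h1
        push_cast at h1
        apply hαn
        have : (2:K) * α n = 0 := by linear_combination h1
        simpa using this
    · rw [h, Int.sign_zero] at h1
      simp only [Int.cast_zero, mul_zero, mul_eq_zero, Int.cast_eq_zero, Int.sign_eq_zero_iff_zero] at h1
      rcases h1 with h1 | h1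
      · exact hα1 h1
      · exact hne h1
    · have hbn : b n ≠ 0 := mono_b_ne ht (he.c0 n hn.le) (by omega)
      rw [Int.sign_eq_one_of_pos h] at h1
      rcases lt_or_gt_of_ne hne with h' | h'
      · rw [Int.sign_eq_neg_one_of_neg h'] at h1
        push_cast at h1
        apply hαn
        have : (2:K) * α n = 0 := by linear_combination -h1
        simpa using this
      · rw [Int.sign_eq_one_of_pos h'] at h1
        push_cast at h1
        apply hbn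
        have : (2:K) * b n = 0 := by linear_combination h1
        simpa using this
  have hm0 : m 0 ≠ 0 := by
    obtain ⟨n, hn, hmn⟩ := hm
    rcases n with _ | n
    · exact hmn
    · exact absurd (hm1 n (by omega)) hmn
  have h1 := hrel 0 (by omega)
  rw [hm1 0 (by omega), Int.sign_zero] at h1
  simp only [Int.cast_zero, mul_zero] at h1
  have h2 : α 0 - b 0 = 0 := by
    rcases mul_eq_zero.mp h1.symm with h | h
    · exact h
    · exfalso
      apply hm0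
      simpa using h
  have h3 := hαs 0 (by omega)
  rw [hα 0 (by omega), hα 1 hN]
  rw [zero_add] at h3
  rw [h3, ← sub_eq_zero.mp h2, map_add]
  ring

/-- **Part 3**: all `L n` in `K(t)`. -/
theorem part3 (ht : IsT S t β) {N : ℕ} {L M : ℕ → Ω} {c : ℕ → K} {m : ℕ → ℤ}
    (hs : Seq S N L M) (he : EData t N L M c m) (hN : 12 ≤ N) (hKt : ∀ n ≤ N, L n ∈ Kt K t)
    (hm : ∃ n ≤ N, m n ≠ 0) : M 1 - L 1 = 2 * (M 0 - L 0) := by
  have hKtM := M_mem_Kt ht he hKt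
  have hKt' : ∀ n ≤ N, L n ∈ Kt K t⁻¹ := fun n hn => by rw [Kt_inv ht]; exact hKt n hn
  have hKtM' : ∀ n ≤ N, M n ∈ Kt K t⁻¹ := fun n hn => by rw [Kt_inv ht]; exact hKtM n hn
  have hminv : ∃ n ≤ N, (fun n => - m n) n ≠ 0 := by
    obtain ⟨n, hn, h⟩ := hm
    exact ⟨n, hn, by simpa using h⟩
  rcases place_dich ht hs.L0 hs.Ls hKt with ⟨o, ho, l, hL⟩ | hL
  · exfalso
    rcases place_dich ht hs.M0 hs.Ms hKtM with ⟨o', ho', l', hM⟩ | hM
    · exact not_both_large ht hs he (by omega) hm hL hM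
    · exact s2 ht hs he hN hKt ho hL hM
  rcases place_dich ht hs.M0 hs.Ms hKtM with ⟨o', ho', l', hM⟩ | hM
  · exact (s2 ht hs.swap (he.swap ht.ne_zero) hN hKtM ho' hM hL).elim
  rcases place_dich ht.inv hs.L0 hs.Ls hKt' with ⟨o, ho, l, hL'⟩ | hL'
  · exfalso
    rcases place_dich ht.inv hs.M0 hs.Ms hKtM' with ⟨o', ho', l', hM'⟩ | hM'
    · exact not_both_large ht.inv hs he.inv (by omega) hminv hL' hM'
    · exact s2 ht.inv hs he.inv hN hKt' ho hL' hM'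
  rcases place_dich ht.inv hs.M0 hs.Ms hKtM' with ⟨o', ho', l', hM'⟩ | hM'
  · exact (s2 ht.inv hs.swap (he.inv.swap ht.inv.ne_zero) hN hKtM' ho' hM' hL').elim
  have h1 := s4 ht hs he (by omega) hKt hL hM hL' hM'
  exact s5 ht hs he (by omega) (all_in_K ht hs he h1) hm

end ac
end
end Pool.Agent.Hhelper32.Bcf
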